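import Pool.Agent.W263.EP.Gen
import Pool.Agent.H126T.Main

/-! Cohomology of products of hyperelliptic curves over number fields. -/

set_option autoImplicit false

namespace Pool.Agent.W263.EP

open Polynomial NumberField IsDedekindDomain
open Pool.Agent.H921R2.TatePole (nm two_le_nm)

theorem coeff_bound_mul {p q P Q : ℝ[X]} {s : ℝ} (hs : 0 ≤ s)
    (hp : ∀ i, |p.coeff i| ≤ P.coeff i * s ^ i) (hq : ∀ i, |q.coeff i| ≤ Q.coeff i * s ^ i) (k : ℕ) :
    |(p * q).coeff k| ≤ (P * Q).coeff k * s ^ k := by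
  rw [coeff_mul, coeff_mul, Finset.sum_mul]
  refine (Finset.abs_sum_le_sum_abs _ _).trans (Finset.sum_le_sum fun x hx => ?_)
  rw [Finset.HasAntidiagonal.mem_antidiagonal] at hx
  rw [abs_mul, ← hx, pow_add]
  have h1 := hp x.1
  have h2 := hq x.2
  calc |p.coeff x.1| * |q.coeff x.2| ≤ (P.coeff x.1 * s ^ x.1) * (Q.coeff x.2 * s ^ x.2) :=
        mul_le_mul h1 h2 (abs_nonneg _) ((abs_nonneg _).trans h1)
    _ = _ := by ring

theorem coeff_bound_prod {ι : Type} (I : Finset ι) (p P : ι → ℝ[X]) {s : ℝ} (hs : 0 ≤ s)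
    (hp : ∀ j ∈ I, ∀ i, |(p j).coeff i| ≤ (P j).coeff i * s ^ i) (k : ℕ) :
    |(∏ j ∈ I, p j).coeff k| ≤ (∏ j ∈ I, P j).coeff k * s ^ k := by
  classical
  induction I using Finset.induction_on generalizing k with
  | empty =>
    simp only [Finset.prod_empty, coeff_one]
    split_ifs with h
    · rw [h]; simp
    · simp
  | insert a I ha ih =>
    rw [Finset.prod_insert ha, Finset.prod_insert ha]
    refine coeff_bound_mul hs (hp a (Finset.mem_insert_self a I)) (fun i => ih (fun j hj =>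
      hp j (Finset.mem_insert_of_mem hj)) i) k

theorem quad_coeff (t Q d s : ℝ) (hs : 0 ≤ s) (ht : |t| ≤ d * s) (hQ : Q = s ^ 2) (i : ℕ) :
    |(1 + C t * X + C Q * X ^ 2 : ℝ[X]).coeff i| ≤
      (1 + C d * X + X ^ 2 : ℝ[X]).coeff i * s ^ i := by
  have h0 : 0 ≤ Q := by rw [hQ]; positivity
  match i with
  | 0 => simp [coeff_one, coeff_X]
  | 1 => simpa [coeff_one, coeff_X, coeff_X_pow] using ht
  | 2 =>
    simp only [coeff_add, coeff_one, coeff_C_mul, coeff_X, coeff_X_pow]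
    norm_num
    rw [abs_of_nonneg h0, hQ]
  | (i + 3) =>
    simp only [coeff_add, coeff_one, coeff_C_mul, coeff_X, coeff_X_pow]
    norm_num
    rw [if_neg (by omega), if_neg (by omega), abs_zero]

variable {K : Type} [Field K] [NumberField K]

/-- trace of the `m`-th power of Frobenius on `H^k` of the product of the curves `y² = f_j(x)` -/
noncomputable def trHk {n : ℕ} (v : HeightOneSpectrum (𝓞 K)) (f : Fin n → (𝓞 K)[X]) (k m : ℕ) : ℤ :=
  (∏ j, (1 + C (Pool.Agent.H126T.traceH1 v (f j) 1 m) * X + C ((nm v : ℤ) ^ m) * X ^ 2 : ℤ[X])).coeff k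

/-- the Betti numbers of the product -/
noncomputable def betti {n : ℕ} (f : Fin n → (𝓞 K)[X]) (k : ℕ) : ℕ :=
  (∏ j, (1 + C ((f j).natDegree - 1) * X + X ^ 2 : ℕ[X])).coeff k

theorem trHk_bound {n : ℕ} (f : Fin n → (𝓞 K)[X]) (hodd : ∀ j, Odd (f j).natDegree)
    {v : HeightOneSpectrum (𝓞 K)} (hv : ∀ j, 2 * (f j).leadingCoeff ∉ v.asIdeal) (k m : ℕ)
    (hm : 1 ≤ m) : |(trHk v f k m : ℝ)| ≤ betti f k * (nm v : ℝ) ^ ((k : ℝ) * m / 2) := by
  have hq : (0 : ℝ) < nm v := by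
    have := two_le_nm v
    exact_mod_cast (by omega : 0 < nm v)
  set s : ℝ := Real.sqrt ((nm v : ℝ) ^ m) with hs
  have hs0 : 0 ≤ s := Real.sqrt_nonneg _
  have h1v : (1 : 𝓞 K) ∉ v.asIdeal := fun h => v.isPrime.ne_top ((Ideal.eq_top_iff_one _).2 h)
  have key := coeff_bound_prod Finset.univ
    (fun j => (1 + C (Pool.Agent.H126T.traceH1 v (f j) 1 m : ℝ) * X +
      C ((nm v : ℝ) ^ m) * X ^ 2 : ℝ[X]))
    (fun j => (1 + C (((f j).natDegree - 1 : ℕ) : ℝ) * X + X ^ 2 : ℝ[X])) hs0 (fun j _ i => by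
      refine quad_coeff _ _ _ s hs0 ?_ ?_ i
      · have h2 : (2 : 𝓞 K) ∉ v.asIdeal := fun h => hv j (v.asIdeal.mul_mem_right _ h)
        have h3 : (f j).leadingCoeff ∉ v.asIdeal := fun h => hv j (v.asIdeal.mul_mem_left _ h)
        have h4 := Pool.Agent.H126T.traceH1_bound (hodd j) h2 h3 h1v m (by omega)
        have h5 : (((f j).natDegree - 1 : ℕ) : ℝ) = ((f j).natDegree : ℝ) - 1 := by
          have := (hodd j).pos
          rw [Nat.cast_sub (by omega)]
          push_cast; rfl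
        rw [h5]
        exact h4
      · rw [hs, Real.sq_sqrt (by positivity)]) k
  have e1 : ((trHk v f k m : ℤ) : ℝ) = (∏ j, (1 + C (Pool.Agent.H126T.traceH1 v (f j) 1 m : ℝ) * X +
      C ((nm v : ℝ) ^ m) * X ^ 2 : ℝ[X])).coeff k := by
    unfold trHk
    rw [← eq_intCast (Int.castRingHom ℝ), ← Polynomial.coeff_map, Polynomial.map_prod]
    congr 1
    refine Finset.prod_congr rfl fun j _ => ?_
    simp
  have e2 : ((betti f k : ℕ) : ℝ) =
      (∏ j, (1 + C (((f j).natDegree - 1 : ℕ) : ℝ) * X + X ^ 2 : ℝ[X])).coeff k := by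
    unfold betti
    rw [← eq_natCast (Nat.castRingHom ℝ), ← Polynomial.coeff_map, Polynomial.map_prod]
    congr 1
    refine Finset.prod_congr rfl fun j _ => ?_
    simp
  rw [e1, e2]
  refine key.trans (le_of_eq ?_)
  congr 1
  rw [hs, Real.sqrt_eq_rpow, ← Real.rpow_natCast, ← Real.rpow_natCast, ← Real.rpow_mul hq.le,
    ← Real.rpow_mul hq.le]
  congr 1
  ring

end Pool.Agent.W263.EP
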