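import Pool.Agent.W263.EP.Slow

/-! Abelian varieties over `ℚ`: systems of Weil numbers in conjugate pairs. -/

set_option autoImplicit false

namespace Pool.Agent.W263.EP

open Filter Topology Set Classical
open Pool.Agent.W263.BSD hiding sc ff

/-- a complex number with `α + ᾱ = a`, `|α|² = q` (if `a² ≤ 4q`) -/
noncomputable def al (a q : ℝ) : ℂ := ⟨a / 2, Real.sqrt (q - a ^ 2 / 4)⟩

/-- `α^m + ᾱ^m` -/
noncomputable def sm (a q : ℝ) (m : ℕ) : ℝ := 2 * (al a q ^ m).re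

theorem al_normSq {a q : ℝ} (h : a ^ 2 ≤ 4 * q) : Complex.normSq (al a q) = q := by
  unfold al
  rw [Complex.normSq_mk]
  rw [Real.mul_self_sqrt (by linarith)]
  ring

theorem al_norm {a q : ℝ} (h : a ^ 2 ≤ 4 * q) : ‖al a q‖ = √q := by
  have h1 := al_normSq h
  rw [Complex.normSq_eq_norm_sq] at h1
  calc ‖al a q‖ = √(‖al a q‖ ^ 2) := (Real.sqrt_sq (norm_nonneg _)).symm
    _ = √q := by rw [h1]

theorem sm_bound {a q : ℝ} (h : a ^ 2 ≤ 4 * q) (m : ℕ) : |sm a q m| ≤ 2 * √q ^ m := by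
  unfold sm
  rw [abs_mul, abs_two]
  refine mul_le_mul_of_nonneg_left ?_ (by norm_num)
  refine (Complex.abs_re_le_norm _).trans ?_
  rw [norm_pow, al_norm h]

theorem sm_two {a q : ℝ} (h : a ^ 2 ≤ 4 * q) : sm a q 2 = a ^ 2 - 2 * q := by
  unfold sm al
  rw [sq, Complex.mul_re]
  simp only []
  rw [Real.mul_self_sqrt (by linarith)]
  ring

theorem sm_eq (a q : ℝ) (m : ℕ) : ((sm a q m : ℝ) : ℂ) =
    al a q ^ m + (starRingEnd ℂ (al a q)) ^ m := by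
  unfold sm
  rw [← map_pow, Complex.add_conj]

/-- the local Euler factor -/
theorem sm_exp {a q : ℝ} (h : a ^ 2 ≤ 4 * q) {z : ℂ} (hz : √q * ‖z‖ < 1) :
    Summable (fun m : ℕ => ((sm a q (m + 1) : ℝ) : ℂ) * z ^ (m + 1) / (m + 1)) ∧
    Complex.exp (∑' m : ℕ, ((sm a q (m + 1) : ℝ) : ℂ) * z ^ (m + 1) / (m + 1)) =
      (1 - a * z + q * z ^ 2)⁻¹ := by
  set α := al a q with hα
  have h1 : ‖α * z‖ < 1 := by rw [norm_mul, hα, al_norm h]; exact hz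
  have h2 : ‖starRingEnd ℂ α * z‖ < 1 := by rw [norm_mul, Complex.norm_conj, hα, al_norm h]; exact hz
  have hs : ∀ {w : ℂ}, ‖w‖ < 1 → HasSum (fun m : ℕ => w ^ (m + 1) / (m + 1)) (-Complex.log (1 - w)) := by
    intro w hw
    have h3 := Complex.hasSum_taylorSeries_neg_log hw
    rw [hasSum_nat_add_iff' 1 |>.symm] at h3
    simp only [Finset.range_one, Finset.sum_singleton, pow_zero, Nat.cast_zero, div_zero,
      sub_zero] at h3
    refine h3.congr_fun fun m => ?_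
    push_cast
    rfl
  have h3 := (hs h1).add (hs h2)
  have h4 : HasSum (fun m : ℕ => ((sm a q (m + 1) : ℝ) : ℂ) * z ^ (m + 1) / (m + 1))
      (-Complex.log (1 - α * z) + -Complex.log (1 - starRingEnd ℂ α * z)) := by
    refine h3.congr_fun fun m => ?_
    rw [sm_eq, mul_pow, mul_pow]
    ring
  refine ⟨h4.summable, ?_⟩
  rw [h4.tsum_eq, Complex.exp_add, Complex.exp_neg, Complex.exp_neg, Complex.exp_log,
    Complex.exp_log]
  · rw [← mul_inv]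
    congr 1
    have e1 : α + starRingEnd ℂ α = a := by
      rw [Complex.add_conj, hα]
      unfold al
      push_cast
      ring
    have e2 : α * starRingEnd ℂ α = q := by
      rw [Complex.mul_conj, hα, al_normSq h]
    linear_combination (-z) * e1 + z ^ 2 * e2
  · intro h5
    rw [sub_eq_zero] at h5
    rw [← h5, norm_one] at h2
    exact lt_irrefl _ h2
  · intro h5
    rw [sub_eq_zero] at h5
    rw [← h5, norm_one] at h1
    exact lt_irrefl _ h1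

variable {d : ℕ}

/-- the traces -/
noncomputable def abTr (a : Nat.Primes → Fin d → ℝ) (p : Nat.Primes) (m : ℕ) : ℝ :=
  ∑ j, sm (a p j) (p : ℕ) m

theorem sq_le {a : ℝ} {p : Nat.Primes} (h : |a| ≤ 2 * √((p : ℕ) : ℝ)) : a ^ 2 ≤ 4 * ((p : ℕ) : ℝ) := by
  have h1 : (0 : ℝ) ≤ ((p : ℕ) : ℝ) := by positivity
  calc a ^ 2 = |a| ^ 2 := (sq_abs a).symm
    _ ≤ (2 * √((p : ℕ) : ℝ)) ^ 2 := pow_le_pow_left₀ (abs_nonneg _) h 2
    _ = 4 * ((p : ℕ) : ℝ) := by rw [mul_pow, Real.sq_sqrt h1]; norm_num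

theorem abTr_bound (a : Nat.Primes → Fin d → ℝ) {p : Nat.Primes}
    (h : ∀ j, |a p j| ≤ 2 * √((p : ℕ) : ℝ)) (m : ℕ) :
    |abTr a p m| ≤ 2 * d * (((p : ℕ) : ℝ)) ^ ((1 : ℝ) * m / 2) := by
  unfold abTr
  refine (Finset.abs_sum_le_sum_abs _ _).trans
    ((Finset.sum_le_sum fun j _ => sm_bound (sq_le (h j)) m).trans (le_of_eq ?_))
  rw [Finset.sum_const, Finset.card_univ, Fintype.card_fin, nsmul_eq_mul, Real.sqrt_eq_rpow,
    ← Real.rpow_natCast, ← Real.rpow_mul (by positivity)]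
  have e : (1 : ℝ) / 2 * m = 1 * m / 2 := by ring
  rw [e]
  ring

theorem ab_tdata (a : Nat.Primes → Fin d → ℝ) (B : Finset Nat.Primes)
    (h : ∀ p, p ∉ B → ∀ j, |a p j| ≤ 2 * √((p : ℕ) : ℝ)) :
    TData sysQ (tn sysQ (B : Set Nat.Primes) (abTr a) 1) (2 * d) :=
  tdata (S := sysQ) (bad := (B : Set Nat.Primes)) (tr := abTr a) (ω := 1) (by positivity)
    fun p hp m _ => abTr_bound a (h p hp) m

theorem p_cast (p : Nat.Primes) : (2 : ℝ) ≤ ((p : ℕ) : ℝ) := by exact_mod_cast p.2.two_le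

/-- the Euler factor for complex `s` -/
theorem ab_factor (a : Nat.Primes → Fin d → ℝ) {p : Nat.Primes}
    (h : ∀ j, |a p j| ≤ 2 * √((p : ℕ) : ℝ)) {s : ℂ} (hs : 1 / 2 < s.re) :
    Complex.exp (∑' m : ℕ, (abTr a p (m + 1) : ℂ) * ((p : ℕ) : ℂ) ^ (-((m + 1 : ℂ) * s)) / (m + 1)) =
      ∏ j, (1 - a p j * ((p : ℕ) : ℂ) ^ (-s) + ((p : ℕ) : ℂ) * (((p : ℕ) : ℂ) ^ (-s)) ^ 2)⁻¹ := by
  have hp := p_cast p
  have hz : √((p : ℕ) : ℝ) * ‖((p : ℕ) : ℂ) ^ (-s)‖ < 1 := by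
    rw [Pool.Agent.H341R2.norm_prime_cpow, Real.sqrt_eq_rpow, ← Real.rpow_add (by linarith)]
    exact Real.rpow_lt_one_of_one_lt_of_neg (by linarith) (by linarith)
  have h1 : ∀ m : ℕ, (abTr a p (m + 1) : ℂ) * ((p : ℕ) : ℂ) ^ (-((m + 1 : ℂ) * s)) / (m + 1) =
      ∑ j, ((sm (a p j) (p : ℕ) (m + 1) : ℝ) : ℂ) * (((p : ℕ) : ℂ) ^ (-s)) ^ (m + 1) / (m + 1) := by
    intro m
    have e1 : ((p : ℕ) : ℂ) ^ (-((m + 1 : ℂ) * s)) = (((p : ℕ) : ℂ) ^ (-s)) ^ (m + 1) := by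
      rw [← Complex.cpow_nat_mul]
      congr 1
      push_cast
      ring
    rw [e1]
    unfold abTr
    rw [Complex.ofReal_sum, Finset.sum_mul, Finset.sum_div]
  have h2 : ∀ j, Summable (fun m : ℕ => ((sm (a p j) (p : ℕ) (m + 1) : ℝ) : ℂ) *
      (((p : ℕ) : ℂ) ^ (-s)) ^ (m + 1) / (m + 1)) := fun j => (sm_exp (sq_le (h j)) hz).1
  simp only [h1]
  rw [Summable.tsum_finsetSum fun j _ => h2 j, Complex.exp_sum]
  refine Finset.prod_congr rfl fun j _ => ?_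
  rw [(sm_exp (sq_le (h j)) hz).2]
  push_cast
  rfl

/-- the inverse Euler factor at the centre -/
theorem ab_central (a : Nat.Primes → Fin d → ℝ) {p : Nat.Primes}
    (h : ∀ j, |a p j| ≤ 2 * √((p : ℕ) : ℝ)) :
    ff0 sysQ (abTr a) 1 p = ∏ j, ((((p : ℕ) : ℝ) + 1 - a p j) / ((p : ℕ) : ℝ)) := by
  have hp := p_cast p
  have hp0 : (0 : ℝ) < ((p : ℕ) : ℝ) := by linarith
  have h1 := ab_factor a h (s := 1) (by norm_num)
  -- compare with the real series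
  have h2 : ((∑' m : ℕ, abTr a p (m + 1) * ((p : ℕ) : ℝ) ^ (-(((m : ℝ) + 1) * ((1 + 1) / 2))) /
      (m + 1) : ℝ) : ℂ) = ∑' m : ℕ, (abTr a p (m + 1) : ℂ) *
        ((p : ℕ) : ℂ) ^ (-((m + 1 : ℂ) * 1)) / (m + 1) := by
    rw [Complex.ofReal_tsum]
    refine tsum_congr fun m => ?_
    rw [Complex.ofReal_div, Complex.ofReal_mul, Complex.ofReal_cpow hp0.le]
    push_cast
    norm_num
  rw [← h2] at h1
  rw [← Complex.ofReal_exp] at h1
  have h3 : ∀ j, (1 - (a p j : ℂ) * ((p : ℕ) : ℂ) ^ (-(1 : ℂ)) + ((p : ℕ) : ℂ) *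
      (((p : ℕ) : ℂ) ^ (-(1 : ℂ))) ^ 2) = ((((((p : ℕ) : ℝ) + 1 - a p j) / ((p : ℕ) : ℝ) : ℝ)) : ℂ) := by
    intro j
    have hpc : ((p : ℕ) : ℂ) ≠ 0 := by exact_mod_cast p.2.ne_zero
    rw [Complex.cpow_neg_one]
    push_cast
    field_simp
    ring
  simp only [h3] at h1
  rw [Finset.prod_inv_distrib, ← Complex.ofReal_prod, ← Complex.ofReal_inv] at h1
  have h4 := Complex.ofReal_injective h1
  unfold ff0
  rw [Real.exp_neg]
  have h5 : ∑' m : ℕ, abTr a p (m + 1) * (sysQ.N p : ℝ) ^ (-(((m : ℝ) + 1) * ((1 + 1) / 2))) /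
      ((m : ℝ) + 1) = ∑' m : ℕ, abTr a p (m + 1) *
        ((p : ℕ) : ℝ) ^ (-(((m : ℝ) + 1) * ((1 + 1) / 2))) / (m + 1) := rfl
  rw [h5, h4, inv_inv]

end Pool.Agent.W263.EP
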