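import Pool.Agent.W263.EP.MeansB
import Pool.Agent.W263.EP.Ab

/-! Systems of closed points of dimension at least two. -/

set_option autoImplicit false

namespace Pool.Agent.W263.EP

open Filter Topology Set Classical
open Pool.Agent.W263.BSD hiding sc ff
open Pool.Agent.H341R2 (NormSys)

/-- a countable set of points with norms `q`, of dimension `n ≥ 2` -/
structure Pts {Y : Type} (q : Y → ℕ) (n : ℕ) : Prop where
  two_le : ∀ y, 2 ≤ q y
  dim : 2 ≤ n
  sum : ∀ s : ℝ, (n : ℝ) < s → Summable fun y => (q y : ℝ) ^ (-s)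

variable {Y : Type} {q : Y → ℕ} {n : ℕ}

theorem Pts.pos (h : Pts q n) (y : Y) : (0 : ℝ) < q y := by
  have := h.two_le y
  exact_mod_cast (by omega : 0 < q y)

theorem Pts.two (h : Pts q n) (y : Y) : (2 : ℝ) ≤ q y := by exact_mod_cast h.two_le y

/-- `2n - 1` as a real number -/
noncomputable def ee (n : ℕ) : ℝ := ((2 * n - 1 : ℕ) : ℝ)

theorem Pts.ee (h : Pts q n) : EP.ee n = 2 * n - 1 := by
  unfold EP.ee
  have := h.dim
  rw [Nat.cast_sub (by omega)]
  push_cast; ring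

theorem Pts.ndim (h : Pts q n) : (2 : ℝ) ≤ n := by exact_mod_cast h.dim

theorem pow_ee (x : ℝ) (r : ℝ) (hx : 0 < x) : (x ^ (2 * n - 1)) ^ r = x ^ (ee n * r) := by
  unfold ee
  rw [← Real.rpow_natCast, ← Real.rpow_mul hx.le]

/-- the auxiliary system -/
noncomputable def sysY (h : Pts q n) : NormSys where
  X := Y ⊕ Nat.Primes
  N := Sum.elim (fun y => q y ^ (2 * n - 1)) (fun p => (p : ℕ))
  two_le := by
    rintro (y | p)
    · have h1 := h.two_le y
      have h2 := h.dim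
      exact h1.trans (Nat.le_self_pow (by omega) _)
    · exact p.2.two_le
  summable := fun r hr => by
    refine Summable.sum _ ?_ ?_
    · have h1 := h.ndim
      refine (h.sum (-(EP.ee n * r)) ?_).congr fun y => ?_
      · rw [h.ee]; nlinarith
      · simp only [Function.comp, Sum.elim_inl, Nat.cast_pow, neg_neg]
        rw [pow_ee _ _ (h.pos y)]
    · exact (Pool.Agent.H341R2.summable_prime_rpow hr)
  log_bdd := by
    obtain ⟨C, hC⟩ := Pool.Agent.H341R2.lam_bounded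
    have hn := h.ndim
    have hS : Summable fun y => (q y : ℝ) ^ (-EP.ee n) := by
      refine h.sum (EP.ee n) ?_
      rw [h.ee]; linarith
    refine ⟨(∑' y, (q y : ℝ) ^ (-EP.ee n)) + C, ?_⟩
    filter_upwards [hC, self_mem_nhdsWithin] with ε h1 h2
    have hε : (0 : ℝ) < ε := h2
    have hee : 0 < EP.ee n := by rw [h.ee]; linarith
    have e1 : Summable fun y : Y => (q y : ℝ) ^ (-(EP.ee n * (1 + ε))) := by
      refine h.sum _ ?_
      rw [h.ee]; nlinarith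
    have e2 : ∀ y : Y, (((q y ^ (2 * n - 1) : ℕ)) : ℝ) ^ (-(1 + ε)) =
        (q y : ℝ) ^ (-(EP.ee n * (1 + ε))) := by
      intro y
      rw [Nat.cast_pow, pow_ee _ _ (h.pos y)]
      congr 1; ring
    have s1 : Summable ((fun x : Y ⊕ Nat.Primes => ((Sum.elim (fun y => q y ^ (2 * n - 1))
        (fun p : Nat.Primes => (p : ℕ)) x : ℕ) : ℝ) ^ (-(1 + ε))) ∘ Sum.inl) :=
      e1.congr fun y => (e2 y).symm
    have s2 : Summable ((fun x : Y ⊕ Nat.Primes => ((Sum.elim (fun y => q y ^ (2 * n - 1))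
        (fun p : Nat.Primes => (p : ℕ)) x : ℕ) : ℝ) ^ (-(1 + ε))) ∘ Sum.inr) :=
      Pool.Agent.H341R2.summable_prime_rpow (by linarith)
    rw [Summable.tsum_sum s1 s2]
    simp only [Sum.elim_inl, Sum.elim_inr, e2]
    have h3 : 0 ≤ ∑' y : Y, (q y : ℝ) ^ (-(EP.ee n * (1 + ε))) := tsum_nonneg fun y => by positivity
    have h4 : ∑' y : Y, (q y : ℝ) ^ (-(EP.ee n * (1 + ε))) ≤ ∑' y, (q y : ℝ) ^ (-EP.ee n) := by
      refine e1.tsum_le_tsum (fun y => ?_) hS
      refine Real.rpow_le_rpow_of_exponent_le (by linarith [h.two y]) ?_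
      nlinarith
    have h5 := abs_le.mp h1
    have h6 : Pool.Agent.H341R2.lam ε = ∑' p : Nat.Primes, ((p : ℕ) : ℝ) ^ (-(1 + ε)) := rfl
    rw [h6] at h5
    rw [abs_le]
    constructor <;> linarith

variable {d : ℕ} (a : Y → Fin d → ℝ)

/-- the traces -/
noncomputable def trY (q : Y → ℕ) (n : ℕ) : Y ⊕ Nat.Primes → ℕ → ℝ :=
  Sum.elim (fun y m => (∑ j, sm (a y j) (q y) m) * (q y : ℝ) ^ (-((n : ℝ) * m))) (fun _ _ => 0)

/-- the auxiliary points -/
def badY (Y : Type) : Set (Y ⊕ Nat.Primes) := Set.range Sum.inr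

theorem inl_good (y : Y) : (Sum.inl y : Y ⊕ Nat.Primes) ∉ badY Y := by
  rintro ⟨p, hp⟩
  exact absurd hp (by simp)

theorem sqY {a q : ℝ} (hq : 0 ≤ q) (h : |a| ≤ 2 * √q) : a ^ 2 ≤ 4 * q := by
  calc a ^ 2 = |a| ^ 2 := (sq_abs a).symm
    _ ≤ (2 * √q) ^ 2 := pow_le_pow_left₀ (abs_nonneg _) h 2
    _ = 4 * q := by rw [mul_pow, Real.sq_sqrt hq]; norm_num

variable {a}

theorem tdataY (h : Pts q n) (ha : ∀ y j, |a y j| ≤ 2 * √(q y : ℝ)) :
    TData (sysY h) (tn (sysY h) (badY Y) (trY a q n) (-1)) (2 * d) := by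
  refine tdata (by positivity) ?_
  rintro (y | p) hy m hm
  · show |(∑ j, sm (a y j) (q y) m) * (q y : ℝ) ^ (-((n : ℝ) * m))| ≤
      2 * d * (((q y ^ (2 * n - 1) : ℕ)) : ℝ) ^ ((-1 : ℝ) * m / 2)
    have hq := h.pos y
    rw [abs_mul, abs_of_pos (Real.rpow_pos_of_pos hq _)]
    have h1 : |∑ j, sm (a y j) (q y) m| ≤ 2 * d * (q y : ℝ) ^ ((m : ℝ) / 2) := by
      refine (Finset.abs_sum_le_sum_abs _ _).trans
        ((Finset.sum_le_sum fun j _ => sm_bound (sqY hq.le (ha y j)) m).trans (le_of_eq ?_))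
      rw [Finset.sum_const, Finset.card_univ, Fintype.card_fin, nsmul_eq_mul, Real.sqrt_eq_rpow,
        ← Real.rpow_natCast, ← Real.rpow_mul hq.le]
      have e : (1 : ℝ) / 2 * m = m / 2 := by ring
      rw [e]
      ring
    calc |∑ j, sm (a y j) (q y) m| * (q y : ℝ) ^ (-((n : ℝ) * m)) ≤
        (2 * d * (q y : ℝ) ^ ((m : ℝ) / 2)) * (q y : ℝ) ^ (-((n : ℝ) * m)) :=
          mul_le_mul_of_nonneg_right h1 (by positivity)
      _ = _ := by
          rw [mul_assoc, ← Real.rpow_add hq, Nat.cast_pow, pow_ee _ _ hq, h.ee]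
          congr 2
          ring
  · exact absurd ⟨p, rfl⟩ hy

/-- the Euler product over the points -/
noncomputable def LY (q : Y → ℕ) (a : Y → Fin d → ℝ) (s : ℂ) : ℂ :=
  ∏' y, ∏ j, (1 - a y j * ((q y : ℕ) : ℂ) ^ (-s) + ((q y : ℕ) : ℂ) * (((q y : ℕ) : ℂ) ^ (-s)) ^ 2)⁻¹

theorem LY_eq (h : Pts q n) (ha : ∀ y j, |a y j| ≤ 2 * √(q y : ℝ)) {s : ℂ} (hs : 1 / 2 < s.re) :
    LF (sysY h) (badY Y) (trY a q n) s = LY q a (n + ee n * s) := by
  unfold LF LY
  have hn := h.ndim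
  have hinj : Function.Injective (Sum.inl : Y → Y ⊕ Nat.Primes) := Sum.inl_injective
  refine (hinj.tprod_eq (f := fun x : Y ⊕ Nat.Primes => if x ∈ badY Y then (1 : ℂ) else
    Complex.exp (∑' m : ℕ, (trY a q n x (m + 1) : ℂ) *
      (((sysY h).N x : ℕ) : ℂ) ^ (-((m + 1 : ℂ) * s)) / (m + 1))) ?_).symm.trans ?_
  · intro x hx
    rcases x with y | p
    · exact ⟨y, rfl⟩
    · exfalso
      apply hx
      simp only []
      rw [if_pos ⟨p, rfl⟩]
  · refine tprod_congr fun y => ?_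
    rw [if_neg (inl_good y)]
    have hq := h.pos y
    have hqc : ((q y : ℕ) : ℂ) ≠ 0 := by exact_mod_cast hq.ne'
    set z : ℂ := ((q y : ℕ) : ℂ) ^ (-((n : ℂ) + ee n * s)) with hz
    have hre : (-((n : ℂ) + ee n * s)).re = -(n + ee n * s.re) := by
      simp [Complex.add_re, Complex.mul_re]
    have hz1 : √(q y : ℝ) * ‖z‖ < 1 := by
      rw [hz, Complex.norm_natCast_cpow_of_pos (by have := h.two_le y; omega), hre,
        Real.sqrt_eq_rpow, ← Real.rpow_add hq]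
      refine Real.rpow_lt_one_of_one_lt_of_neg (by linarith [h.two y]) ?_
      rw [h.ee]; nlinarith
    have h1 : ∀ m : ℕ, (trY a q n (Sum.inl y) (m + 1) : ℂ) *
        (((sysY h).N (Sum.inl y) : ℕ) : ℂ) ^ (-((m + 1 : ℂ) * s)) / (m + 1) =
        ∑ j, ((sm (a y j) (q y) (m + 1) : ℝ) : ℂ) * z ^ (m + 1) / (m + 1) := by
      intro m
      have e1 : (((q y : ℝ) ^ (-((n : ℝ) * ((m + 1 : ℕ) : ℝ))) : ℝ) : ℂ) *
          (((q y ^ (2 * n - 1) : ℕ) : ℕ) : ℂ) ^ (-((m + 1 : ℂ) * s)) = z ^ (m + 1) := by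
        rw [hz, ← Complex.cpow_nat_mul, Complex.ofReal_cpow hq.le, Nat.cast_pow]
        have e2 : (((q y : ℕ) : ℂ) ^ (2 * n - 1)) ^ (-((m + 1 : ℂ) * s)) =
            ((q y : ℕ) : ℂ) ^ (((2 * n - 1 : ℕ) : ℂ) * (-((m + 1 : ℂ) * s))) := by
          have := Complex.natCast_cpow_natCast_mul (q y) (2 * n - 1) (-((m + 1 : ℂ) * s))
          exact this.symm
        rw [e2]
        push_cast
        rw [← Complex.cpow_add _ _ hqc]
        congr 1
        unfold ee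
        push_cast
        ring
      show (((∑ j, sm (a y j) (q y) (m + 1)) * (q y : ℝ) ^ (-((n : ℝ) * ((m + 1 : ℕ) : ℝ))) : ℝ) : ℂ) *
        (((q y ^ (2 * n - 1) : ℕ) : ℕ) : ℂ) ^ (-((m + 1 : ℂ) * s)) / (m + 1) = _
      rw [Complex.ofReal_mul, mul_assoc, e1, Complex.ofReal_sum, Finset.sum_mul, Finset.sum_div]
    have h2 : ∀ j, Summable (fun m : ℕ => ((sm (a y j) (q y) (m + 1) : ℝ) : ℂ) *
        z ^ (m + 1) / (m + 1)) := fun j => (sm_exp (sqY hq.le (ha y j)) hz1).1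
    simp only [h1]
    rw [Summable.tsum_finsetSum fun j _ => h2 j, Complex.exp_sum]
    refine Finset.prod_congr rfl fun j _ => ?_
    rw [(sm_exp (sqY hq.le (ha y j)) hz1).2]
    push_cast
    rfl

end Pool.Agent.W263.EP
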