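import Pool.Agent.W263.EP.ThmOrder

/-! Finitely many arbitrary Euler factors. -/

set_option autoImplicit false

namespace Pool.Agent.W263.EP

open MeasureTheory Filter Topology Set Classical
open Pool.Agent.W263.BSD
open Pool.Agent.H341R2 (NormSys)

variable (S : NormSys) (Bs : Finset S.X) (B : S.X → Polynomial ℂ) (tr : S.X → ℕ → ℝ) (ω : ℝ)

/-- the product of the bad polynomials -/
noncomputable def BB (s : ℂ) : ℂ := ∏ x ∈ Bs, (B x).eval (((S.N x : ℕ) : ℂ) ^ (-s))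

/-- the Euler product with bad factors -/
noncomputable def LFB (s : ℂ) : ℂ :=
  ∏' x : S.X, if x ∈ Bs then ((B x).eval (((S.N x : ℕ) : ℂ) ^ (-s)))⁻¹ else
    Complex.exp (∑' m : ℕ, (tr x (m + 1) : ℂ) * ((S.N x : ℕ) : ℂ) ^ (-((m + 1 : ℂ) * s)) / (m + 1))

def IsContB (F : ℂ → ℂ) : Prop :=
  (∀ s : ℝ, (ω + 1) / 2 < s → AnalyticAt ℂ F s) ∧
    ∀ s : ℝ, (ω + 2) / 2 < s → F s = LFB S Bs B tr s

def IsFullB (F : ℂ → ℂ) : Prop :=
  DifferentiableOn ℂ F {s : ℂ | (ω + 1) / 2 < s.re} ∧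
    (∀ s : ℂ, (ω + 1) / 2 < s.re → F s ≠ 0) ∧
    ∀ s : ℂ, (ω + 2) / 2 < s.re → F s = LFB S Bs B tr s

variable {S Bs B tr ω} {D : ℝ} {F : ℂ → ℂ} {r : ℕ}

theorem BB_diff : Differentiable ℂ (BB S Bs B) := by
  unfold BB
  refine Differentiable.fun_finsetProd fun x _ => ?_
  have h1 : Differentiable ℂ fun s : ℂ => ((S.N x : ℕ) : ℂ) ^ (-s) :=
    Differentiable.const_cpow (by fun_prop) (Or.inl (S.N_ne x))
  exact (B x).differentiable.comp h1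

theorem LF_hasProd (E : TData S (tn S (Bs : Set S.X) tr ω) D) {s : ℂ} (hs : (ω + 2) / 2 < s.re) :
    HasProd (fun x : S.X => if x ∈ (Bs : Set S.X) then 1 else
      Complex.exp (∑' m : ℕ, (tr x (m + 1) : ℂ) * ((S.N x : ℕ) : ℂ) ^ (-((m + 1 : ℂ) * s)) /
        (m + 1))) (LF S (Bs : Set S.X) tr s) := by
  have hre : 1 / 2 < (s - ((ω : ℂ) + 1) / 2).re := by
    have h3 : (s - ((ω : ℂ) + 1) / 2).re = s.re - (ω + 1) / 2 := by
      rw [Complex.sub_re]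
      congr 1
      have : ((ω : ℂ) + 1) / 2 = (((ω + 1) / 2 : ℝ) : ℂ) := by push_cast; ring
      rw [this, Complex.ofReal_re]
    rw [h3]; linarith
  have h1 := E.hasProd hre
  have h2 : ((ω : ℂ) + 1) / 2 + (s - ((ω : ℂ) + 1) / 2) = s := by ring
  have h4 := LF_eq E hre
  rw [h2] at h4
  rw [← h4] at h1
  refine h1.congr_fun fun x => ?_
  split_ifs with hx
  · have : ∀ m : ℕ, ((tn S (Bs : Set S.X) tr ω x (m + 1) : ℝ) : ℂ) / (m + 1) *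
        xx S x (s - ((ω : ℂ) + 1) / 2) ^ (m + 1) = 0 := by
      intro m
      unfold tn
      rw [if_pos hx]
      simp
    simp only [this, tsum_zero, Complex.exp_zero]
  · congr 1
    refine tsum_congr fun m => ?_
    unfold tn xx
    rw [if_neg hx]
    have h0 := S.N_ne x
    have e1 : ((S.N x : ℕ) : ℂ) ^ (-((m + 1 : ℂ) * s)) =
        (((S.N x : ℝ) ^ (-(((m + 1 : ℕ) : ℝ) * ((ω + 1) / 2))) : ℝ) : ℂ) *
          (((S.N x : ℕ) : ℂ) ^ (-(s - ((ω : ℂ) + 1) / 2))) ^ (m + 1) := by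
      rw [Complex.ofReal_cpow (S.N_pos x).le, ← Complex.cpow_nat_mul, Complex.ofReal_natCast,
        ← Complex.cpow_add _ _ h0]
      congr 1
      push_cast
      ring
    rw [e1]
    push_cast
    ring

theorem LFB_eq (E : TData S (tn S (Bs : Set S.X) tr ω) D) {s : ℂ} (hs : (ω + 2) / 2 < s.re) :
    LFB S Bs B tr s = LF S (Bs : Set S.X) tr s * (BB S Bs B s)⁻¹ := by
  have h1 := LF_hasProd E hs
  have h2 : HasProd (fun x : S.X => if x ∈ Bs then ((B x).eval (((S.N x : ℕ) : ℂ) ^ (-s)))⁻¹ else 1)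
      (∏ x ∈ Bs, if x ∈ Bs then ((B x).eval (((S.N x : ℕ) : ℂ) ^ (-s)))⁻¹ else 1) :=
    hasProd_prod_of_ne_finset_one fun x hx => if_neg hx
  have h3 : (∏ x ∈ Bs, if x ∈ Bs then ((B x).eval (((S.N x : ℕ) : ℂ) ^ (-s)))⁻¹ else 1) =
      (BB S Bs B s)⁻¹ := by
    unfold BB
    rw [← Finset.prod_inv_distrib]
    exact Finset.prod_congr rfl fun x hx => if_pos hx
  rw [h3] at h2
  rw [← (h1.mul h2).tprod_eq]
  unfold LFB
  refine tprod_congr fun x => ?_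
  by_cases hx : x ∈ Bs
  · have hx' : x ∈ (Bs : Set S.X) := hx
    simp only [hx, hx', if_true, one_mul]
  · have hx' : x ∉ (Bs : Set S.X) := hx
    simp only [hx, hx', if_false, mul_one]

theorem BB_ne (hB : ∀ x ∈ Bs, ∀ s : ℂ, (ω + 1) / 2 ≤ s.re →
    (B x).eval (((S.N x : ℕ) : ℂ) ^ (-s)) ≠ 0) {s : ℂ} (hs : (ω + 1) / 2 ≤ s.re) :
    BB S Bs B s ≠ 0 := Finset.prod_ne_zero_iff.mpr fun x hx => hB x hx s hs

theorem IsContB.isCont (E : TData S (tn S (Bs : Set S.X) tr ω) D)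
    (hB : ∀ x ∈ Bs, ∀ s : ℂ, (ω + 1) / 2 ≤ s.re → (B x).eval (((S.N x : ℕ) : ℂ) ^ (-s)) ≠ 0)
    (hF : IsContB S Bs B tr ω F) :
    IsCont S (Bs : Set S.X) tr ω (fun s => F s * BB S Bs B s) := by
  refine ⟨fun s hs => (hF.1 s hs).mul (BB_diff.analyticAt _), fun s hs => ?_⟩
  simp only []
  rw [hF.2 s hs, LFB_eq E (by simpa using hs), mul_assoc, inv_mul_cancel₀, mul_one]
  exact BB_ne hB (by simp only [Complex.ofReal_re]; linarith)

theorem IsFull.isFullB (E : TData S (tn S (Bs : Set S.X) tr ω) D)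
    (hB : ∀ x ∈ Bs, ∀ s : ℂ, (ω + 1) / 2 ≤ s.re → (B x).eval (((S.N x : ℕ) : ℂ) ^ (-s)) ≠ 0)
    (hF : IsFull S (Bs : Set S.X) tr ω F) :
    IsFullB S Bs B tr ω (fun s => F s * (BB S Bs B s)⁻¹) := by
  refine ⟨fun s hs => ?_, fun s hs => ?_, fun s hs => ?_⟩
  · have hs' : (ω + 1) / 2 < s.re := hs
    exact (hF.1 s hs).mul ((BB_diff.differentiableAt.inv (BB_ne hB hs'.le)).differentiableWithinAt)
  · exact mul_ne_zero (hF.2.1 s hs) (inv_ne_zero (BB_ne hB hs.le))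
  · simp only []
    rw [hF.2.2 s hs, LFB_eq E hs]

theorem IsFullB.isContB (h : IsFullB S Bs B tr ω F) : IsContB S Bs B tr ω F := by
  refine ⟨fun s hs => ?_, fun s hs => h.2.2 s (by simpa using hs)⟩
  refine Complex.analyticAt_iff_eventually_differentiableAt.mpr ?_
  filter_upwards [(isOpen_half ((ω + 1) / 2)).mem_nhds
    (show (ω + 1) / 2 < (s : ℂ).re by simpa using hs)] with z hz
  exact h.1.differentiableAt ((isOpen_half _).mem_nhds hz)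

theorem OrdLike.mul {c : ℝ} {H : ℂ → ℂ} (hF : OrdLike c F r) (hc : ContinuousAt H c)
    (h0 : H c ≠ 0) : OrdLike c (fun s => F s * H s) r := by
  obtain ⟨α, β, hα, h⟩ := hF
  have hn : 0 < ‖H c‖ := norm_pos_iff.mpr h0
  have h1 : Tendsto (fun s : ℝ => ‖H s‖) (𝓝[>] c) (𝓝 ‖H c‖) := by
    have h2 : ContinuousAt (fun s : ℝ => H s) c :=
      ContinuousAt.comp (f := fun s : ℝ => (s : ℂ)) hc Complex.continuous_ofReal.continuousAt
    exact tendsto_nhdsWithin_of_tendsto_nhds h2.norm.tendsto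
  refine ⟨α * (‖H c‖ / 2), |β| * (2 * ‖H c‖), by positivity, ?_⟩
  filter_upwards [h, h1.eventually (lt_mem_nhds (show ‖H c‖ / 2 < ‖H c‖ by linarith)),
    h1.eventually (gt_mem_nhds (show ‖H c‖ < 2 * ‖H c‖ by linarith)), self_mem_nhdsWithin]
    with s h3 h4 h5 h6
  have hs : c < s := h6
  have hsr : 0 < (s - c) ^ r := pow_pos (by linarith) r
  rw [norm_mul]
  constructor
  · calc α * (‖H c‖ / 2) * (s - c) ^ r = (α * (s - c) ^ r) * (‖H c‖ / 2) := by ring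
      _ ≤ ‖F s‖ * ‖H s‖ := mul_le_mul h3.1 h4.le (by positivity) (norm_nonneg _)
  · calc ‖F s‖ * ‖H s‖ ≤ (|β| * (s - c) ^ r) * (2 * ‖H c‖) := by
          refine mul_le_mul (h3.2.trans ?_) h5.le (norm_nonneg _) (by positivity)
          exact mul_le_mul_of_nonneg_right (le_abs_self β) hsr.le
      _ = _ := by ring

theorem centre_re : ((((ω + 1) / 2 : ℝ) : ℂ)).re = (ω + 1) / 2 := Complex.ofReal_re _

/-- **The one-sided criterion for the exact order of magnitude,** with arbitrary bad factors. -/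
theorem order_tfaeB (E : TData S (tn S (Bs : Set S.X) tr ω) D)
    (hB : ∀ x ∈ Bs, ∀ s : ℂ, (ω + 1) / 2 ≤ s.re → (B x).eval (((S.N x : ℕ) : ℂ) ^ (-s)) ≠ 0)
    (r : ℕ) :
    List.TFAE [
      ∃ c C : ℝ, 0 < c ∧ ∀ᶠ x : ℝ in atTop, c * (Real.log x) ^ r ≤ PP S (Bs : Set S.X) tr ω x ∧
        PP S (Bs : Set S.X) tr ω x ≤ C * (Real.log x) ^ r,
      (∃ F : ℂ → ℂ, IsContB S Bs B tr ω F ∧ OrdLike ((ω + 1) / 2) F r) ∧
        ∃ K : ℝ, ∀ᶠ x : ℝ in atTop, ∀ y, x ≤ y → y ≤ x ^ 2 →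
          PP S (Bs : Set S.X) tr ω y ≤ K * PP S (Bs : Set S.X) tr ω x,
      (∃ F : ℂ → ℂ, IsContB S Bs B tr ω F ∧ OrdLike ((ω + 1) / 2) F r ∧
        ∀ s : ℝ, (ω + 1) / 2 < s → F s ≠ 0) ∧
        ∃ K : ℝ, ∀ᶠ x : ℝ in atTop, ∀ y, x ≤ y → y ≤ x ^ 2 →
          PP S (Bs : Set S.X) tr ω x ≤ K * PP S (Bs : Set S.X) tr ω y,
      (∃ F : ℂ → ℂ, IsFullB S Bs B tr ω F ∧ OrdLike ((ω + 1) / 2) F r) ∧
        ∃ K : ℝ, ∀ᶠ x : ℝ in atTop, ∀ y, x ≤ y → y ≤ x ^ 2 →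
          PP S (Bs : Set S.X) tr ω y ≤ K * PP S (Bs : Set S.X) tr ω x ∧
          PP S (Bs : Set S.X) tr ω x ≤ K * PP S (Bs : Set S.X) tr ω y] := by
  have hT := order_tfae E r
  have hBc : BB S Bs B (((ω + 1) / 2 : ℝ) : ℂ) ≠ 0 := BB_ne hB (by rw [Complex.ofReal_re])
  have hcont : ContinuousAt (BB S Bs B) (((ω + 1) / 2 : ℝ) : ℂ) := BB_diff.continuous.continuousAt
  tfae_have 1 → 4 := by
    intro h
    obtain ⟨⟨F, hF, hO⟩, hK⟩ := (hT.out 0 3).mp h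
    refine ⟨⟨_, hF.isFullB E hB, ?_⟩, hK⟩
    exact hO.mul (hcont.inv₀ hBc) (inv_ne_zero hBc)
  tfae_have 4 → 2 := by
    rintro ⟨⟨F, hF, hO⟩, K, hK⟩
    exact ⟨⟨F, hF.isContB, hO⟩, K, hK.mono fun x hx y h1 h2 => (hx y h1 h2).1⟩
  tfae_have 4 → 3 := by
    rintro ⟨⟨F, hF, hO⟩, K, hK⟩
    exact ⟨⟨F, hF.isContB, hO, fun s hs => hF.2.1 s (by simpa using hs)⟩, K,
      hK.mono fun x hx y h1 h2 => (hx y h1 h2).2⟩
  tfae_have 2 → 1 := by
    rintro ⟨⟨F, hF, hO⟩, hK⟩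
    have key := hT.out 0 1
    exact key.mpr ⟨⟨_, hF.isCont E hB, hO.mul hcont hBc⟩, hK⟩
  tfae_have 3 → 1 := by
    rintro ⟨⟨F, hF, hO, hne⟩, hK⟩
    have key := hT.out 0 2
    refine key.mpr ⟨⟨_, hF.isCont E hB, hO.mul hcont hBc, fun s hs => ?_⟩, hK⟩
    exact mul_ne_zero (hne s hs) (BB_ne hB (by simp only [Complex.ofReal_re]; linarith))
  tfae_finish

end Pool.Agent.W263.EP
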