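import Pool.Agent.W263.EP.ThmLead

/-! Brackets for the leading coefficient with bad factors, and the effect of real zeros. -/

set_option autoImplicit false

namespace Pool.Agent.W263.EP

open MeasureTheory Filter Topology Set Classical
open Pool.Agent.W263.BSD hiding sc ff
open Pool.Agent.H341R2 (NormSys)

variable {m : ℕ} {a : ℝ → ℝ} {Φ G : ℂ → ℂ} {c0 : ℝ}

/-- one-sided bounds `a u ≤ exp (δ u)` give convergence to the right of `δ` -/
theorem DataU.conv_of_upper_at (D : DataU m a Φ G c0) {δ : ℝ} (hδ : 0 < δ)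
    (h : ∀ᶠ u in atTop, a u ≤ Real.exp (δ * u)) : ∀ w > δ, LInt a w := by
  obtain ⟨U, hU⟩ := eventually_atTop.mp h
  obtain ⟨B, hB⟩ := D.loc U
  set κ : ℝ → ℝ := fun u => ex δ u + |B| * ex 0 u with hκ
  have hκm : Measurable κ := (ex_meas _).add ((ex_meas 0).const_mul _)
  have hκi : ∀ w' > δ, LInt κ w' := fun w' hw' =>
    (ex_LInt hw').add ((ex_LInt (by linarith)).const_mul _)
  refine D.core_upper hδ.le hκm hκi (fun u hu => ?_)
  rw [hκ]
  simp only [ex, zero_mul, Real.exp_zero, mul_one]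
  have hB0 := abs_nonneg B
  rcases le_or_gt U u with h2 | h2
  · have h3 := hU u h2
    linarith
  · have h3 := (abs_le.mp (hB u hu h2.le)).2
    have := Real.exp_pos (δ * u)
    have := le_abs_self B
    linarith

/-- a real zero to the right of `δ` makes `a` large -/
theorem DataU.large_of_zero (D : DataU m a Φ G c0) {δ w : ℝ} (hδ : 0 < δ) (hw : δ < w)
    (h0 : Φ w = 0) : ∃ᶠ u in atTop, Real.exp (δ * u) < a u := by
  intro hcon
  have h1 : ∀ᶠ u in atTop, a u ≤ Real.exp (δ * u) := hcon.mono fun u hu => not_lt.mp hu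
  have h2 := D.real_eq hδ.le (D.conv_of_upper_at hδ h1) hw
  rw [h0] at h2
  have h3 : Real.exp ((G w).re - w ^ m * lap a w) = 0 := by exact_mod_cast h2.symm
  exact (Real.exp_pos _).ne' h3

section Gen

variable {S : NormSys} {Bs : Finset S.X} {B : S.X → Polynomial ℂ} {tr : S.X → ℕ → ℝ} {ω : ℝ}
  {D : ℝ} {F : ℂ → ℂ} {r : ℕ} {Λ : ℝ}

/-- the bad factors at the centre -/
noncomputable def bc (S : NormSys) (Bs : Finset S.X) (B : S.X → Polynomial ℂ) (ω : ℝ) : ℝ :=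
  ‖BB S Bs B (((ω + 1) / 2 : ℝ) : ℂ)‖

theorem bc_pos (hB : ∀ x ∈ Bs, ∀ s : ℂ, (ω + 1) / 2 ≤ s.re →
    (B x).eval (((S.N x : ℕ) : ℂ) ^ (-s)) ≠ 0) : 0 < bc S Bs B ω :=
  norm_pos_iff.mpr (BB_ne hB (by rw [Complex.ofReal_re]))

theorem lead_bad
    (h : Tendsto (fun s : ℝ => ‖F s‖ / (s - (ω + 1) / 2) ^ r) (𝓝[>] ((ω + 1) / 2)) (𝓝 Λ)) :
    Tendsto (fun s : ℝ => ‖F s * BB S Bs B s‖ / (s - (ω + 1) / 2) ^ r) (𝓝[>] ((ω + 1) / 2))
      (𝓝 (Λ * bc S Bs B ω)) := by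
  have h2 : ContinuousAt (fun s : ℝ => BB S Bs B s) ((ω + 1) / 2) :=
    ContinuousAt.comp (f := fun s : ℝ => (s : ℂ)) BB_diff.continuous.continuousAt
      Complex.continuous_ofReal.continuousAt
  have h3 : Tendsto (fun s : ℝ => ‖BB S Bs B s‖) (𝓝[>] ((ω + 1) / 2)) (𝓝 (bc S Bs B ω)) :=
    tendsto_nhdsWithin_of_tendsto_nhds h2.norm.tendsto
  refine (h.mul h3).congr fun s => ?_
  rw [norm_mul]
  ring

/-- **Upper bracket.** -/
theorem bracket_upB (E : TData S (tn S (Bs : Set S.X) tr ω) D)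
    (hB : ∀ x ∈ Bs, ∀ s : ℂ, (ω + 1) / 2 ≤ s.re → (B x).eval (((S.N x : ℕ) : ℂ) ^ (-s)) ≠ 0)
    (hF : IsContB S Bs B tr ω F) (hΛ : 0 < Λ)
    (h : Tendsto (fun s : ℝ => ‖F s‖ / (s - (ω + 1) / 2) ^ r) (𝓝[>] ((ω + 1) / 2)) (𝓝 Λ))
    {ε : ℝ} (hε : 0 < ε) : ∃ᶠ x : ℝ in atTop,
      (Real.exp (r * Real.eulerMascheroniConstant) / Λ - ε) * (Real.log x) ^ r <
        bc S Bs B ω * PS S (Bs : Set S.X) tr ω x := by
  have hb := bc_pos hB
  have h1 := bracket_up E (hF.isCont E hB) (mul_pos hΛ hb) (lead_bad (B := B) (Bs := Bs) h)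
    (div_pos hε hb)
  refine h1.mono fun x hx => ?_
  have h2 := mul_lt_mul_of_pos_left hx hb
  refine lt_of_eq_of_lt ?_ h2
  field_simp

/-- **Lower bracket,** without real zeros to the right of the centre. -/
theorem bracket_downB (E : TData S (tn S (Bs : Set S.X) tr ω) D)
    (hB : ∀ x ∈ Bs, ∀ s : ℂ, (ω + 1) / 2 ≤ s.re → (B x).eval (((S.N x : ℕ) : ℂ) ^ (-s)) ≠ 0)
    (hF : IsContB S Bs B tr ω F) (hΛ : 0 < Λ)
    (h : Tendsto (fun s : ℝ => ‖F s‖ / (s - (ω + 1) / 2) ^ r) (𝓝[>] ((ω + 1) / 2)) (𝓝 Λ))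
    (hne : ∀ s : ℝ, (ω + 1) / 2 < s → F s ≠ 0)
    {ε : ℝ} (hε : 0 < ε) : ∃ᶠ x : ℝ in atTop,
      bc S Bs B ω * PS S (Bs : Set S.X) tr ω x <
        (Real.exp (r * Real.eulerMascheroniConstant) / Λ + ε) * (Real.log x) ^ r := by
  have hb := bc_pos hB
  have h1 := bracket_down E (hF.isCont E hB) (mul_pos hΛ hb) (lead_bad (B := B) (Bs := Bs) h)
    (fun s hs => mul_ne_zero (hne s hs) (BB_ne hB (by simp only [Complex.ofReal_re]; linarith)))
    (div_pos hε hb)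
  refine h1.mono fun x hx => ?_
  have h2 := mul_lt_mul_of_pos_left hx hb
  refine lt_of_lt_of_eq h2 ?_
  field_simp

/-- **The effect of a real zero.** -/
theorem real_zeroB (E : TData S (tn S (Bs : Set S.X) tr ω) D)
    (hB : ∀ x ∈ Bs, ∀ s : ℂ, (ω + 1) / 2 ≤ s.re → (B x).eval (((S.N x : ℕ) : ℂ) ^ (-s)) ≠ 0)
    (hF : IsContB S Bs B tr ω F) {β δ : ℝ} (h0 : F β = 0) (hδ : 0 < δ)
    (hβ : δ < β - (ω + 1) / 2) : ∃ᶠ x : ℝ in atTop,
      Real.exp (x ^ δ) < PP S (Bs : Set S.X) tr ω x := by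
  have P := (hF.isCont E hB).dataU E
  have h1 : ((fun w : ℂ => F (((ω : ℂ) + 1) / 2 + w) * BB S Bs B (((ω : ℂ) + 1) / 2 + w))
      ((β - (ω + 1) / 2 : ℝ) : ℂ)) = 0 := by
    have : ((ω : ℂ) + 1) / 2 + ((β - (ω + 1) / 2 : ℝ) : ℂ) = (β : ℂ) := by push_cast; ring
    simp only [this, h0, zero_mul]
  have h2 := P.large_of_zero hδ hβ h1
  refine (Real.tendsto_exp_atTop.frequently
    (p := fun x => Real.exp (x ^ δ) < PP S (Bs : Set S.X) tr ω x) ?_)
  refine h2.mono fun u hu => ?_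
  rw [← log_PP] at hu
  rw [← Real.exp_mul, mul_comm u δ]
  exact (Real.lt_log_iff_exp_lt (PP_pos _)).mp hu

end Gen

/-- the leading coefficient of a function which is analytic at `c` -/
theorem lead_limit_at {F : ℂ → ℂ} {c : ℝ} (hF : AnalyticAt ℂ F c) {r : ℕ}
    (hr : analyticOrderAt F c = r) :
    0 < ‖iteratedDeriv r F c‖ / (r.factorial : ℝ) ∧
      Tendsto (fun s : ℝ => ‖F s‖ / (s - c) ^ r) (𝓝[>] c)
        (𝓝 (‖iteratedDeriv r F c‖ / (r.factorial : ℝ))) := by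
  have h1 := (natCast_le_analyticOrderAt_iff_iteratedDeriv_eq_zero hF (n := r)).mp hr.ge
  have h2 : iteratedDeriv r F c ≠ 0 := by
    intro h0
    have h3 : ((r + 1 : ℕ) : ℕ∞) ≤ analyticOrderAt F c := by
      rw [natCast_le_analyticOrderAt_iff_iteratedDeriv_eq_zero hF]
      intro i hi
      rcases Nat.lt_succ_iff_lt_or_eq.mp hi with h | h
      · exact h1 i h
      · rw [h]; exact h0
    rw [hr] at h3
    have : r + 1 ≤ r := by exact_mod_cast h3
    omega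
  refine ⟨div_pos (norm_pos_iff.mpr h2) (by positivity), ?_⟩
  have hfa : AnalyticAt ℂ (fun w : ℂ => F (c + w)) 0 := by
    refine AnalyticAt.comp (f := fun w : ℂ => (c : ℂ) + w) ?_ (by fun_prop)
    rw [add_zero]
    exact hF
  obtain ⟨G, hG, hG'⟩ := hfa.exists_eq_sum_add_pow_mul (r + 1)
  have h4 : ∀ i, iteratedDeriv i (fun w : ℂ => F (c + w)) 0 = iteratedDeriv i F c := by
    intro i
    rw [iteratedDeriv_comp_const_add]
    simp
  have h5 : ∀ w : ℂ, F (c + w) = w ^ r * (iteratedDeriv r F c / (r.factorial : ℂ) + w * G w) := by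
    intro w
    rw [hG' w, Finset.sum_range_succ, Finset.sum_eq_zero, h4, zero_add, smul_eq_mul, smul_eq_mul]
    · ring
    · intro i hi
      rw [h4, h1 i (Finset.mem_range.mp hi), smul_zero]
  have h6 : Tendsto (fun s : ℝ => (s : ℂ) - c) (𝓝[>] c) (𝓝 0) := by
    have h61 : Continuous fun s : ℝ => (s : ℂ) - c := by fun_prop
    have := h61.tendsto c
    rw [sub_self] at this
    exact tendsto_nhdsWithin_of_tendsto_nhds this
  have h7 : Tendsto (fun s : ℝ => ‖iteratedDeriv r F c / (r.factorial : ℂ) +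
      ((s : ℂ) - c) * G ((s : ℂ) - c)‖) (𝓝[>] c)
      (𝓝 (‖iteratedDeriv r F c‖ / (r.factorial : ℝ))) := by
    have h8 : Tendsto (fun w : ℂ => iteratedDeriv r F c / (r.factorial : ℂ) + w * G w) (𝓝 0)
        (𝓝 (iteratedDeriv r F c / (r.factorial : ℂ) + 0 * G 0)) :=
      (tendsto_id.mul hG.continuousAt.tendsto).const_add _
    have h9 := (h8.comp h6).norm
    have h10 : ‖iteratedDeriv r F c / (r.factorial : ℂ) + 0 * G 0‖ =
        ‖iteratedDeriv r F c‖ / (r.factorial : ℝ) := by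
      rw [zero_mul, add_zero, norm_div, Complex.norm_natCast]
    rw [h10] at h9
    exact h9
  refine h7.congr' ?_
  filter_upwards [self_mem_nhdsWithin] with s hs
  have hs0 : (0 : ℝ) < s - c := sub_pos.mpr hs
  have h11 := h5 ((s : ℂ) - c)
  rw [add_sub_cancel] at h11
  rw [h11, norm_mul, norm_pow, ← Complex.ofReal_sub, Complex.norm_real,
    Real.norm_of_nonneg hs0.le]
  field_simp

end Pool.Agent.W263.EP
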