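import Pool.Agent.W263.BSD.Lead5

/-! The core argument for functions `Φ` which are only assumed analytic near the positive real
axis. -/

set_option autoImplicit false

namespace Pool.Agent.W263.EP

open MeasureTheory ProbabilityTheory Filter Topology Set
open Pool.Agent.W263.BSD

/-- The data: `Φ w = exp (G w - w ^ m * lapC a w)` for real `w > c0`, and `Φ` analytic at all
positive reals. -/
structure DataU (m : ℕ) (a : ℝ → ℝ) (Φ G : ℂ → ℂ) (c0 : ℝ) : Prop where
  meas : Measurable a
  c0_nonneg : 0 ≤ c0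
  int : ∀ w > c0, LInt a w
  loc : ∀ U : ℝ, ∃ B : ℝ, ∀ u, 0 < u → u ≤ U → |a u| ≤ B
  hΦ : ∀ w : ℝ, 0 < w → AnalyticAt ℂ Φ w
  hG : ∀ z : ℂ, 0 < z.re → DifferentiableAt ℂ G z
  hGre : ∀ w : ℝ, 0 < w → (G w).im = 0
  eq : ∀ w : ℝ, c0 < w → Φ w = Complex.exp (G w - (w : ℂ) ^ m * lapC a w)

variable {m : ℕ} {a : ℝ → ℝ} {Φ G : ℂ → ℂ} {c0 : ℝ}

/-- the continuation -/
noncomputable def cont (m : ℕ) (a : ℝ → ℝ) (G : ℂ → ℂ) (z : ℂ) : ℂ :=
  Complex.exp (G z - z ^ m * lapC a z)

theorem DataU.cont_diff (D : DataU m a Φ G c0) {s : ℝ} (hs : 0 ≤ s) (h : ∀ w > s, LInt a w)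
    {z : ℂ} (hz : s < z.re) : DifferentiableAt ℂ (cont m a G) z := by
  unfold cont
  refine DifferentiableAt.cexp ?_
  exact (D.hG z (by linarith)).sub
    ((differentiableAt_id.pow m).mul (lapC_differentiableAt D.meas h hz))

theorem cont_ne_zero (z : ℂ) : cont m a G z ≠ 0 := Complex.exp_ne_zero _

/-- for real `w`, `G w - w ^ m lapC a w` is real -/
theorem DataU.real (D : DataU m a Φ G c0) {w : ℝ} (hw : 0 < w) :
    G w - (w : ℂ) ^ m * lapC a w = (((G w).re - w ^ m * lap a w : ℝ) : ℂ) := by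
  rw [lapC_ofReal, ← Complex.ofReal_pow, ← Complex.ofReal_mul]
  apply Complex.ext
  · simp only [Complex.sub_re, Complex.ofReal_re]
  · simp only [Complex.sub_im, Complex.ofReal_im, D.hGre w hw, sub_zero]

/-- the identity extends to the real half line of convergence -/
theorem DataU.eq_of_conv (D : DataU m a Φ G c0) {s : ℝ} (hs : 0 ≤ s) (h : ∀ w > s, LInt a w)
    {w : ℝ} (hw : s < w) : Φ w = cont m a G w := by
  have h1 : AnalyticOnNhd ℝ (fun w : ℝ => Φ w) (Ioi s) := by
    intro x hx
    have hx' : s < x := hx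
    exact ((D.hΦ x (by linarith)).restrictScalars (𝕜 := ℝ)).comp
      (Complex.ofRealCLM.analyticAt x)
  have h2 : AnalyticOnNhd ℝ (fun w : ℝ => cont m a G w) (Ioi s) := by
    intro x hx
    have hx' : s < x := hx
    have h3 : AnalyticAt ℂ (cont m a G) (x : ℂ) := by
      refine Complex.analyticAt_iff_eventually_differentiableAt.mpr ?_
      filter_upwards [(isOpen_half s).mem_nhds (show s < (x : ℂ).re by simpa using hx')] with z hz
      exact D.cont_diff hs h hz
    exact (h3.restrictScalars (𝕜 := ℝ)).comp (Complex.ofRealCLM.analyticAt x)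
  have hz0 : max s c0 + 1 ∈ Ioi s := by
    have := le_max_left s c0
    show s < _
    linarith
  have h3 := h1.eqOn_of_preconnected_of_eventuallyEq h2 (convex_Ioi s).isPreconnected hz0 ?_
  · exact h3 hw
  · have hz1 : c0 < max s c0 + 1 := by
      have := le_max_right s c0
      linarith
    filter_upwards [isOpen_Ioi.mem_nhds hz1] with z hz
    exact D.eq z hz

theorem DataU.real_eq (D : DataU m a Φ G c0) {s : ℝ} (hs : 0 ≤ s) (h : ∀ w > s, LInt a w) {w : ℝ}
    (hw : s < w) : Φ w = ((Real.exp ((G w).re - w ^ m * lap a w) : ℝ) : ℂ) := by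
  rw [D.eq_of_conv hs h hw, cont, D.real (by linarith), Complex.ofReal_exp]

/-- **Core lemma.** `b = ε (κ - a) ≥ 0`, the Laplace integral of `κ` converges to the right of `w0`
and `Φ` does not vanish at the abscissa of convergence. -/
theorem DataU.core (D : DataU m a Φ G c0) {w0 : ℝ} (hw0 : 0 ≤ w0) {κ : ℝ → ℝ} (hκ : Measurable κ)
    (hκi : ∀ w > w0, LInt κ w) {ε : ℝ} (hε : ε = 1 ∨ ε = -1)
    (hb : ∀ u, 0 < u → 0 ≤ ε * (κ u - a u))
    (hne : ∀ s > w0, (∀ w > s, LInt a w) → Φ s ≠ 0) :
    ∀ w > w0, LInt a w := by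
  set T : Set ℝ := {w | w0 ≤ w ∧ ∀ w' > w, LInt a w'} with hT
  have hTne : T.Nonempty := ⟨max w0 c0, le_max_left _ _, fun w' hw' =>
    D.int w' (lt_of_le_of_lt (le_max_right _ _) hw')⟩
  have hTb : BddBelow T := ⟨w0, fun w hw => hw.1⟩
  set s := sInf T with hs
  have hs0 : w0 ≤ s := le_csInf hTne fun w hw => hw.1
  have hconv : ∀ w > s, LInt a w := by
    intro w hw
    obtain ⟨t, ht, htw⟩ := exists_lt_of_csInf_lt hTne hw
    exact ht.2 w htw
  rcases hs0.eq_or_lt with h0 | h0
  · rw [h0]; exact hconv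
  exfalso
  have hspos : 0 < s := by linarith
  have hΦs := D.hΦ s hspos
  set b : ℝ → ℝ := fun u => ε * (κ u - a u) with hbdef
  have hbm : Measurable b := (hκ.sub D.meas).const_mul ε
  have hbi : ∀ w > s, LInt b w := fun w hw =>
    ((hκi w (by linarith)).sub (hconv w hw)).const_mul ε
  -- `Φ s` is real and positive
  have hcont : Tendsto (fun w : ℝ => Φ w) (𝓝[>] s) (𝓝 (Φ s)) := by
    have h1 : ContinuousAt (fun w : ℝ => Φ w) s :=
      ContinuousAt.comp (f := fun w : ℝ => (w : ℂ)) hΦs.continuousAt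
        Complex.continuous_ofReal.continuousAt
    exact tendsto_nhdsWithin_of_tendsto_nhds h1.tendsto
  have hreal : ∀ᶠ w : ℝ in 𝓝[>] s, Φ w = ((Real.exp ((G w).re - w ^ m * lap a w) : ℝ) : ℂ) := by
    filter_upwards [self_mem_nhdsWithin] with w hw
    exact D.real_eq (by linarith) hconv hw
  have him : (Φ s).im = 0 := by
    have h1 : Tendsto (fun w : ℝ => (Φ w).im) (𝓝[>] s) (𝓝 (Φ s).im) :=
      (Complex.continuous_im.tendsto _).comp hcont
    have h2 : Tendsto (fun w : ℝ => (Φ w).im) (𝓝[>] s) (𝓝 0) := by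
      refine tendsto_const_nhds.congr' ?_
      filter_upwards [hreal] with w hw
      rw [hw, Complex.ofReal_im]
    exact tendsto_nhds_unique h1 h2
  have hre : 0 ≤ (Φ s).re := by
    have h1 : Tendsto (fun w : ℝ => (Φ w).re) (𝓝[>] s) (𝓝 (Φ s).re) :=
      (Complex.continuous_re.tendsto _).comp hcont
    refine ge_of_tendsto h1 ?_
    filter_upwards [hreal] with w hw
    rw [hw, Complex.ofReal_re]
    exact (Real.exp_pos _).le
  have hsl : Φ s ∈ Complex.slitPlane := by
    left
    refine lt_of_le_of_ne hre fun h => hne s h0 hconv ?_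
    exact Complex.ext h.symm him
  -- the analytic continuation
  set g : ℂ → ℂ := fun z =>
    (ε : ℂ) * (lapC κ (-z) - (G (-z) - Complex.log (Φ (-z))) / (-z) ^ m) with hg
  have hsC : ((-s : ℝ) : ℂ) ≠ 0 := by
    exact_mod_cast (neg_ne_zero.mpr hspos.ne')
  have hnegs : -((-s : ℝ) : ℂ) = (s : ℂ) := by push_cast; ring
  have hga : AnalyticAt ℂ g ((-s : ℝ) : ℂ) := by
    have hopen : ∀ᶠ z in 𝓝 ((-s : ℝ) : ℂ), DifferentiableAt ℂ g z := by
      have hnegt : Tendsto (fun z : ℂ => -z) (𝓝 ((-s : ℝ) : ℂ)) (𝓝 (s : ℂ)) := by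
        have := (continuous_neg (G := ℂ)).tendsto ((-s : ℝ) : ℂ)
        rwa [hnegs] at this
      have e1 : ∀ᶠ z in 𝓝 ((-s : ℝ) : ℂ), w0 < (-z).re := by
        have : IsOpen {z : ℂ | w0 < (-z).re} :=
          isOpen_lt continuous_const (Complex.continuous_re.comp continuous_neg)
        exact this.mem_nhds (by simpa using h0)
      have e2 : ∀ᶠ z in 𝓝 ((-s : ℝ) : ℂ), Φ (-z) ∈ Complex.slitPlane :=
        hnegt.eventually (hΦs.continuousAt.eventually_mem (Complex.isOpen_slitPlane.mem_nhds hsl))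
      have e4 : ∀ᶠ z in 𝓝 ((-s : ℝ) : ℂ), AnalyticAt ℂ Φ (-z) :=
        hnegt.eventually hΦs.eventually_analyticAt
      have e3 : ∀ᶠ z in 𝓝 ((-s : ℝ) : ℂ), z ≠ 0 := eventually_ne_nhds hsC
      filter_upwards [e1, e2, e3, e4] with z h1 h2 h3 h4
      have hneg : DifferentiableAt ℂ (fun z : ℂ => -z) z := differentiable_neg.differentiableAt
      refine DifferentiableAt.const_mul ?_ _
      refine DifferentiableAt.sub ?_ (DifferentiableAt.div (DifferentiableAt.sub ?_ ?_)
        (hneg.pow m) (pow_ne_zero m (neg_ne_zero.mpr h3)))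
      · exact DifferentiableAt.comp (g := lapC κ) z (lapC_differentiableAt hκ hκi h1) hneg
      · exact DifferentiableAt.comp (g := G) z (D.hG (-z) (by linarith)) hneg
      · exact DifferentiableAt.clog
          (DifferentiableAt.comp (g := Φ) z h4.differentiableAt hneg) h2
    exact Complex.analyticAt_iff_eventually_differentiableAt.mpr hopen
  have hgr : AnalyticAt ℝ (fun t : ℝ => (g t).re) (-s) := hga.re_ofReal
  obtain ⟨t, hts, ht⟩ := landau (X := id) (μ := dens b) (dens_pos b hbm) hgr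
    (fun t ht => (mem_integrableExpSet_dens hbm hb t).mpr (hbi (-t) (by linarith))) (by
      filter_upwards [self_mem_nhdsWithin] with t ht
      have ht' : t < -s := ht
      have hw : s < -t := by linarith
      rw [mgf_dens hbm hb]
      have h1 : Φ (((-t : ℝ) : ℂ)) = _ := D.real_eq (by linarith) hconv hw
      have h2 : Complex.log (Φ (((-t : ℝ) : ℂ))) = (((G ((-t : ℝ) : ℂ)).re - (-t) ^ m * lap a (-t) : ℝ) : ℂ) := by
        rw [h1, Complex.ofReal_exp, Complex.log_exp]
        · rw [Complex.ofReal_im]; linarith [Real.pi_pos]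
        · rw [Complex.ofReal_im]; exact Real.pi_pos.le
      have h3 : G ((-t : ℝ) : ℂ) = (((G ((-t : ℝ) : ℂ)).re : ℝ) : ℂ) := by
        apply Complex.ext
        · simp only [Complex.ofReal_re]
        · rw [Complex.ofReal_im]; exact D.hGre _ (by linarith)
      have h4 : g (t : ℂ) = ((ε * (lap κ (-t) - lap a (-t)) : ℝ) : ℂ) := by
        rw [hg]
        simp only []
        have e : -(t : ℂ) = ((-t : ℝ) : ℂ) := by push_cast; ring
        rw [e, h2, h3, lapC_ofReal]
        have hne' : ((-t : ℝ) : ℂ) ^ m ≠ 0 := by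
          apply pow_ne_zero
          have : (-t : ℝ) ≠ 0 := by linarith
          exact_mod_cast this
        rw [Complex.ofReal_re, ← Complex.ofReal_sub, sub_sub_cancel, Complex.ofReal_mul,
          Complex.ofReal_pow, mul_div_cancel_left₀ _ hne']
        push_cast; ring
      rw [h4, Complex.ofReal_re, hbdef, lap_const_mul, lap_sub (hκi _ (by linarith)) (hconv _ hw)])
  -- contradiction
  have ht1 : LInt b (-t) := (mem_integrableExpSet_dens hbm hb t).mp ht
  set t' : ℝ := max (-t) ((w0 + s) / 2) with ht'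
  have h5 : t' < s := max_lt (by linarith) (by linarith)
  have h6 : t' ∈ T := by
    refine ⟨le_trans (by linarith) (le_max_right _ _), fun w' hw' => ?_⟩
    have h7 : LInt b w' := ht1.mono hbm (le_trans (le_max_left _ _) hw'.le)
    have h8 : LInt κ w' := hκi w' (lt_of_lt_of_le (by linarith) (le_trans (le_max_right _ _) hw'.le))
    have h9 := h8.sub (h7.const_mul ε)
    have h10 : (fun u => κ u - ε * b u) = a := by
      funext u
      rw [hbdef]
      simp only []
      rcases hε with h | h <;> rw [h] <;> ring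
    rwa [h10] at h9
  have := csInf_le hTb h6
  linarith

/-- upper bounds `a ≤ κ` suffice without any hypothesis on zeros -/
theorem DataU.core_upper (D : DataU m a Φ G c0) {w0 : ℝ} (hw0 : 0 ≤ w0) {κ : ℝ → ℝ}
    (hκ : Measurable κ) (hκi : ∀ w > w0, LInt κ w) (hb : ∀ u, 0 < u → a u ≤ κ u) :
    ∀ w > w0, LInt a w := by
  refine D.core hw0 hκ hκi (Or.inl rfl) (fun u hu => by have := hb u hu; linarith) ?_
  intro s hs hconv h0
  have hspos : 0 < s := by linarith
  -- lower bound for `Φ w`
  have hcont : Tendsto (fun w : ℝ => ‖Φ w‖) (𝓝[>] s) (𝓝 ‖Φ s‖) := by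
    have h1 : ContinuousAt (fun w : ℝ => Φ w) s :=
      ContinuousAt.comp (f := fun w : ℝ => (w : ℂ)) (D.hΦ s hspos).continuousAt
        Complex.continuous_ofReal.continuousAt
    exact tendsto_nhdsWithin_of_tendsto_nhds h1.norm.tendsto
  have hlow : ContinuousAt (fun w : ℝ => Real.exp ((G w - (w : ℂ) ^ m * lapC κ w).re)) s := by
    refine ContinuousAt.rexp ?_
    refine Complex.continuous_re.continuousAt.comp ?_
    have h1 : ContinuousAt (fun z : ℂ => G z - z ^ m * lapC κ z) (s : ℂ) := by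
      refine DifferentiableAt.continuousAt (𝕜 := ℂ) ?_
      exact (D.hG s (by simpa using hspos)).sub
        ((differentiableAt_id.pow m).mul (lapC_differentiableAt hκ hκi (by simpa using hs)))
    exact ContinuousAt.comp (f := fun w : ℝ => (w : ℂ)) h1 Complex.continuous_ofReal.continuousAt
  have hlow' : Tendsto (fun w : ℝ => Real.exp ((G w - (w : ℂ) ^ m * lapC κ w).re)) (𝓝[>] s)
      (𝓝 (Real.exp ((G s - (s : ℂ) ^ m * lapC κ s).re))) :=
    tendsto_nhdsWithin_of_tendsto_nhds hlow
  have hle : Real.exp ((G s - (s : ℂ) ^ m * lapC κ s).re) ≤ ‖Φ s‖ := by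
    refine le_of_tendsto_of_tendsto hlow' hcont ?_
    filter_upwards [self_mem_nhdsWithin] with w hw
    have hw' : s < w := hw
    rw [D.real_eq (by linarith) hconv hw', Complex.norm_real, Real.norm_of_nonneg (Real.exp_pos _).le]
    apply Real.exp_le_exp.mpr
    rw [lapC_ofReal, Complex.sub_re, ← Complex.ofReal_pow, ← Complex.ofReal_mul,
      Complex.ofReal_re]
    have h1 : lap a w ≤ lap κ w := by
      have := lap_nonneg (f := fun u => κ u - a u) (fun u hu => by have := hb u hu; linarith) w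
      rw [lap_sub (hκi w (by linarith)) (hconv w hw')] at this
      linarith
    have : w ^ m * lap a w ≤ w ^ m * lap κ w :=
      mul_le_mul_of_nonneg_left h1 (pow_nonneg (by linarith) m)
    linarith
  rw [h0, norm_zero] at hle
  exact absurd hle (not_le.mpr (Real.exp_pos _))

/-- one-sided subexponential bounds imply convergence for all `w > 0` -/
theorem DataU.conv_of_upper (D : DataU m a Φ G c0)
    (h : ∀ ε > 0, ∀ᶠ u in atTop, a u ≤ Real.exp (ε * u)) : ∀ w > 0, LInt a w := by
  intro w hw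
  obtain ⟨U, hU⟩ := eventually_atTop.mp (h (w / 2) (half_pos hw))
  obtain ⟨B, hB⟩ := D.loc U
  set κ : ℝ → ℝ := fun u => ex (w / 2) u + |B| * ex 0 u with hκ
  have hκm : Measurable κ := (ex_meas _).add ((ex_meas 0).const_mul _)
  have hκi : ∀ w' > w / 2, LInt κ w' := fun w' hw' =>
    (ex_LInt hw').add ((ex_LInt (by linarith)).const_mul _)
  refine D.core_upper (half_pos hw).le hκm hκi (fun u hu => ?_) w (by linarith)
  rw [hκ]
  simp only [ex, zero_mul, Real.exp_zero, mul_one]
  have hB0 := abs_nonneg B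
  rcases le_or_gt U u with h2 | h2
  · have h3 := hU u h2
    linarith
  · have h3 := (abs_le.mp (hB u hu h2.le)).2
    have := Real.exp_pos (w / 2 * u)
    have := le_abs_self B
    linarith

/-- one-sided lower bounds imply convergence for all `w > 0` if there are no positive zeros -/
theorem DataU.conv_of_lower (D : DataU m a Φ G c0) (hne : ∀ w : ℝ, 0 < w → Φ w ≠ 0)
    (h : ∀ ε > 0, ∀ᶠ u in atTop, -Real.exp (ε * u) ≤ a u) : ∀ w > 0, LInt a w := by
  intro w hw
  obtain ⟨U, hU⟩ := eventually_atTop.mp (h (w / 2) (half_pos hw))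
  obtain ⟨B, hB⟩ := D.loc U
  set κ : ℝ → ℝ := fun u => (-1) * ex (w / 2) u + (-|B|) * ex 0 u with hκ
  have hκm : Measurable κ := ((ex_meas _).const_mul _).add ((ex_meas 0).const_mul _)
  have hκi : ∀ w' > w / 2, LInt κ w' := fun w' hw' =>
    ((ex_LInt hw').const_mul _).add ((ex_LInt (by linarith)).const_mul _)
  refine D.core (half_pos hw).le hκm hκi (Or.inr rfl) (fun u hu => ?_)
    (fun s hs _ => hne s (by linarith)) w (by linarith)
  rw [hκ]
  simp only [ex, zero_mul, Real.exp_zero, mul_one]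
  have hB0 := abs_nonneg B
  rcases le_or_gt U u with h2 | h2
  · have h3 := hU u h2
    linarith
  · have h3 := (abs_le.mp (hB u hu h2.le)).1
    have := Real.exp_pos (w / 2 * u)
    have := le_abs_self B
    linarith

end Pool.Agent.W263.EP
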