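import Pool.Agent.W263.EP.Order
import Pool.Agent.H341R2.NF.Sys

/-! Sums over the fibres of a norm map; Laplace transforms of step sums with a threshold. -/

set_option autoImplicit false

namespace Pool.Agent.W263.EP

open MeasureTheory Filter Topology Set Classical
open Pool.Agent.W263.BSD

section Stp

variable {c : ℕ → ℝ} {c0 : ℝ}

theorem stp_LInt' (h0 : c 0 = 0) (hc0 : 0 ≤ c0)
    (hs : ∀ w : ℝ, c0 < w → Summable fun n : ℕ => |c n| * (n : ℝ) ^ (-w))
    {w : ℝ} (hw : c0 < w) : LInt (stp c) w := by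
  set w' := (c0 + w) / 2 with hw'
  have h2 : c0 < w' := by rw [hw']; linarith
  have h3 : w' < w := by rw [hw']; linarith
  have h1 : LInt (fun u => (∑' n : ℕ, |c n| * (n : ℝ) ^ (-w')) * Real.exp (w' * u)) w :=
    (LInt_exp h3).const_mul _
  refine LInt.of_bound (stp_meas c) h1 fun u _ => ?_
  exact stp_abs h0 (hs _ h2) (by linarith) u

theorem stp_hasSum' (h0 : c 0 = 0) (hc0 : 0 ≤ c0)
    (hs : ∀ w : ℝ, c0 < w → Summable fun n : ℕ => |c n| * (n : ℝ) ^ (-w))
    {w : ℝ} (hw : c0 < w) :
    HasSum (fun n : ℕ => c n * (n : ℝ) ^ (-w)) (w * lap (stp c) w) := by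
  have hw0 : 0 < w := by linarith
  set F : ℕ → ℝ → ℝ := fun n u => c n * (Ici (Real.log n)).indicator
    (fun u => Real.exp (-w * u)) u with hF
  have hI : ∀ n : ℕ, 1 ≤ n → ∫ u in Ioi (0 : ℝ), (Ici (Real.log n)).indicator
      (fun u => Real.exp (-w * u)) u = (n : ℝ) ^ (-w) / w := by
    intro n hn
    have hn' : (0 : ℝ) < n := by exact_mod_cast hn
    have hlog : 0 ≤ Real.log n := Real.log_nonneg (by exact_mod_cast hn)
    have e1 : ∫ u in Ioi (0 : ℝ), (Ici (Real.log n)).indicator (fun u => Real.exp (-w * u)) u =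
        ∫ u in Ici (0 : ℝ), (Ici (Real.log n)).indicator (fun u => Real.exp (-w * u)) u :=
      integral_Ici_eq_integral_Ioi.symm
    rw [e1, setIntegral_indicator measurableSet_Ici, Ici_inter_Ici, sup_eq_right.mpr hlog,
      integral_Ici_eq_integral_Ioi, integral_exp_mul_Ioi (by linarith)]
    rw [Real.rpow_def_of_pos hn', neg_div_neg_eq]
    congr 2
    ring
  have hInt : ∀ n : ℕ, Integrable (fun u : ℝ => (Ici (Real.log n)).indicator
      (fun u => Real.exp (-w * u)) u) (volume.restrict (Ioi 0)) := by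
    intro n
    have h1 : IntegrableOn (fun u : ℝ => Real.exp (-w * u)) (Ioi 0) :=
      integrableOn_exp_mul_Ioi (by linarith) 0
    exact h1.indicator measurableSet_Ici
  have h1 : ∀ n, Integrable (F n) (volume.restrict (Ioi 0)) := fun n => (hInt n).const_mul _
  have hnorm : ∀ n u, ‖F n u‖ = |c n| * (Ici (Real.log n)).indicator
      (fun u => Real.exp (-w * u)) u := by
    intro n u
    rw [hF]
    simp only []
    rw [norm_mul, Real.norm_eq_abs, Real.norm_of_nonneg]
    exact indicator_nonneg (fun _ _ => (Real.exp_pos _).le) _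
  have h2 : Summable fun n => ∫ u in Ioi (0 : ℝ), ‖F n u‖ := by
    refine ((hs w hw).mul_right (1 / w)).congr fun n => ?_
    simp only [hnorm]
    rw [integral_const_mul]
    rcases Nat.eq_zero_or_pos n with rfl | hn
    · rw [h0]; simp
    · rw [hI n hn]; ring
  have h3 := hasSum_integral_of_summable_integral_norm h1 h2
  have h4 : ∫ u in Ioi (0 : ℝ), ∑' n, F n u = lap (stp c) w := by
    unfold lap
    refine setIntegral_congr_fun measurableSet_Ioi fun u _ => ?_
    have h5 : ∀ n ∉ Finset.range (⌊Real.exp u⌋₊ + 1), F n u = 0 := by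
      intro n hn
      rw [hF]
      simp only []
      rcases Nat.eq_zero_or_pos n with rfl | hn0
      · rw [h0, zero_mul]
      · rw [stp_mem (by omega)] at hn
        rw [indicator_of_notMem (by simpa using hn), mul_zero]
    rw [tsum_eq_sum h5]
    unfold stp
    rw [Finset.sum_mul]
    refine Finset.sum_congr rfl fun n hn => ?_
    rw [hF]
    simp only []
    rcases Nat.eq_zero_or_pos n with rfl | hn0
    · rw [h0, zero_mul, zero_mul]
    · rw [stp_mem (by omega)] at hn
      rw [indicator_of_mem (by simpa using hn), neg_mul]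
  rw [h4] at h3
  have h5 := h3.mul_left w
  refine h5.congr_fun fun n => ?_
  rw [hF]
  simp only []
  rw [integral_const_mul]
  rcases Nat.eq_zero_or_pos n with rfl | hn0
  · rw [h0]; simp
  · rw [hI n hn0]; field_simp

end Stp

section Fib

variable {X : Type} (N : X → ℕ)

/-- the sum over a fibre -/
noncomputable def fib (f : X → ℝ) (n : ℕ) : ℝ := ∑' x : {x // N x = n}, f x

theorem fib_hasSum {f : X → ℝ} (hf : Summable f) : HasSum (fib N f) (∑' x, f x) := by
  have h1 : Summable (f ∘ Equiv.sigmaFiberEquiv N) := (Equiv.sigmaFiberEquiv N).summable_iff.mpr hf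
  have h2 := h1.hasSum.sigma (fun n => (h1.sigma_factor n).hasSum)
  have h3 : ∑' b, (f ∘ Equiv.sigmaFiberEquiv N) b = ∑' x, f x :=
    (Equiv.sigmaFiberEquiv N).tsum_eq f
  rw [h3] at h2
  exact h2

theorem fib_zero (h2 : ∀ x, 2 ≤ N x) (f : X → ℝ) : fib N f 0 = 0 := by
  unfold fib
  have : IsEmpty {x // N x = 0} := ⟨fun x => by have := h2 x.1; have := x.2; omega⟩
  exact tsum_empty

theorem fib_mul (f : X → ℝ) (g : ℕ → ℝ) (n : ℕ) :
    fib N (fun x => f x * g (N x)) n = fib N f n * g n := by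
  unfold fib
  rw [← tsum_mul_right]
  refine tsum_congr fun x => ?_
  simp only [x.2]

theorem fib_abs_le {f : X → ℝ} (hf : ∀ n, Summable fun x : {x // N x = n} => |f x|) (n : ℕ) :
    |fib N f n| ≤ fib N (fun x => |f x|) n := by
  unfold fib
  have h := norm_tsum_le_tsum_norm (f := fun x : {x // N x = n} => f x) (by
    simpa [Real.norm_eq_abs] using hf n)
  simpa [Real.norm_eq_abs] using h

/-- fibres are finite -/
theorem fibre_finite {r : ℝ} (hs : Summable fun x => (N x : ℝ) ^ r) (h2 : ∀ x, 2 ≤ N x) (n : ℕ) :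
    {x | N x = n}.Finite := by
  by_contra hinf
  have hinf' : {x | N x = n}.Infinite := hinf
  obtain ⟨x0, hx0⟩ := hinf'.nonempty
  have hx0' : N x0 = n := hx0
  have hn : 0 < (n : ℝ) ^ r := by
    apply Real.rpow_pos_of_pos
    have := h2 x0
    rw [hx0'] at this
    exact_mod_cast (by omega : 0 < n)
  have h1 := hs.tendsto_cofinite_zero.eventually (gt_mem_nhds hn)
  rw [Filter.eventually_cofinite] at h1
  refine hinf' (h1.subset fun x hx => ?_)
  have hx' : N x = n := hx
  show ¬ ((N x : ℝ) ^ r < (n : ℝ) ^ r)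
  rw [hx']
  exact lt_irrefl _

theorem le_finite {r : ℝ} (hs : Summable fun x => (N x : ℝ) ^ r) (h2 : ∀ x, 2 ≤ N x) (n : ℕ) :
    {x | N x ≤ n}.Finite := by
  have h1 : {x | N x ≤ n} = ⋃ k ∈ Finset.range (n + 1), {x | N x = k} := by
    ext x
    simp only [mem_setOf_eq, mem_iUnion, Finset.mem_range, exists_prop]
    constructor
    · intro h; exact ⟨N x, by omega, rfl⟩
    · rintro ⟨k, h1, h2⟩; omega
  rw [h1]
  exact (Finset.finite_toSet _).biUnion fun k _ => fibre_finite N hs h2 k

/-- the step sum of the fibre sums is the sum over all points of bounded norm -/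
theorem stp_fib {r : ℝ} (hs : Summable fun x => (N x : ℝ) ^ r) (h2 : ∀ x, 2 ≤ N x) (f : X → ℝ)
    (u : ℝ) : stp (fib N f) u = ∑ x ∈ (le_finite N hs h2 ⌊Real.exp u⌋₊).toFinset, f x := by
  set M := ⌊Real.exp u⌋₊ with hM
  set F : X → ℝ := fun x => f x * (if N x ≤ M then 1 else 0) with hF
  have hsub : ∀ x ∉ (le_finite N hs h2 M).toFinset, F x = 0 := by
    intro x hx
    rw [Set.Finite.mem_toFinset] at hx
    have hx' : ¬ N x ≤ M := hx
    rw [hF]
    simp only []
    rw [if_neg hx', mul_zero]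
  have hFs : HasSum F (∑ x ∈ (le_finite N hs h2 M).toFinset, F x) := hasSum_sum_of_ne_finset_zero hsub
  have h3 := fib_hasSum N hFs.summable
  rw [hFs.tsum_eq] at h3
  have h4 : ∀ n, fib N F n = fib N f n * (if n ≤ M then 1 else 0) := fun n =>
    fib_mul N f (fun n => if n ≤ M then 1 else 0) n
  have h5 : HasSum (fib N F) (∑ n ∈ Finset.range (M + 1), fib N F n) :=
    hasSum_sum_of_ne_finset_zero fun n hn => by
      rw [h4, if_neg (by rw [Finset.mem_range] at hn; omega), mul_zero]
  have h6 := h3.unique h5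
  unfold stp
  rw [← hM]
  have h7 : ∑ n ∈ Finset.range (M + 1), fib N F n = ∑ n ∈ Finset.range (M + 1), fib N f n := by
    refine Finset.sum_congr rfl fun n hn => ?_
    rw [h4, if_pos (by rw [Finset.mem_range] at hn; omega), mul_one]
  rw [← h7, ← h6]
  refine Finset.sum_congr rfl fun x hx => ?_
  rw [Set.Finite.mem_toFinset] at hx
  have hx' : N x ≤ M := hx
  rw [hF]
  simp only []
  rw [if_pos hx', mul_one]

end Fib

end Pool.Agent.W263.EP
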