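import Pool.Agent.W263.EP.Lead

/-! Weight-bounded systems of traces over a norm system. -/

set_option autoImplicit false

namespace Pool.Agent.W263.EP

open MeasureTheory Filter Topology Set Classical
open Pool.Agent.W263.BSD
open Pool.Agent.H341R2 (NormSys)

variable (S : NormSys) (bad : Set S.X) (tr : S.X → ℕ → ℝ) (ω : ℝ)

/-- normalised traces at the centre `(ω+1)/2` -/
noncomputable def tn (x : S.X) (m : ℕ) : ℝ :=
  if x ∈ bad then 0 else tr x m * (S.N x : ℝ) ^ (-((m : ℝ) * ((ω + 1) / 2)))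

/-- the inverse Euler factor at the centre -/
noncomputable def ff0 (x : S.X) : ℝ :=
  Real.exp (-∑' m : ℕ, tr x (m + 1) * (S.N x : ℝ) ^ (-(((m : ℝ) + 1) * ((ω + 1) / 2))) / (m + 1))

/-- the partial products at the centre -/
noncomputable def PP (y : ℝ) : ℝ := ∏ᶠ x ∈ {x | x ∉ bad ∧ (S.N x : ℝ) ≤ y}, ff0 S tr ω x

/-- the corrected partial products at the centre -/
noncomputable def PS (y : ℝ) : ℝ := PP S bad tr ω y *
  Real.exp (∑ᶠ x ∈ {x | x ∉ bad ∧ √y < S.N x ∧ (S.N x : ℝ) ≤ y},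
    tr x 2 * (S.N x : ℝ) ^ (-(ω + 1)) / 2)

/-- the Euler product -/
noncomputable def LF (s : ℂ) : ℂ :=
  ∏' x : S.X, if x ∈ bad then 1 else
    Complex.exp (∑' m : ℕ, (tr x (m + 1) : ℂ) * ((S.N x : ℕ) : ℂ) ^ (-((m + 1 : ℂ) * s)) / (m + 1))

variable {S bad tr ω} {D : ℝ}

theorem tdata (hD : 0 ≤ D)
    (h : ∀ x, x ∉ bad → ∀ m : ℕ, 1 ≤ m → |tr x m| ≤ D * (S.N x : ℝ) ^ (ω * m / 2)) :
    TData S (tn S bad tr ω) D where
  nonneg := hD
  bound := fun x m => by
    have hh0 := (hh_pos (S := S) x).le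
    unfold tn
    split_ifs with hx
    · rw [abs_zero]; positivity
    · rw [abs_mul, abs_of_nonneg (by positivity : (0 : ℝ) ≤
        (S.N x : ℝ) ^ (-(((m + 1 : ℕ) : ℝ) * ((ω + 1) / 2))))]
      have h1 := h x hx (m + 1) (by omega)
      have h2 : (S.N x : ℝ) ^ (ω * ((m + 1 : ℕ) : ℝ) / 2) *
          (S.N x : ℝ) ^ (-(((m + 1 : ℕ) : ℝ) * ((ω + 1) / 2))) = hh S x ^ (m + 1) := by
        unfold hh
        rw [← Real.rpow_add (S.N_pos x), ← Real.rpow_natCast, ← Real.rpow_mul (S.N_pos x).le]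
        congr 1
        push_cast
        ring
      calc |tr x (m + 1)| * (S.N x : ℝ) ^ (-(((m + 1 : ℕ) : ℝ) * ((ω + 1) / 2))) ≤
          (D * (S.N x : ℝ) ^ (ω * ((m + 1 : ℕ) : ℝ) / 2)) *
            (S.N x : ℝ) ^ (-(((m + 1 : ℕ) : ℝ) * ((ω + 1) / 2))) :=
            mul_le_mul_of_nonneg_right h1 (by positivity)
        _ = _ := by rw [mul_assoc, h2]

theorem LF_eq (E : TData S (tn S bad tr ω) D) {z : ℂ} (hz : 1 / 2 < z.re) :
    LF S bad tr ((ω + 1) / 2 + z) = Complex.exp (LL S (tn S bad tr ω) z) := by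
  rw [← (E.hasProd hz).tprod_eq]
  unfold LF
  refine tprod_congr fun x => ?_
  split_ifs with hx
  · have : ∀ m : ℕ, ((tn S bad tr ω x (m + 1) : ℝ) : ℂ) / (m + 1) * xx S x z ^ (m + 1) = 0 := by
      intro m
      unfold tn
      rw [if_pos hx]
      simp
    simp only [this, tsum_zero, Complex.exp_zero]
  · congr 1
    refine tsum_congr fun m => ?_
    unfold tn xx
    rw [if_neg hx]
    have h0 := S.N_ne x
    have e1 : ((S.N x : ℕ) : ℂ) ^ (-((m + 1 : ℂ) * ((ω + 1) / 2 + z))) =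
        (((S.N x : ℝ) ^ (-(((m + 1 : ℕ) : ℝ) * ((ω + 1) / 2))) : ℝ) : ℂ) *
          (((S.N x : ℕ) : ℂ) ^ (-z)) ^ (m + 1) := by
      rw [Complex.ofReal_cpow (S.N_pos x).le, ← Complex.cpow_nat_mul, Complex.ofReal_natCast,
        ← Complex.cpow_add _ _ h0]
      congr 1
      push_cast
      ring
    rw [e1]
    push_cast
    ring

theorem cc_bad {x : S.X} (hx : x ∈ bad) : cc S (tn S bad tr ω) x = 0 := by
  unfold cc tn
  simp [hx]

theorem cc_good {x : S.X} (hx : x ∉ bad) : Real.exp (cc S (tn S bad tr ω) x) = ff0 S tr ω x := by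
  unfold cc tn ff0
  congr 1
  rw [← tsum_neg]
  refine tsum_congr fun m => ?_
  rw [if_neg hx]
  push_cast
  ring

theorem fin_norm (S : NormSys) (y : ℝ) : {x : S.X | (S.N x : ℝ) ≤ y}.Finite := by
  refine (le_finite S.N (S.summable (-2) (by norm_num)) S.two_le ⌊y⌋₊).subset fun x hx => ?_
  exact Nat.le_floor hx

theorem fin_good (S : NormSys) (bad : Set S.X) (y : ℝ) :
    {x : S.X | x ∉ bad ∧ (S.N x : ℝ) ≤ y}.Finite :=
  (fin_norm S y).subset fun _ hx => hx.2

theorem ff0_pos (x : S.X) : 0 < ff0 S tr ω x := Real.exp_pos _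

theorem PP_pos (y : ℝ) : 0 < PP S bad tr ω y := by
  unfold PP
  rw [finprod_mem_eq_finite_toFinset_prod _ (fin_good S bad y)]
  exact Finset.prod_pos fun x _ => ff0_pos x

theorem log_PP (u : ℝ) : Real.log (PP S bad tr ω (Real.exp u)) = aa S (tn S bad tr ω) u := by
  unfold PP aa
  rw [finprod_mem_eq_finite_toFinset_prod _ (fin_good S bad _),
    Real.log_prod (fun x _ => (ff0_pos x).ne'),
    stp_fib S.N (S.summable (-2) (by norm_num)) S.two_le]
  refine Finset.sum_subset_zero_on_sdiff ?_ ?_ ?_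
  · intro x hx
    rw [Set.Finite.mem_toFinset] at hx ⊢
    exact Nat.le_floor hx.2
  · intro x hx
    rw [Finset.mem_sdiff, Set.Finite.mem_toFinset, Set.Finite.mem_toFinset] at hx
    have h1 : (S.N x : ℝ) ≤ Real.exp u := (Nat.le_floor_iff (Real.exp_pos u).le).mp hx.1
    have h2 : x ∈ bad := by
      by_contra h
      exact hx.2 ⟨h, h1⟩
    exact cc_bad h2
  · intro x hx
    rw [Set.Finite.mem_toFinset] at hx
    rw [← cc_good hx.1, Real.log_exp]

theorem fin_window (S : NormSys) (bad : Set S.X) (y : ℝ) :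
    {x : S.X | x ∉ bad ∧ √y < S.N x ∧ (S.N x : ℝ) ≤ y}.Finite :=
  (fin_norm S y).subset fun _ hx => hx.2.2

theorem PS_pos (y : ℝ) : 0 < PS S bad tr ω y := mul_pos (PP_pos y) (Real.exp_pos _)

theorem log_PS (E : TData S (tn S bad tr ω) D) {u : ℝ} (hu : 0 ≤ u) :
    Real.log (PS S bad tr ω (Real.exp u)) =
      aa S (tn S bad tr ω) u - sc S (tn S bad tr ω) u := by
  unfold PS
  rw [Real.log_mul (PP_pos _).ne' (Real.exp_pos _).ne', Real.log_exp, log_PP, sub_eq_add_neg,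
    E.sc_eq hu, ← Finset.sum_neg_distrib, finsum_mem_eq_finite_toFinset_sum _ (fin_window S bad _)]
  congr 1
  have hsq : √(Real.exp u) = Real.exp (u / 2) := by
    rw [show u = u / 2 + u / 2 by ring, Real.exp_add, Real.sqrt_mul_self (Real.exp_pos _).le]
    congr 1; ring
  refine Finset.sum_subset_zero_on_sdiff ?_ ?_ ?_
  · intro x hx
    rw [Set.Finite.mem_toFinset] at hx ⊢
    exact Nat.le_floor hx.2.2
  · intro x hx
    rw [Finset.mem_sdiff, Set.Finite.mem_toFinset, Set.Finite.mem_toFinset] at hx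
    have h1 : (S.N x : ℝ) ≤ Real.exp u := (Nat.le_floor_iff (Real.exp_pos u).le).mp hx.1
    by_cases h2 : x ∈ bad
    · have : mm S (tn S bad tr ω) x = 0 := by
        unfold mm tn
        rw [if_pos h2]; simp
      rw [this]; simp
    · have h3 : ¬ (u / 2 < Real.log (S.N x)) := by
        intro h4
        refine hx.2 ⟨h2, ?_, h1⟩
        rw [hsq, ← Real.lt_log_iff_exp_lt (S.N_pos x)]
        exact h4
      rw [if_neg (fun h => h3 h.1)]; simp
  · intro x hx
    rw [Set.Finite.mem_toFinset] at hx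
    obtain ⟨h1, h2, h3⟩ := hx
    rw [hsq, ← Real.lt_log_iff_exp_lt (S.N_pos x)] at h2
    rw [← Real.log_le_iff_le_exp (S.N_pos x)] at h3
    rw [if_pos ⟨h2, h3⟩, mul_one]
    unfold mm tn
    rw [if_neg h1]
    have e : -((2 : ℕ) * ((ω + 1) / 2) : ℝ) = -(ω + 1) := by push_cast; ring
    rw [e]
    ring

/-- `F` continues the Euler product analytically along the real half line to the right of the
centre -/
def IsCont (S : NormSys) (bad : Set S.X) (tr : S.X → ℕ → ℝ) (ω : ℝ) (F : ℂ → ℂ) : Prop :=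
  (∀ s : ℝ, (ω + 1) / 2 < s → AnalyticAt ℂ F s) ∧
    ∀ s : ℝ, (ω + 2) / 2 < s → F s = LF S bad tr s

variable {F : ℂ → ℂ}

theorem IsCont.dataU (E : TData S (tn S bad tr ω) D) (hF : IsCont S bad tr ω F) :
    DataU 1 (aa S (tn S bad tr ω)) (fun w => F ((ω + 1) / 2 + w)) (GG S (tn S bad tr ω)) (1 / 2) := by
  refine E.dataU (fun w hw => ?_) (fun w hw => ?_)
  · have h1 := hF.1 ((ω + 1) / 2 + w) (by linarith)
    have h2 : (((ω + 1) / 2 + w : ℝ) : ℂ) = ((ω : ℂ) + 1) / 2 + (w : ℂ) := by push_cast; ring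
    rw [h2] at h1
    exact AnalyticAt.comp_of_eq (g := F) (f := fun w : ℂ => ((ω : ℂ) + 1) / 2 + w) h1
      (by fun_prop) rfl
  · have h1 := hF.2 ((ω + 1) / 2 + w) (by linarith)
    have h2 : (((ω + 1) / 2 + w : ℝ) : ℂ) = ((ω : ℂ) + 1) / 2 + (w : ℂ) := by push_cast; ring
    rw [h2] at h1
    rw [h1]
    exact LF_eq E (by simpa using hw)

/-- the continuation to the half plane -/
noncomputable def FC (S : NormSys) (bad : Set S.X) (tr : S.X → ℕ → ℝ) (ω : ℝ) (s : ℂ) : ℂ :=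
  cont 1 (aa S (tn S bad tr ω)) (GG S (tn S bad tr ω)) (s - (ω + 1) / 2)

theorem FC_ne_zero (s : ℂ) : FC S bad tr ω s ≠ 0 := cont_ne_zero _

theorem FC_diff (E : TData S (tn S bad tr ω) D)
    (hconv : ∀ w > 0, LInt (aa S (tn S bad tr ω)) w) :
    DifferentiableOn ℂ (FC S bad tr ω) {s : ℂ | (ω + 1) / 2 < s.re} := by
  intro s hs
  have hs' : (ω + 1) / 2 < s.re := hs
  have hre : 0 < (s - ((ω : ℂ) + 1) / 2).re := by
    have h3 : (s - ((ω : ℂ) + 1) / 2).re = s.re - (ω + 1) / 2 := by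
      rw [Complex.sub_re]
      congr 1
      have : ((ω : ℂ) + 1) / 2 = (((ω + 1) / 2 : ℝ) : ℂ) := by push_cast; ring
      rw [this, Complex.ofReal_re]
    rw [h3]; linarith
  refine DifferentiableAt.differentiableWithinAt ?_
  unfold FC
  refine DifferentiableAt.comp (g := cont 1 (aa S (tn S bad tr ω)) (GG S (tn S bad tr ω))) s ?_
    (by fun_prop)
  unfold cont
  refine DifferentiableAt.cexp ?_
  exact (E.GG_diff hre).sub ((differentiableAt_id.pow 1).mul
    (lapC_differentiableAt TData.aa_meas hconv hre))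

theorem FC_eq (E : TData S (tn S bad tr ω) D) {s : ℂ} (hs : (ω + 2) / 2 < s.re) :
    FC S bad tr ω s = LF S bad tr s := by
  have hre : 1 / 2 < (s - ((ω : ℂ) + 1) / 2).re := by
    have h3 : (s - ((ω : ℂ) + 1) / 2).re = s.re - (ω + 1) / 2 := by
      rw [Complex.sub_re]
      congr 1
      have : ((ω : ℂ) + 1) / 2 = (((ω + 1) / 2 : ℝ) : ℂ) := by push_cast; ring
      rw [this, Complex.ofReal_re]
    rw [h3]; linarith
  unfold FC
  rw [E.cont_eq hre, ← LF_eq E hre]
  congr 1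
  ring

theorem FC_isCont (E : TData S (tn S bad tr ω) D)
    (hconv : ∀ w > 0, LInt (aa S (tn S bad tr ω)) w) : IsCont S bad tr ω (FC S bad tr ω) := by
  refine ⟨fun s hs => ?_, fun s hs => ?_⟩
  · refine Complex.analyticAt_iff_eventually_differentiableAt.mpr ?_
    have h1 := FC_diff E hconv
    filter_upwards [(isOpen_half ((ω + 1) / 2)).mem_nhds
      (show (ω + 1) / 2 < (s : ℂ).re by simpa using hs)] with z hz
    exact h1.differentiableAt ((isOpen_half _).mem_nhds hz)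
  · exact FC_eq E (by simpa using hs)

/-- any continuation along the real half line agrees with `FC` -/
theorem IsCont.eq_FC (E : TData S (tn S bad tr ω) D) (hF : IsCont S bad tr ω F)
    (hconv : ∀ w > 0, LInt (aa S (tn S bad tr ω)) w) {s : ℝ} (hs : (ω + 1) / 2 < s) :
    F s = FC S bad tr ω s := by
  have h1 := (hF.dataU E).eq_of_conv le_rfl hconv (w := s - (ω + 1) / 2) (by linarith)
  have h2 : ((ω : ℂ) + 1) / 2 + ((s - (ω + 1) / 2 : ℝ) : ℂ) = s := by push_cast; ring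
  have h3 : ((s - (ω + 1) / 2 : ℝ) : ℂ) = (s : ℂ) - ((ω : ℂ) + 1) / 2 := by push_cast; ring
  simp only [h2] at h1
  rw [h1, FC, h3]

end Pool.Agent.W263.EP
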