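import Pool.Agent.W263.EP.Brk

/-! Integration and Laplace transforms. -/

set_option autoImplicit false

namespace Pool.Agent.W263.EP

open MeasureTheory Filter Topology Set
open Pool.Agent.W263.BSD

/-- the integral from `0` to `u` -/
noncomputable def intU (f : ℝ → ℝ) (u : ℝ) : ℝ := ∫ v in Ioc 0 u, f v

theorem intU_meas {f : ℝ → ℝ} (hf : Measurable f) : Measurable (intU f) := by
  have h1 : StronglyMeasurable (fun p : ℝ × ℝ =>
      ({q : ℝ × ℝ | 0 < q.2 ∧ q.2 ≤ q.1}.indicator (fun q => f q.2) p)) := by
    refine (Measurable.indicator (hf.comp measurable_snd) ?_).stronglyMeasurable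
    exact (measurableSet_lt measurable_const measurable_snd).inter
      (measurableSet_le measurable_snd measurable_fst)
  have h2 := (h1.integral_prod_right' (ν := volume)).measurable
  have h3 : intU f = fun u => ∫ v, ({q : ℝ × ℝ | 0 < q.2 ∧ q.2 ≤ q.1}.indicator
      (fun q => f q.2) (u, v)) := by
    funext u
    unfold intU
    rw [← integral_indicator measurableSet_Ioc]
    refine integral_congr_ae (Eventually.of_forall fun v => ?_)
    simp only [indicator, mem_Ioc, mem_ofPred_eq]
  rw [h3]
  exact h2

theorem intU_nonpos {f : ℝ → ℝ} {u : ℝ} (hu : u ≤ 0) : intU f u = 0 := by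
  unfold intU
  rw [Ioc_eq_empty (by simpa using hu)]
  simp

/-- integration divides the Laplace transform by `w` -/
theorem lap_intU {f : ℝ → ℝ} (hf : Measurable f) {w : ℝ} (hw : 0 < w) (h : LInt f w) :
    LInt (intU f) w ∧ lap (intU f) w = lap f w / w := by
  set μ : Measure ℝ := volume.restrict (Ioi 0) with hμ
  set g : ℝ × ℝ → ℝ := fun p => if p.2 ≤ p.1 then f p.2 * Real.exp (-(w * p.1)) else 0 with hg
  have hgm : Measurable g :=
    Measurable.ite (measurableSet_le measurable_snd measurable_fst)
      ((hf.comp measurable_snd).mul (by fun_prop)) measurable_const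
  have hin : ∀ v : ℝ, 0 < v → IntegrableOn (fun u : ℝ => Real.exp (-(w * u))) (Ioi v) ∧
      ∫ u in Ioi v, Real.exp (-(w * u)) = Real.exp (-(w * v)) / w := by
    intro v _
    have e1 : ∀ u : ℝ, Real.exp (-(w * u)) = Real.exp ((-w) * u) := fun u => by ring_nf
    simp only [e1]
    refine ⟨integrableOn_exp_mul_Ioi (by linarith) v, ?_⟩
    rw [integral_exp_mul_Ioi (by linarith), neg_div_neg_eq]
  -- slices for fixed `v`
  have hsl : ∀ v : ℝ, 0 < v → ∀ u : ℝ, ‖g (u, v)‖ =
      |f v| * (Ici v).indicator (fun u => Real.exp (-(w * u))) u := by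
    intro v _ u
    rw [hg]
    simp only [indicator, mem_Ici]
    split_ifs with h1
    · rw [norm_mul, Real.norm_eq_abs, Real.norm_of_nonneg (Real.exp_pos _).le]
    · rw [norm_zero, mul_zero]
  have hsi : ∀ v : ℝ, 0 < v → Integrable ((Ici v).indicator fun u => Real.exp (-(w * u))) μ ∧
      ∫ u, (Ici v).indicator (fun u => Real.exp (-(w * u))) u ∂μ = Real.exp (-(w * v)) / w := by
    intro v hv
    have e1 : Ici v ∩ Ioi (0 : ℝ) = Ici v := inter_eq_left.mpr fun x hx => lt_of_lt_of_le hv hx
    constructor
    · rw [integrable_indicator_iff measurableSet_Ici, IntegrableOn, hμ,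
        Measure.restrict_restrict measurableSet_Ici, e1]
      exact (integrableOn_Ici_iff_integrableOn_Ioi).mpr (hin v hv).1
    · rw [integral_indicator measurableSet_Ici, hμ, Measure.restrict_restrict measurableSet_Ici, e1,
        integral_Ici_eq_integral_Ioi]
      exact (hin v hv).2
  have hgi : Integrable g (μ.prod μ) := by
    rw [integrable_prod_iff' hgm.aestronglyMeasurable]
    constructor
    · rw [hμ]
      refine (ae_restrict_mem measurableSet_Ioi).mono fun v hv => ?_
      have hv' : (0 : ℝ) < v := hv
      have h1 := ((hsi v hv').1.const_mul |f v|)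
      refine Integrable.mono h1 (hgm.comp (measurable_id.prodMk measurable_const)).aestronglyMeasurable
        (Eventually.of_forall fun u => ?_)
      rw [hsl v hv' u, norm_mul, Real.norm_eq_abs, abs_abs, Real.norm_eq_abs]
      exact mul_le_mul_of_nonneg_left (le_abs_self _) (abs_nonneg _)
    · have h1 : Integrable (fun v => |f v| * Real.exp (-(w * v)) / w) μ := by
        have h2 : Integrable (fun v => f v * Real.exp (-(w * v))) μ := h
        refine (h2.norm.div_const w).congr (Eventually.of_forall fun v => ?_)
        simp only [norm_mul, Real.norm_eq_abs, abs_of_pos (Real.exp_pos _)]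
      refine h1.congr ?_
      rw [hμ]
      refine (ae_restrict_mem measurableSet_Ioi).mono fun v hv => ?_
      have hv' : (0 : ℝ) < v := hv
      simp only [hsl v hv']
      rw [integral_const_mul, ← hμ, (hsi v hv').2]
      ring
  have hleft : ∀ u : ℝ, 0 < u → ∫ v, g (u, v) ∂μ = intU f u * Real.exp (-(w * u)) := by
    intro u hu
    unfold intU
    rw [← integral_mul_const]
    have e1 : Ioc 0 u = Iic u ∩ Ioi 0 := by
      ext x
      simp only [mem_Ioc, mem_inter_iff, mem_Iic, mem_Ioi]
      tauto
    rw [e1, ← Measure.restrict_restrict measurableSet_Iic, ← hμ,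
      ← integral_indicator measurableSet_Iic]
    rfl
  have hI := hgi.integral_prod_left
  have hLI : LInt (intU f) w := by
    refine Integrable.congr (μ := μ) hI ?_
    rw [hμ]
    refine (ae_restrict_mem measurableSet_Ioi).mono fun u hu => ?_
    exact hleft u hu
  refine ⟨hLI, ?_⟩
  have hs := integral_integral_swap (f := fun u v => g (u, v)) hgi
  have e1 : ∫ u, ∫ v, g (u, v) ∂μ ∂μ = lap (intU f) w := by
    unfold lap
    exact setIntegral_congr_fun measurableSet_Ioi fun u hu => hleft u hu
  have e2 : ∫ v, ∫ u, g (u, v) ∂μ ∂μ = lap f w / w := by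
    unfold lap
    rw [← integral_div]
    refine setIntegral_congr_fun measurableSet_Ioi fun v hv => ?_
    have hv' : (0 : ℝ) < v := hv
    have h1 : ∀ u : ℝ, g (u, v) = f v * (Ici v).indicator (fun u => Real.exp (-(w * u))) u := by
      intro u
      rw [hg]
      simp only [indicator, mem_Ici]
      split_ifs <;> simp
    simp only [h1]
    rw [integral_const_mul, (hsi v hv').2]
    ring
  rw [← e1, ← e2]
  exact hs

end Pool.Agent.W263.EP
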