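import Pool.Agent.W263.EP.Sys2

/-! Euler products over norm systems: second order terms and the leading coefficient. -/

set_option autoImplicit false

namespace Pool.Agent.W263.EP

open MeasureTheory Filter Topology Set Classical
open Pool.Agent.W263.BSD
open Pool.Agent.H341R2 (NormSys)

variable {S : NormSys} {t : S.X → ℕ → ℝ} {D : ℝ}

/-- second order coefficients -/
noncomputable def mm (S : NormSys) (t : S.X → ℕ → ℝ) (x : S.X) : ℝ := -(t x 2 / 2)

theorem TData.mm_le (E : TData S t D) (x : S.X) : |mm S t x| ≤ D * (S.N x : ℝ) ^ (-1 : ℝ) := by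
  have h := E.coeff_le x 1
  rw [show 1 + 1 = 2 by norm_num, hh_sq] at h
  unfold mm
  rw [abs_neg]
  norm_num at h
  exact h

theorem TData.mm_summable (E : TData S t D) {w : ℝ} (hw : 0 < w) :
    Summable fun x : S.X => |mm S t x| * (S.N x : ℝ) ^ (-w) := by
  refine Summable.of_nonneg_of_le (fun x => by positivity) (fun x => ?_)
    ((S.summable (-1 - w) (by linarith)).mul_left D)
  rw [show (-1 - w : ℝ) = -1 + -w by ring, Real.rpow_add (S.N_pos x), ← mul_assoc]
  exact mul_le_mul_of_nonneg_right (E.mm_le x) (by positivity)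

/-- step sum of the second order coefficients -/
noncomputable def ss (S : NormSys) (t : S.X → ℕ → ℝ) : ℝ → ℝ := stp (fib S.N (mm S t))

/-- the second order correction `s(u) - s(u/2)` -/
noncomputable def sc (S : NormSys) (t : S.X → ℕ → ℝ) (u : ℝ) : ℝ := ss S t u - ss S t (u / 2)

theorem TData.ss_LInt (E : TData S t D) {w : ℝ} (hw : 0 < w) : LInt (ss S t) w :=
  LInt_sys S le_rfl (fun _ hw => E.mm_summable hw) hw

theorem TData.ss_lap (E : TData S t D) {w : ℝ} (hw : 0 < w) :
    w * lap (ss S t) w = ∑' x : S.X, mm S t x * (S.N x : ℝ) ^ (-w) :=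
  lap_sys S le_rfl (fun _ hw => E.mm_summable hw) hw

theorem sc_meas : Measurable (sc S t) :=
  (stp_meas _).sub ((stp_meas _).comp (measurable_id.div_const 2))

theorem TData.sc_LInt (E : TData S t D) {w : ℝ} (hw : 0 < w) : LInt (sc S t) w :=
  (E.ss_LInt hw).sub (LInt_half (E.ss_LInt (by linarith)))

/-- the sum of the second order terms -/
theorem TData.mm_hasSum (E : TData S t D) {w : ℝ} (hw : 0 < w) :
    HasSum (fun x : S.X => ((mm S t x * ((S.N x : ℝ) ^ (-w) - ((S.N x : ℝ) ^ (-w)) ^ 2) : ℝ) : ℂ))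
      ((w * lap (ss S t) w - (2 * w) * lap (ss S t) (2 * w) : ℝ) : ℂ) := by
  have hs : ∀ w : ℝ, 0 < w → HasSum (fun x : S.X => mm S t x * (S.N x : ℝ) ^ (-w))
      (w * lap (ss S t) w) := by
    intro w hw
    rw [E.ss_lap hw]
    refine Summable.hasSum ?_
    refine Summable.of_norm_bounded (E.mm_summable hw) fun x => ?_
    rw [norm_mul, Real.norm_eq_abs, Real.norm_of_nonneg (by positivity)]
  refine Complex.hasSum_ofReal.mpr ?_
  refine ((hs w hw).sub (hs (2 * w) (by linarith))).congr_fun fun x => ?_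
  have e2 : ((S.N x : ℝ) ^ (-(2 * w)) : ℝ) = ((S.N x : ℝ) ^ (-w)) ^ 2 := by
    rw [← Real.rpow_natCast, ← Real.rpow_mul (S.N_pos x).le]
    congr 1; push_cast; ring
  rw [e2]
  ring

/-- the terms with `m ≥ 2` tend to zero -/
theorem TData.G3 (E : TData S t D) :
    Tendsto (fun w : ℝ => (GG S t w).re - w * lap (ss S t) w +
      (2 * w) * lap (ss S t) (2 * w)) (𝓝[>] 0) (𝓝 0) := by
  have hD := E.nonneg
  set g2 : S.X × ℕ → ℝ → ℂ := fun p w => if p.2 = 1 then 0 else gt S t p w with hg2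
  have hsum : Summable fun p : S.X × ℕ => (2 * D) * ((S.N p.1 : ℝ) ^ (-(3 / 2) : ℝ) *
      (3 / 4 : ℝ) ^ (p.2 - 2)) := prod_summable S (by norm_num) (2 * D) 2
  have key : Tendsto (fun w : ℝ => ∑' p : S.X × ℕ, g2 p w) (𝓝[>] 0)
      (𝓝 (∑' _ : S.X × ℕ, (0 : ℂ))) := by
    refine tendsto_tsum_of_dominated_convergence hsum (fun p => ?_) ?_
    · by_cases hp : p.2 = 1
      · simp only [hg2, if_pos hp]
        exact tendsto_const_nhds
      · simp only [hg2, if_neg hp]
        unfold gt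
        have h1 := xx_tendsto (S := S) p.1
        have h2 := (h1.sub (h1.pow (p.2 + 1))).const_mul
          (-((t p.1 (p.2 + 1) : ℂ) / (p.2 + 1)))
        rwa [one_pow, sub_self, mul_zero] at h2
    · filter_upwards [self_mem_nhdsWithin] with w hw p
      have hw0 : (0 : ℝ) < w := hw
      obtain ⟨x, m⟩ := p
      match m with
      | 0 =>
        simp only [hg2]
        rw [if_neg (by norm_num), TData.gt_zero, norm_zero]
        positivity
      | 1 =>
        simp only [hg2]
        rw [if_pos trivial, norm_zero]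
        positivity
      | (m + 2) =>
        simp only [hg2]
        rw [if_neg (by omega)]
        refine (E.gt_abs (x, m + 2) le_rfl (by simpa using hw0.le)).trans ?_
        rw [neg_zero, Real.rpow_zero, mul_one]
        have e2 := pow_hh_le (S := S) x (show 2 ≤ m + 2 by omega)
        have e3 : hh S x ^ (2 + 1) = (S.N x : ℝ) ^ (-(3 / 2) : ℝ) := by
          unfold hh
          rw [← Real.rpow_natCast, ← Real.rpow_mul (S.N_pos x).le]
          norm_num
        rw [e3] at e2
        simp only []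
        calc D * hh S x ^ (m + 2 + 1) * 2 ≤
            D * ((S.N x : ℝ) ^ (-(3 / 2) : ℝ) * (3 / 4 : ℝ) ^ (m + 2 - 2)) * 2 := by gcongr
          _ = _ := by ring
  rw [tsum_zero] at key
  have h5 := (Complex.continuous_re.tendsto 0).comp key
  rw [Complex.zero_re] at h5
  refine h5.congr' ?_
  filter_upwards [self_mem_nhdsWithin] with w hw
  have hw0 : (0 : ℝ) < w := hw
  simp only [Function.comp_apply]
  have h1 := (E.gt_summable (w := w) (by simpa using hw0)).hasSum
  have h2 := E.mm_hasSum hw0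
  -- embed `h2` in the product
  have h3 : HasSum (fun p : S.X × ℕ => if p.2 = 1 then gt S t p w else 0)
      ((w * lap (ss S t) w - (2 * w) * lap (ss S t) (2 * w) : ℝ) : ℂ) := by
    have hinj : Function.Injective (fun x : S.X => ((x, 1) : S.X × ℕ)) := fun x y h => by
      simpa using h
    rw [← hinj.hasSum_iff]
    · refine h2.congr_fun fun x => ?_
      simp only [Function.comp_apply, if_true]
      rw [gt_real]
      unfold mm
      norm_num
    · rintro ⟨x, m⟩ hp
      have : m ≠ 1 := fun h => hp ⟨x, by rw [h]⟩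
      simp only []
      rw [if_neg this]
  have h4 := h1.sub h3
  have h6 : (fun p : S.X × ℕ => gt S t p w - if p.2 = 1 then gt S t p w else 0) =
      fun p => g2 p w := by
    funext p
    simp only [hg2]
    split_ifs <;> simp
  rw [h6] at h4
  rw [h4.tsum_eq, Complex.sub_re, Complex.ofReal_re]
  have : (∑' b : S.X × ℕ, gt S t b (w : ℂ)) = GG S t w := rfl
  rw [this]
  ring

/-- sums of `1/N` over `(√y, y]` are bounded -/
theorem window_bounded (S : NormSys) : ∃ C : ℝ, ∃ u0 : ℝ, 0 < u0 ∧ ∀ u : ℝ, u0 ≤ u →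
    ∑' x : S.X, (S.N x : ℝ) ^ (-1 : ℝ) *
      (if u / 2 < Real.log (S.N x) ∧ Real.log (S.N x) ≤ u then 1 else 0) ≤ C := by
  obtain ⟨C, hC⟩ := lam_diff S
  obtain ⟨δ, hδ, hδ'⟩ := mem_nhdsGT_iff_exists_Ioo_subset.mp hC
  have hδ0 : (0 : ℝ) < δ := hδ
  set κ : ℝ := Real.exp (-1) * (1 - Real.exp (-(1 / 2))) with hκ
  have hκ0 : 0 < κ := by
    have : Real.exp (-(1 / 2) : ℝ) < 1 := by rw [Real.exp_lt_one_iff]; norm_num
    have h2 := Real.exp_pos (-1)
    exact mul_pos h2 (by linarith)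
  refine ⟨C / κ, 2 / δ, by positivity, fun u hu => ?_⟩
  have hu0 : 0 < u := lt_of_lt_of_le (by positivity) hu
  have hw : 1 / u ∈ Ioo 0 δ := by
    refine ⟨by positivity, ?_⟩
    rw [div_lt_iff₀ hu0]
    rw [div_le_iff₀ hδ0] at hu
    linarith
  have h1 : S.lam (1 / u) - S.lam (2 * (1 / u)) ≤ C := hδ' hw
  set w := 1 / u with hwdef
  have hw0 : 0 < w := hw.1
  have hlamw : Summable fun x : S.X => (S.N x : ℝ) ^ (-(1 + w)) := S.summable _ (by linarith)
  have hlam2 : Summable fun x : S.X => (S.N x : ℝ) ^ (-(1 + 2 * w)) := S.summable _ (by linarith)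
  have hle : ∀ x : S.X, κ * ((S.N x : ℝ) ^ (-1 : ℝ) *
      (if u / 2 < Real.log (S.N x) ∧ Real.log (S.N x) ≤ u then 1 else 0)) ≤
      (S.N x : ℝ) ^ (-(1 + w)) - (S.N x : ℝ) ^ (-(1 + 2 * w)) := by
    intro x
    have hN := S.N_pos x
    have e4 : (S.N x : ℝ) ^ (-(1 + w)) - (S.N x : ℝ) ^ (-(1 + 2 * w)) =
        (S.N x : ℝ) ^ (-1 : ℝ) * (Real.exp (-(w * Real.log (S.N x))) *
          (1 - Real.exp (-(w * Real.log (S.N x))))) := by
      have e5 : Real.exp (-(w * Real.log (S.N x))) = (S.N x : ℝ) ^ (-w) := by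
        rw [Real.rpow_def_of_pos hN]; congr 1; ring
      rw [e5, mul_sub, mul_one, ← Real.rpow_add hN, mul_sub, ← Real.rpow_add hN,
        ← Real.rpow_add hN]
      congr 2 <;> ring
    rw [e4]
    split_ifs with h
    · rw [mul_one, mul_comm κ]
      refine mul_le_mul_of_nonneg_left ?_ (by positivity)
      have h2 : w * Real.log (S.N x) ≤ 1 := by
        rw [hwdef, one_div, inv_mul_le_iff₀ hu0, mul_one]; exact h.2
      have h3 : 1 / 2 ≤ w * Real.log (S.N x) := by
        rw [hwdef, one_div u, ← div_eq_inv_mul, le_div_iff₀ hu0]; linarith [h.1]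
      rw [hκ]
      refine mul_le_mul (Real.exp_le_exp.mpr (by linarith)) ?_ ?_ (Real.exp_pos _).le
      · have := Real.exp_le_exp.mpr (show -(w * Real.log (S.N x)) ≤ -(1 / 2) by linarith)
        linarith
      · have : Real.exp (-(1 / 2) : ℝ) < 1 := by rw [Real.exp_lt_one_iff]; norm_num
        linarith
    · rw [mul_zero, mul_zero]
      have h2 : 0 ≤ w * Real.log (S.N x) :=
        mul_nonneg hw0.le (Real.log_nonneg (by linarith [N_real_two x]))
      have h3 : Real.exp (-(w * Real.log (S.N x))) ≤ 1 := by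
        rw [Real.exp_le_one_iff]; linarith
      have h4 := Real.exp_pos (-(w * Real.log (S.N x)))
      have h5 : 0 ≤ 1 - Real.exp (-(w * Real.log (S.N x))) := by linarith
      positivity
  have hs := hlamw.sub hlam2
  have h2 : Summable fun x : S.X => κ * ((S.N x : ℝ) ^ (-1 : ℝ) *
      (if u / 2 < Real.log (S.N x) ∧ Real.log (S.N x) ≤ u then 1 else 0)) :=
    Summable.of_nonneg_of_le (fun x => by positivity) hle hs
  have h3 := h2.tsum_le_tsum hle hs
  rw [hlamw.tsum_sub hlam2, tsum_mul_left] at h3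
  rw [le_div_iff₀ hκ0, mul_comm]
  exact h3.trans h1

theorem TData.sc_eq (E : TData S t D) {u : ℝ} (hu : 0 ≤ u) : sc S t u =
    ∑ x ∈ (le_finite S.N (S.summable (-2) (by norm_num)) S.two_le ⌊Real.exp u⌋₊).toFinset,
      mm S t x * (if u / 2 < Real.log (S.N x) ∧ Real.log (S.N x) ≤ u then 1 else 0) := by
  unfold sc ss
  rw [stp_fib S.N (S.summable (-2) (by norm_num)) S.two_le,
    stp_fib S.N (S.summable (-2) (by norm_num)) S.two_le]
  have hle : ⌊Real.exp (u / 2)⌋₊ ≤ ⌊Real.exp u⌋₊ :=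
    Nat.floor_le_floor (Real.exp_le_exp.mpr (by linarith))
  have hmem : ∀ (v : ℝ) (x : S.X), S.N x ≤ ⌊Real.exp v⌋₊ ↔ Real.log (S.N x) ≤ v := by
    intro v x
    rw [Nat.le_floor_iff (Real.exp_pos v).le, Real.log_le_iff_le_exp (S.N_pos x)]
  set A := (le_finite S.N (S.summable (-2) (by norm_num)) S.two_le ⌊Real.exp u⌋₊).toFinset with hA
  set B := (le_finite S.N (S.summable (-2) (by norm_num)) S.two_le ⌊Real.exp (u / 2)⌋₊).toFinset
    with hB
  have hsub : B ⊆ A := by
    intro x hx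
    rw [hB, Set.Finite.mem_toFinset] at hx
    rw [hA, Set.Finite.mem_toFinset]
    exact le_trans hx hle
  rw [← Finset.sum_sdiff hsub, add_sub_cancel_right]
  have h1 : ∀ x ∈ A \ B, mm S t x * (if u / 2 < Real.log (S.N x) ∧ Real.log (S.N x) ≤ u then 1
      else 0) = mm S t x := by
    intro x hx
    rw [Finset.mem_sdiff, hA, hB, Set.Finite.mem_toFinset, Set.Finite.mem_toFinset] at hx
    have h2 : Real.log (S.N x) ≤ u := (hmem u x).mp hx.1
    have h3 : ¬ Real.log (S.N x) ≤ u / 2 := fun h => hx.2 ((hmem (u / 2) x).mpr h)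
    rw [if_pos ⟨by linarith, h2⟩, mul_one]
  have h2 : ∀ x ∈ B, mm S t x * (if u / 2 < Real.log (S.N x) ∧ Real.log (S.N x) ≤ u then 1
      else 0) = 0 := by
    intro x hx
    rw [hB, Set.Finite.mem_toFinset] at hx
    have h3 : Real.log (S.N x) ≤ u / 2 := (hmem (u / 2) x).mp hx
    rw [if_neg (fun h => by linarith [h.1]), mul_zero]
  rw [← Finset.sum_sdiff hsub, Finset.sum_congr rfl h1, Finset.sum_eq_zero h2, add_zero]

theorem TData.sc_bounded (E : TData S t D) : ∃ M : ℝ, ∀ u, 0 < u → |sc S t u| ≤ M := by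
  have hD := E.nonneg
  obtain ⟨C, u0, hu0, hC⟩ := window_bounded S
  obtain ⟨B, hB0, hB⟩ := loc_sys S (c := mm S t) (w := 1) zero_le_one (E.mm_summable one_pos) u0
  refine ⟨max (D * C) (2 * B), fun u hu => ?_⟩
  rcases le_or_gt u0 u with h | h
  · refine le_trans ?_ (le_max_left _ _)
    rw [E.sc_eq hu.le]
    refine (Finset.abs_sum_le_sum_abs _ _).trans ?_
    have h1 : ∀ x ∈ (le_finite S.N (S.summable (-2) (by norm_num)) S.two_le
        ⌊Real.exp u⌋₊).toFinset,
        |mm S t x * (if u / 2 < Real.log (S.N x) ∧ Real.log (S.N x) ≤ u then 1 else 0)| ≤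
        D * ((S.N x : ℝ) ^ (-1 : ℝ) *
          (if u / 2 < Real.log (S.N x) ∧ Real.log (S.N x) ≤ u then 1 else 0)) := by
      intro x _
      rw [abs_mul, ← mul_assoc]
      have e1 : |(if u / 2 < Real.log (S.N x) ∧ Real.log (S.N x) ≤ u then (1 : ℝ) else 0)| =
          (if u / 2 < Real.log (S.N x) ∧ Real.log (S.N x) ≤ u then 1 else 0) := by
        split_ifs <;> simp
      rw [e1]
      refine mul_le_mul_of_nonneg_right (E.mm_le x) ?_
      split_ifs <;> norm_num
    refine (Finset.sum_le_sum h1).trans ?_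
    rw [← Finset.mul_sum]
    refine mul_le_mul_of_nonneg_left ?_ hD
    refine le_trans ?_ (hC u h)
    refine Summable.sum_le_tsum _ (fun x _ => ?_) ?_
    · positivity
    · refine summable_of_finite_support ?_
      refine (le_finite S.N (S.summable (-2) (by norm_num)) S.two_le ⌊Real.exp u⌋₊).subset ?_
      intro x hx
      rw [Function.mem_support] at hx
      have h2 : u / 2 < Real.log (S.N x) ∧ Real.log (S.N x) ≤ u := by
        by_contra hcon
        rw [if_neg hcon, mul_zero] at hx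
        exact hx rfl
      show S.N x ≤ ⌊Real.exp u⌋₊
      rw [Nat.le_floor_iff (Real.exp_pos u).le, ← Real.log_le_iff_le_exp (S.N_pos x)]
      exact h2.2
  · refine le_trans ?_ (le_max_right _ _)
    unfold sc ss
    refine (abs_sub _ _).trans ?_
    have e1 := hB u h.le
    have e2 := hB (u / 2) (by linarith)
    linarith

/-- the normalised logarithm of the product -/
noncomputable def ff (S : NormSys) (t : S.X → ℕ → ℝ) (r : ℕ) (u : ℝ) : ℝ :=
  aa S t u - sc S t u - r * ell u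

variable {r : ℕ} {c : ℝ} {Φ : ℂ → ℂ} {c0 : ℝ}

theorem ff_meas : Measurable (ff S t r) :=
  ((stp_meas _).sub sc_meas).sub (ell_meas.const_mul _)

theorem TData.ff_LInt (E : TData S t D) (hconv : ∀ w > 0, LInt (aa S t) w) {w : ℝ} (hw : 0 < w) :
    LInt (ff S t r) w :=
  ((hconv w hw).sub (E.sc_LInt hw)).sub ((ell_LInt hw).const_mul _)

/-- **The Abel limit.** -/
theorem TData.abel_limit (E : TData S t D) (P : DataU 1 (aa S t) Φ (GG S t) c0)
    (hconv : ∀ w > 0, LInt (aa S t) w) (hc0 : 0 < c)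
    (hc : Tendsto (fun w : ℝ => ‖Φ w‖ / w ^ r) (𝓝[>] 0) (𝓝 c)) :
    Tendsto (fun w : ℝ => w * lap (ff S t r) w) (𝓝[>] 0)
      (𝓝 (-Real.log c + r * Real.eulerMascheroniConstant)) := by
  have h1 : Tendsto (fun w : ℝ => Real.log (‖Φ w‖ / w ^ r)) (𝓝[>] 0) (𝓝 (Real.log c)) :=
    hc.log hc0.ne'
  have h2 := (E.G3.sub h1).sub (ell_lap_limit.const_mul (r : ℝ))
  have h3 : (0 - Real.log c - (r : ℝ) * (-Real.eulerMascheroniConstant)) =
    -Real.log c + r * Real.eulerMascheroniConstant := by ring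
  rw [h3] at h2
  refine h2.congr' ?_
  filter_upwards [self_mem_nhdsWithin] with w hw
  have hw0 : (0 : ℝ) < w := hw
  have h4 := P.real_eq le_rfl hconv hw0
  rw [h4, Complex.norm_real, Real.norm_of_nonneg (Real.exp_pos _).le,
    Real.log_div (Real.exp_pos _).ne' (pow_pos hw0 _).ne', Real.log_exp, Real.log_pow, pow_one]
  have h5 : lap (ff S t r) w = lap (aa S t) w - lap (sc S t) w - r * lap ell w := by
    unfold ff
    rw [lap_sub ((hconv w hw0).sub (E.sc_LInt hw0)) ((ell_LInt hw0).const_mul _),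
      lap_sub (hconv w hw0) (E.sc_LInt hw0), lap_const_mul]
  have h6 : lap (sc S t) w = lap (ss S t) w - lap (fun u => ss S t (u / 2)) w := by
    unfold sc
    rw [lap_sub (E.ss_LInt hw0) (LInt_half (E.ss_LInt (by linarith)))]
  have h7 := lap_half (f := ss S t) (w := w)
  rw [h5, h6]
  linear_combination -h7

theorem TData.conv_of_ff_le (E : TData S t D) (P : DataU 1 (aa S t) Φ (GG S t) c0) {B : ℝ}
    (hle : ∀ᶠ u in atTop, ff S t r u ≤ B) : ∀ w > 0, LInt (aa S t) w := by
  obtain ⟨M, hM⟩ := E.sc_bounded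
  refine P.conv_of_upper fun δ hδ => ?_
  filter_upwards [hle, sqrt_sub_exp (B + M + r) (2 * r) hδ, eventually_ge_atTop 2] with u h1 h2 h4
  have h6 := (abs_le.mp (hM u (by linarith))).2
  have h8 : (r : ℝ) * ell u ≤ r * (2 * √u + 1) :=
    mul_le_mul_of_nonneg_left (ell_sqrt h4) (by positivity)
  unfold ff at h1
  linarith

theorem TData.conv_of_ff_ge (E : TData S t D) (P : DataU 1 (aa S t) Φ (GG S t) c0)
    (hne : ∀ w : ℝ, 0 < w → Φ w ≠ 0) {B : ℝ}
    (hle : ∀ᶠ u in atTop, B ≤ ff S t r u) : ∀ w > 0, LInt (aa S t) w := by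
  obtain ⟨M, hM⟩ := E.sc_bounded
  refine P.conv_of_lower hne fun δ hδ => ?_
  filter_upwards [hle, sqrt_sub_exp (-B + M) 0 hδ, eventually_ge_atTop 2] with u h1 h2 h4
  have h6 := (abs_le.mp (hM u (by linarith))).1
  have h8 : 0 ≤ (r : ℝ) * ell u := mul_nonneg (by positivity)
    (by linarith [ell_nonneg (show 0 ≤ u by linarith)])
  unfold ff at h1
  linarith

theorem TData.ff_loc (E : TData S t D) (P : DataU 1 (aa S t) Φ (GG S t) c0) (U : ℝ) :
    ∃ B : ℝ, 0 ≤ B ∧ ∀ u, 0 < u → u ≤ U → |ff S t r u| ≤ B := by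
  obtain ⟨M, hM⟩ := E.sc_bounded
  obtain ⟨B, hB⟩ := P.locr (r := r) U
  refine ⟨|M| + |B|, by positivity, fun u hu huU => ?_⟩
  have h1 : ff S t r u = (aa S t u - r * ell u) - sc S t u := by unfold ff; ring
  rw [h1]
  refine (abs_sub _ _).trans ?_
  have e1 := hB u hu huU
  have e2 := hM u hu
  have e3 := le_abs_self M
  have e4 := le_abs_self B
  linarith

/-- **The upper limit is at least the constant.** -/
theorem TData.bracket_upper (E : TData S t D) (P : DataU 1 (aa S t) Φ (GG S t) c0) (hc0 : 0 < c)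
    (hc : Tendsto (fun w : ℝ => ‖Φ w‖ / w ^ r) (𝓝[>] 0) (𝓝 c)) {ε : ℝ} (hε : 0 < ε) :
    ∃ᶠ u in atTop, -Real.log c + r * Real.eulerMascheroniConstant - ε < ff S t r u := by
  by_contra hcon
  rw [not_frequently] at hcon
  have hle : ∀ᶠ u in atTop, ff S t r u ≤ -Real.log c + r * Real.eulerMascheroniConstant - ε :=
    hcon.mono fun u hu => not_lt.mp hu
  have hconv := E.conv_of_ff_le P hle
  obtain ⟨U, hU⟩ := eventually_atTop.mp hle
  obtain ⟨B, hB0, hB⟩ := E.ff_loc P (r := r) (max U 0)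
  have h1 := abel_le (fun w hw => E.ff_LInt (r := r) hconv hw) (le_max_right U 0) hB0
    (E.abel_limit P hconv hc0 hc) (fun u hu => hU u ((le_max_left _ _).trans hu.le))
    (fun u hu huU => (abs_le.mp (hB u hu huU)).2)
  linarith

/-- **The lower limit is at most the constant,** if there are no positive zeros. -/
theorem TData.bracket_lower (E : TData S t D) (P : DataU 1 (aa S t) Φ (GG S t) c0) (hc0 : 0 < c)
    (hne : ∀ w : ℝ, 0 < w → Φ w ≠ 0)
    (hc : Tendsto (fun w : ℝ => ‖Φ w‖ / w ^ r) (𝓝[>] 0) (𝓝 c)) {ε : ℝ} (hε : 0 < ε) :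
    ∃ᶠ u in atTop, ff S t r u < -Real.log c + r * Real.eulerMascheroniConstant + ε := by
  by_contra hcon
  rw [not_frequently] at hcon
  have hle : ∀ᶠ u in atTop, -Real.log c + r * Real.eulerMascheroniConstant + ε ≤ ff S t r u :=
    hcon.mono fun u hu => not_lt.mp hu
  have hconv := E.conv_of_ff_ge P hne hle
  obtain ⟨U, hU⟩ := eventually_atTop.mp hle
  obtain ⟨B, hB0, hB⟩ := E.ff_loc P (r := r) (max U 0)
  have hlim := (E.abel_limit P hconv hc0 hc).neg
  have h1 := abel_le (f := fun u => -ff S t r u) (fun w hw => (E.ff_LInt (r := r) hconv hw).neg)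
    (le_max_right U 0) hB0
    (C := -(-Real.log c + r * Real.eulerMascheroniConstant))
    (B := -(-Real.log c + r * Real.eulerMascheroniConstant + ε))
    (hlim.congr fun w => by rw [lap_neg']; ring)
    (fun u hu => neg_le_neg (hU u ((le_max_left _ _).trans hu.le)))
    (fun u hu huU => by
      have := (abs_le.mp (hB u hu huU)).1
      linarith)
  linarith

/-- **Pointwise asymptotics from upper slow variation.** -/
theorem TData.lead_upper (E : TData S t D) (P : DataU 1 (aa S t) Φ (GG S t) c0) (hc0 : 0 < c)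
    (hc : Tendsto (fun w : ℝ => ‖Φ w‖ / w ^ r) (𝓝[>] 0) (𝓝 c))
    (hslow : ∀ ε : ℝ, 0 < ε → ∃ δ : ℝ, 0 < δ ∧ ∃ u0 : ℝ, ∀ u v : ℝ, u0 ≤ u → u ≤ v →
      v ≤ (1 + δ) * u → |sc S t v - sc S t u| ≤ ε)
    (h : ∀ ε > 0, ∃ δ > 0, ∃ u0 : ℝ, ∀ u v, u0 ≤ u → u ≤ v → v ≤ (1 + δ) * u →
      aa S t v ≤ aa S t u + ε) :
    (∀ w > 0, LInt (aa S t) w) ∧
    Tendsto (ff S t r) atTop (𝓝 (-Real.log c + r * Real.eulerMascheroniConstant)) := by
  obtain ⟨K, u0, hK, hu0, hd⟩ := doubling_of_slow h
  obtain ⟨hconv, M, hM⟩ := P.order_of_upper E.GG_bound (log_lim hc0 hc) hK hu0 hd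
  obtain ⟨M', hM'⟩ := E.sc_bounded
  refine ⟨hconv, ?_⟩
  refine tauber_limit ff_meas (fun w hw => E.ff_LInt hconv hw) (M := M + M') (fun u hu => ?_)
    (E.abel_limit P hconv hc0 hc) ?_
  · have h1 := hM u hu
    have h2 := hM' u hu
    have h3 : ff S t r u = (aa S t u - r * ell u) - sc S t u := by unfold ff; ring
    rw [h3]
    exact (abs_sub _ _).trans (add_le_add h1 h2)
  · intro ε hε
    obtain ⟨δ1, hδ1, u1, h1⟩ := h (ε / 2) (half_pos hε)
    obtain ⟨δ2, hδ2, u2, h2⟩ := hslow (ε / 2) (half_pos hε)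
    refine ⟨min δ1 δ2, lt_min hδ1 hδ2, max 1 (max u1 u2), fun u v h3 h4 h5 => ?_⟩
    have hu1 : 1 ≤ u := (le_max_left _ _).trans h3
    have hu0 : 0 < u := by linarith
    have e1 := h1 u v (((le_max_left _ _).trans (le_max_right _ _)).trans h3) h4
      (h5.trans (mul_le_mul_of_nonneg_right (by linarith [min_le_left δ1 δ2]) hu0.le))
    have e2 := h2 u v (((le_max_right _ _).trans (le_max_right _ _)).trans h3) h4
      (h5.trans (mul_le_mul_of_nonneg_right (by linarith [min_le_right δ1 δ2]) hu0.le))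
    have e3 := (abs_le.mp e2).1
    have e4 : (r : ℝ) * ell u ≤ r * ell v :=
      mul_le_mul_of_nonneg_left (ell_mono hu0.le h4) (by positivity)
    unfold ff
    linarith

/-- **Pointwise asymptotics from lower slow variation,** without positive zeros. -/
theorem TData.lead_lower (E : TData S t D) (P : DataU 1 (aa S t) Φ (GG S t) c0) (hc0 : 0 < c)
    (hne : ∀ w : ℝ, 0 < w → Φ w ≠ 0)
    (hc : Tendsto (fun w : ℝ => ‖Φ w‖ / w ^ r) (𝓝[>] 0) (𝓝 c))
    (hslow : ∀ ε : ℝ, 0 < ε → ∃ δ : ℝ, 0 < δ ∧ ∃ u0 : ℝ, ∀ u v : ℝ, u0 ≤ u → u ≤ v →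
      v ≤ (1 + δ) * u → |sc S t v - sc S t u| ≤ ε)
    (h : ∀ ε > 0, ∃ δ > 0, ∃ u0 : ℝ, ∀ u v, u0 ≤ u → u ≤ v → v ≤ (1 + δ) * u →
      aa S t u - ε ≤ aa S t v) :
    (∀ w > 0, LInt (aa S t) w) ∧
    Tendsto (ff S t r) atTop (𝓝 (-Real.log c + r * Real.eulerMascheroniConstant)) := by
  obtain ⟨K, u0, hK, hu0, hd⟩ := doubling_of_slow (a := fun u => -aa S t u) (fun ε hε => by
    obtain ⟨δ, hδ, u0, h1⟩ := h ε hε
    exact ⟨δ, hδ, u0, fun u v h2 h3 h4 => by
      have := h1 u v h2 h3 h4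
      linarith⟩)
  obtain ⟨hconv, M, hM⟩ := P.order_of_lower E.GG_bound (log_lim hc0 hc) hne hK hu0
    (fun u v h1 h2 h3 => by
      have := hd u v h1 h2 h3
      linarith)
  refine ⟨hconv, ?_⟩
  obtain ⟨M', hM'⟩ := E.sc_bounded
  have hmain : Tendsto (fun u => -ff S t r u) atTop
      (𝓝 (-(-Real.log c + r * Real.eulerMascheroniConstant))) := by
    refine tauber_limit (f := fun u => -ff S t r u) ff_meas.neg
      (fun w hw => (E.ff_LInt hconv hw).neg) (M := M + M')
      (fun u hu => ?_) ((E.abel_limit P hconv hc0 hc).neg.congr fun w => by rw [lap_neg']; ring) ?_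
    · have h1 := hM u hu
      have h2 := hM' u hu
      have h3 : ff S t r u = (aa S t u - r * ell u) - sc S t u := by unfold ff; ring
      rw [abs_neg, h3]
      exact (abs_sub _ _).trans (add_le_add h1 h2)
    · intro ε hε
      have hr0 : (0 : ℝ) < r + 1 := by positivity
      obtain ⟨δ1, hδ1, u1, h1⟩ := h (ε / 3) (by positivity)
      obtain ⟨δ2, hδ2, u2, h2⟩ := hslow (ε / 3) (by positivity)
      have hδ3 : 0 < ε / (3 * (r + 1)) := by positivity
      refine ⟨min (min δ1 δ2) (ε / (3 * (r + 1))), lt_min (lt_min hδ1 hδ2) hδ3,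
        max 1 (max u1 u2), fun u v h3 h4 h5 => ?_⟩
      have hu1 : 1 ≤ u := (le_max_left _ _).trans h3
      have hu0 : 0 < u := by linarith
      have m1 : min (min δ1 δ2) (ε / (3 * (r + 1))) ≤ δ1 := (min_le_left _ _).trans (min_le_left _ _)
      have m2 : min (min δ1 δ2) (ε / (3 * (r + 1))) ≤ δ2 := (min_le_left _ _).trans (min_le_right _ _)
      have m3 : min (min δ1 δ2) (ε / (3 * (r + 1))) ≤ ε / (3 * (r + 1)) := min_le_right _ _
      have e1 := h1 u v (((le_max_left _ _).trans (le_max_right _ _)).trans h3) h4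
        (h5.trans (mul_le_mul_of_nonneg_right (by linarith) hu0.le))
      have e2 := h2 u v (((le_max_right _ _).trans (le_max_right _ _)).trans h3) h4
        (h5.trans (mul_le_mul_of_nonneg_right (by linarith) hu0.le))
      have e3 := (abs_le.mp e2).2
      have e4 := ell_slow hδ3 hu0 h4
        (h5.trans (mul_le_mul_of_nonneg_right (by linarith) hu0.le))
      have e5 : (r : ℝ) * ell v ≤ r * (ell u + ε / (3 * (r + 1))) :=
        mul_le_mul_of_nonneg_left e4 (by positivity)
      have e6 : (r : ℝ) * (ε / (3 * (r + 1))) ≤ ε / 3 := by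
        rw [mul_div_assoc', div_le_div_iff₀ (by positivity) (by positivity)]
        nlinarith
      unfold ff
      linarith
  have := hmain.neg
  simpa using this

end Pool.Agent.W263.EP
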