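import Pool.Agent.W263.EP.IntU

/-! Riesz means and the weak order at the centre: analysis. -/

set_option autoImplicit false

namespace Pool.Agent.W263.EP

open MeasureTheory Filter Topology Set
open Pool.Agent.W263.BSD

variable {m : ℕ} {a : ℝ → ℝ} {Φ G : ℂ → ℂ} {c0 : ℝ}

theorem intU_abs {f : ℝ → ℝ} {U B : ℝ} (hB : ∀ u, 0 < u → u ≤ U → |f u| ≤ B) {u : ℝ}
    (hu : 0 < u) (huU : u ≤ U) : |intU f u| ≤ B * u := by
  unfold intU
  have h := norm_setIntegral_le_of_norm_le_const (μ := volume) (f := f) (s := Ioc 0 u) (C := B)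
    (by simp) (fun v hv => by
      rw [Real.norm_eq_abs]
      exact hB v hv.1 (hv.2.trans huU))
  rw [Real.norm_eq_abs] at h
  refine h.trans (le_of_eq ?_)
  simp [Measure.real, hu.le]

theorem DataU.intU (D : DataU m a Φ G c0) : DataU (m + 1) (intU a) Φ G c0 where
  meas := intU_meas D.meas
  c0_nonneg := D.c0_nonneg
  int := fun w hw => (lap_intU D.meas (lt_of_le_of_lt D.c0_nonneg hw) (D.int w hw)).1
  loc := fun U => by
    obtain ⟨B, hB⟩ := D.loc U
    refine ⟨|B| * |U|, fun u hu huU => ?_⟩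
    have h1 := intU_abs (fun u h1 h2 => (hB u h1 h2).trans (le_abs_self B)) hu huU
    refine h1.trans ?_
    exact mul_le_mul_of_nonneg_left (huU.trans (le_abs_self U)) (abs_nonneg B)
  hΦ := D.hΦ
  hG := D.hG
  hGre := D.hGre
  eq := fun w hw => by
    have hw0 : 0 < w := lt_of_le_of_lt D.c0_nonneg hw
    have hw' : (w : ℂ) ≠ 0 := by exact_mod_cast hw0.ne'
    rw [D.eq w hw, lapC_ofReal, lapC_ofReal, (lap_intU D.meas hw0 (D.int w hw)).2]
    congr 2
    push_cast
    field_simp
    ring

/-- iterated integrals -/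
noncomputable def ria (a : ℝ → ℝ) : ℕ → ℝ → ℝ
  | 0 => a
  | k + 1 => intU (ria a k)

theorem DataU.ria (D : DataU 1 a Φ G c0) (k : ℕ) : DataU (k + 1) (ria a k) Φ G c0 := by
  induction k with
  | zero => exact D
  | succ k ih => exact ih.intU

theorem ria_meas (ha : Measurable a) (k : ℕ) : Measurable (ria a k) := by
  induction k with
  | zero => exact ha
  | succ k ih => exact intU_meas ih

/-- the transforms of the iterated integrals -/
theorem ria_lap (ha : Measurable a) {w : ℝ} (hw : 0 < w) (h : LInt a w) (k : ℕ) :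
    LInt (ria a k) w ∧ w ^ k * lap (ria a k) w = lap a w := by
  induction k with
  | zero =>
    refine ⟨h, ?_⟩
    rw [pow_zero, one_mul]
    rfl
  | succ k ih =>
    obtain ⟨h1, h2⟩ := ih
    obtain ⟨h3, h4⟩ := lap_intU (ria_meas ha k) hw h1
    refine ⟨h3, ?_⟩
    have h5 : lap (ria a (k + 1)) w = lap (ria a k) w / w := h4
    rw [h5, ← h2, pow_succ]
    field_simp

/-- `log |Φ(w)| / log w → ρ` as `w → 0⁺` -/
def WO (Φ : ℂ → ℂ) (ρ : ℝ) : Prop :=
  Tendsto (fun w : ℝ => Real.log ‖Φ w‖ / Real.log w) (𝓝[>] 0) (𝓝 ρ)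

theorem neglog_atTop : Tendsto (fun w : ℝ => -Real.log w) (𝓝[>] 0) atTop :=
  tendsto_neg_atBot_atTop.comp Real.tendsto_log_nhdsGT_zero

theorem G_small (hGb : ∃ C : ℝ, ∀ᶠ w : ℝ in 𝓝[>] 0, |(G w).re| ≤ C) :
    Tendsto (fun w : ℝ => (G w).re / (-Real.log w)) (𝓝[>] 0) (𝓝 0) := by
  obtain ⟨C, hC⟩ := hGb
  refine log_div_tendsto (C := C) ?_
  filter_upwards [hC] with w h
  rw [zero_mul, sub_zero]
  exact h

/-- the order and the Laplace transform -/
theorem DataU.wo_iff {k : ℕ} (D : DataU (k + 1) a Φ G c0)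
    (hGb : ∃ C : ℝ, ∀ᶠ w : ℝ in 𝓝[>] 0, |(G w).re| ≤ C) (hconv : ∀ w > 0, LInt a w) {ρ : ℝ} :
    WO Φ ρ ↔ Tendsto (fun w : ℝ => w ^ (k + 1) * lap a w / (-Real.log w)) (𝓝[>] 0) (𝓝 ρ) := by
  have hG0 := G_small hGb
  have key : ∀ᶠ w : ℝ in 𝓝[>] 0, w ^ (k + 1) * lap a w / (-Real.log w) =
      (G w).re / (-Real.log w) + Real.log ‖Φ w‖ / Real.log w := by
    filter_upwards [Ioo_mem_nhdsGT (show (0 : ℝ) < 1 by norm_num)] with w hw
    have hw0 := hw.1
    have hl := Real.log_neg hw.1 hw.2
    rw [D.real_eq le_rfl hconv hw0, Complex.norm_real, Real.norm_of_nonneg (Real.exp_pos _).le,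
      Real.log_exp]
    field_simp
    ring
  constructor
  · intro h
    have h1 := hG0.add h
    rw [zero_add] at h1
    exact h1.congr' (key.mono fun w hw => hw.symm)
  · intro h
    have h1 := (h.congr' key).sub hG0
    rw [sub_zero] at h1
    exact h1.congr fun w => by ring

/-- **Tauberian theorem, weak order**: an upper bound forces the mean value. -/
theorem DataU.mean_weak {k : ℕ} (D : DataU (k + 1) a Φ G c0)
    (hGb : ∃ C : ℝ, ∀ᶠ w : ℝ in 𝓝[>] 0, |(G w).re| ≤ C) {ρ : ℝ} (hb : WO Φ ρ) {K : ℝ}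
    (h : ∀ᶠ u in atTop, a u ≤ K * (pk k u * Real.log u)) :
    (∀ w > 0, LInt a w) ∧
    Tendsto (fun U : ℝ => EP.intU a U / (pk (k + 1) U * Real.log U)) atTop (𝓝 ρ) := by
  have hconv : ∀ w > 0, LInt a w := by
    refine D.conv_of_upper fun ε hε => ?_
    filter_upwards [h, pk_log_le k K hε] with u h1 h2 using h1.trans h2
  refine ⟨hconv, ?_⟩
  have hlim := (D.wo_iff hGb hconv).mp hb
  obtain ⟨U, hU⟩ := eventually_atTop.mp h
  set V : ℝ := max U 1 with hV
  have hV1 : 1 ≤ V := le_max_right _ _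
  obtain ⟨B, hB⟩ := D.loc V
  set L : ℝ := |B| * Real.exp V with hL
  have hL0 : 0 ≤ L := by positivity
  set κ : ℝ → ℝ := fun u => |K| * pl k u + L * ex (-1) u with hκ
  have hκm : Measurable κ := ((pl_meas k).const_mul _).add ((ex_meas (-1)).const_mul _)
  have hκi : ∀ w > 0, LInt κ w := fun w hw =>
    ((pl_LInt k hw).const_mul _).add ((ex_LInt (show (-1 : ℝ) < w by linarith)).const_mul _)
  have hκ0 : ∀ u, 0 < u → 0 ≤ κ u := by
    intro u hu
    rw [hκ]
    simp only [ex, pl]
    have h1 := pk_nonneg k hu.le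
    have h2 := ell_nonneg hu.le
    have h3 : 0 ≤ ell u := by linarith
    positivity
  have hle : ∀ u, 0 < u → a u ≤ κ u := by
    intro u hu
    rw [hκ]
    simp only [ex, pl]
    have hpk := pk_nonneg k hu.le
    have hel : 0 ≤ ell u := by linarith [ell_nonneg hu.le]
    rcases le_or_gt V u with h2 | h2
    · have h3 := hU u ((le_max_left _ _).trans h2)
      have h5 : 0 ≤ L * Real.exp (-1 * u) := by positivity
      have h6 : 0 ≤ pk k u * Real.log u := mul_nonneg hpk (Real.log_nonneg (by linarith))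
      have h7 : K * (pk k u * Real.log u) ≤ |K| * (pk k u * ell u) :=
        mul_le_mul (le_abs_self K) (mul_le_mul_of_nonneg_left (log_le_ell hu) hpk) h6 (abs_nonneg _)
      linarith
    · have h3 := (abs_le.mp (hB u hu h2.le)).2
      have h4 : |B| ≤ L * Real.exp (-1 * u) := by
        rw [hL, mul_assoc, ← Real.exp_add]
        have : 1 ≤ Real.exp (V + -1 * u) := Real.one_le_exp (by linarith)
        have h5 := abs_nonneg B
        nlinarith
      have h5 := le_abs_self B
      have h6 : 0 ≤ |K| * (pk k u * ell u) := by positivity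
      linarith
  -- Laplace transform of `κ`
  have hκlap : ∀ᶠ w : ℝ in 𝓝[>] 0, |w ^ (k + 1) * lap κ w - |K| * (-Real.log w)| ≤
      |K| * (Real.exp 1 + k + |ck k|) + L := by
    filter_upwards [Ioo_mem_nhdsGT (show (0 : ℝ) < 1 by norm_num)] with w hw
    have hw0 := hw.1
    have hwk : 0 < w ^ (k + 1) := pow_pos hw0 _
    have hwk1 : w ^ (k + 1) ≤ 1 := pow_le_one₀ hw0.le hw.2.le
    rw [hκ, lap_add ((pl_LInt k hw0).const_mul _)
      ((ex_LInt (show (-1 : ℝ) < w by linarith)).const_mul _), lap_const_mul, lap_const_mul,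
      ex_lap (show (-1 : ℝ) < w by linarith)]
    have e1 := pl_lap_le k hw0 hw.2.le
    have e2 := le_pl_lap k hw0
    have e3 : 0 ≤ 1 / (w - -1) ∧ 1 / (w - -1) ≤ 1 := by
      constructor
      · apply div_nonneg zero_le_one; linarith
      · rw [div_le_one (by linarith)]; linarith
    have e4 : 0 ≤ w ^ (k + 1) * (L * (1 / (w - -1))) ∧ w ^ (k + 1) * (L * (1 / (w - -1))) ≤ L := by
      constructor
      · exact mul_nonneg hwk.le (mul_nonneg hL0 e3.1)
      · calc w ^ (k + 1) * (L * (1 / (w - -1))) ≤ 1 * (L * 1) := by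
              have := e3.1
              have := e3.2
              gcongr
          _ = L := by ring
    have e5 : w ^ (k + 1) * (|K| * lap (pl k) w + L * (1 / (w - -1))) - |K| * (-Real.log w) =
        |K| * (w ^ (k + 1) * lap (pl k) w - -Real.log w) +
          w ^ (k + 1) * (L * (1 / (w - -1))) := by ring
    rw [e5]
    have e6 : |w ^ (k + 1) * lap (pl k) w - -Real.log w| ≤ Real.exp 1 + k + |ck k| := by
      rw [abs_le]
      constructor
      · have := le_abs_self (ck k)
        have := Real.exp_pos 1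
        have : (0 : ℝ) ≤ k := by positivity
        linarith
      · have := abs_nonneg (ck k)
        linarith
    refine (abs_add_le _ _).trans (add_le_add ?_ ?_)
    · rw [abs_mul, abs_abs]
      exact mul_le_mul_of_nonneg_left e6 (abs_nonneg _)
    · rw [abs_of_nonneg e4.1]; exact e4.2
  -- apply Karamata
  have hb0 : ∀ u, 0 < u → 0 ≤ κ u - a u := fun u hu => by have := hle u hu; linarith
  have hbi : ∀ w > 0, LInt (fun u => κ u - a u) w := fun w hw => (hκi w hw).sub (hconv w hw)
  have hbm : Measurable fun u => κ u - a u := hκm.sub D.meas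
  have hk1 := karamata k hκm hκ0 hκi (log_div_tendsto hκlap)
  have hk2 : Tendsto (fun U : ℝ => (∫ u in Ioc 0 U, (κ u - a u)) /
      (U ^ (k + 1) / (k + 1).factorial * Real.log U)) atTop (𝓝 (|K| - ρ)) := by
    refine karamata k hbm hb0 hbi ?_
    refine ((log_div_tendsto hκlap).sub hlim).congr' ?_
    filter_upwards [self_mem_nhdsWithin] with w h3
    have hw : (0 : ℝ) < w := h3
    rw [lap_sub (hκi w hw) (hconv w hw)]
    ring
  have hk3 := hk1.sub hk2
  rw [sub_sub_cancel] at hk3
  refine hk3.congr fun U => ?_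
  rw [← sub_div, ← integral_sub (b_integrable hκm hκi U) (b_integrable hbm hbi U)]
  unfold EP.intU pk
  congr 2
  funext u
  ring

/-- the negative of a system -/
theorem DataU.neg (D : DataU m a Φ G c0) (hne : ∀ w : ℝ, 0 < w → Φ w ≠ 0) :
    DataU m (fun u => -a u) (fun z => (Φ z)⁻¹) (fun z => -G z) c0 where
  meas := D.meas.neg
  c0_nonneg := D.c0_nonneg
  int := fun w hw => (D.int w hw).neg
  loc := fun U => by
    obtain ⟨B, hB⟩ := D.loc U
    exact ⟨B, fun u h1 h2 => by rw [abs_neg]; exact hB u h1 h2⟩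
  hΦ := fun w hw => (D.hΦ w hw).inv (hne w hw)
  hG := fun z hz => (D.hG z hz).neg
  hGre := fun w hw => by rw [Complex.neg_im, D.hGre w hw, neg_zero]
  eq := fun w hw => by
    have e1 : lapC (fun u => -a u) w = -lapC a w := by
      rw [lapC_ofReal, lapC_ofReal]
      have := lap_const_mul (f := a) (w := w) (-1)
      simp only [neg_mul, one_mul] at this
      rw [this]
      push_cast; rfl
    rw [D.eq w hw, ← Complex.exp_neg, e1]
    congr 1
    ring

theorem intU_neg (f : ℝ → ℝ) (u : ℝ) : EP.intU (fun u => -f u) u = -EP.intU f u := by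
  unfold EP.intU
  rw [integral_neg]

theorem WO.inv {ρ : ℝ} (h : WO Φ ρ) : WO (fun z => (Φ z)⁻¹) (-ρ) := by
  refine h.neg.congr fun w => ?_
  simp only [norm_inv, Real.log_inv]
  ring

/-- a lower bound forces the mean value if there are no positive zeros -/
theorem DataU.mean_weak_lower {k : ℕ} (D : DataU (k + 1) a Φ G c0)
    (hGb : ∃ C : ℝ, ∀ᶠ w : ℝ in 𝓝[>] 0, |(G w).re| ≤ C) {ρ : ℝ} (hb : WO Φ ρ)
    (hne : ∀ w : ℝ, 0 < w → Φ w ≠ 0) {K : ℝ}
    (h : ∀ᶠ u in atTop, -(K * (pk k u * Real.log u)) ≤ a u) :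
    (∀ w > 0, LInt a w) ∧
    Tendsto (fun U : ℝ => EP.intU a U / (pk (k + 1) U * Real.log U)) atTop (𝓝 ρ) := by
  have hGb' : ∃ C : ℝ, ∀ᶠ w : ℝ in 𝓝[>] 0, |(-G w).re| ≤ C := by
    obtain ⟨C, hC⟩ := hGb
    refine ⟨C, hC.mono fun w hw => ?_⟩
    rw [Complex.neg_re, abs_neg]
    exact hw
  obtain ⟨h1, h2⟩ := (D.neg hne).mean_weak hGb' hb.inv (K := K) (by
    filter_upwards [h] with u hu
    linarith)
  refine ⟨fun w hw => ?_, ?_⟩
  · have h3 := (h1 w hw).neg
    have e : (fun u => - -a u) = a := by funext u; ring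
    rwa [e] at h3
  · have h3 := h2.neg
    rw [neg_neg] at h3
    refine h3.congr fun U => ?_
    rw [intU_neg]
    ring

/-- **Abelian theorem**: `a ~ ρ pk log` gives convergence and the weak order. -/
theorem abel_weak {k : ℕ} (ha : Measurable a)
    (hloc : ∀ U : ℝ, ∃ B : ℝ, ∀ u, 0 < u → u ≤ U → |a u| ≤ B) {ρ : ℝ}
    (h : Tendsto (fun u : ℝ => a u / (pk k u * Real.log u)) atTop (𝓝 ρ)) :
    (∀ w > 0, LInt a w) ∧
      Tendsto (fun w : ℝ => w ^ (k + 1) * lap a w / (-Real.log w)) (𝓝[>] 0) (𝓝 ρ) := by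
  -- for every `ε` there is `L` with `|a u - ρ pl k u| ≤ ε pl k u + L exp(-u)`
  have key : ∀ ε : ℝ, 0 < ε → ∃ L : ℝ, 0 ≤ L ∧ ∀ u, 0 < u →
      |a u - ρ * pl k u| ≤ ε * pl k u + L * ex (-1) u := by
    intro ε hε
    have h0 : Tendsto (fun u : ℝ => Real.log u / ell u) atTop (𝓝 1) := by
      have e1 : Tendsto (fun u : ℝ => 1 / Real.log u) atTop (𝓝 0) :=
        Real.tendsto_log_atTop.const_div_atTop 1
      have e2 : Tendsto (fun u : ℝ => 1 - 1 / Real.log u) atTop (𝓝 (1 - 0)) := e1.const_sub 1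
      rw [sub_zero] at e2
      refine tendsto_of_tendsto_of_tendsto_of_le_of_le' e2 tendsto_const_nhds ?_ ?_
      · filter_upwards [eventually_ge_atTop (Real.exp 1), eventually_ge_atTop 2] with u h1 h2
        have h3 : 1 ≤ Real.log u := by
          rw [Real.le_log_iff_exp_le (by linarith)]; exact h1
        have h4 := ell_le h2
        have h5 := log_le_ell (show 0 < u by linarith)
        have h6 : 0 < ell u := by linarith
        rw [le_div_iff₀ h6]
        have h7 : 1 / Real.log u * ell u ≥ 1 / Real.log u * Real.log u :=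
          mul_le_mul_of_nonneg_left h5 (by positivity)
        rw [one_div_mul_cancel (by linarith)] at h7
        linarith
      · filter_upwards [eventually_ge_atTop 2] with u h2
        have h5 := log_le_ell (show 0 < u by linarith)
        have h6 : 0 < ell u := by linarith [ell_nonneg (show 0 ≤ u by linarith)]
        rw [div_le_one h6]
        exact h5
    have h1 : Tendsto (fun u : ℝ => a u / pl k u) atTop (𝓝 (ρ * 1)) := by
      refine (h.mul h0).congr' ?_
      filter_upwards [eventually_gt_atTop 2] with u hu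
      have hu0 : 0 < u := by linarith
      have h2 : 0 < Real.log u := Real.log_pos (by linarith)
      have h3 : 0 < ell u := by linarith [ell_nonneg hu0.le]
      have h4 : 0 < pk k u := by unfold pk; positivity
      unfold pl
      field_simp
    rw [mul_one] at h1
    have h2 := (tendsto_order.mp h1)
    obtain ⟨U, hU⟩ := eventually_atTop.mp ((h2.1 (ρ - ε) (by linarith)).and
      (h2.2 (ρ + ε) (by linarith)))
    set V := max U 1 with hV
    obtain ⟨B, hB⟩ := hloc V
    obtain ⟨B', hB'⟩ : ∃ B' : ℝ, ∀ u, 0 < u → u ≤ V → |ρ * pl k u| ≤ B' := by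
      refine ⟨|ρ| * (pk k V * ell V), fun u hu huV => ?_⟩
      unfold pl
      have e1 : pk k u ≤ pk k V := by unfold pk; gcongr
      have e2 := ell_mono hu.le huV
      have e3 := pk_nonneg k hu.le
      have e4 := pk_nonneg k (hu.le.trans huV)
      have e5 := ell_nonneg hu.le
      rw [abs_mul, abs_of_nonneg (mul_nonneg e3 (by linarith))]
      exact mul_le_mul_of_nonneg_left (mul_le_mul e1 e2 (by linarith) e4) (abs_nonneg _)
    refine ⟨(|B| + |B'|) * Real.exp V, by positivity, fun u hu => ?_⟩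
    have e3 := pk_nonneg k hu.le
    have e5 := ell_nonneg hu.le
    have e6 : 0 ≤ pl k u := mul_nonneg e3 (by linarith)
    rcases le_or_gt V u with h3 | h3
    · have hu1 : 1 ≤ u := (le_max_right _ _).trans h3
      obtain ⟨h4, h5⟩ := hU u ((le_max_left _ _).trans h3)
      have h6 : 0 < pk k u := by unfold pk; positivity
      have h7 : 0 < pl k u := mul_pos h6 (by linarith)
      rw [lt_div_iff₀ h7] at h4
      rw [div_lt_iff₀ h7] at h5
      have h8 : 0 ≤ (|B| + |B'|) * Real.exp V * ex (-1) u := by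
        unfold ex; positivity
      rw [abs_le]
      constructor <;> linarith
    · have h4 := hB u hu h3.le
      have h5 := hB' u hu h3.le
      have h6 : |B| + |B'| ≤ (|B| + |B'|) * Real.exp V * ex (-1) u := by
        unfold ex
        rw [mul_assoc, ← Real.exp_add]
        have h7 : 1 ≤ Real.exp (V + -1 * u) := Real.one_le_exp (by linarith)
        have h8 : 0 ≤ |B| + |B'| := by positivity
        nlinarith
      have h9 := (abs_sub (a u) (ρ * pl k u))
      have h10 := le_abs_self B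
      have h11 := le_abs_self B'
      have h12 : 0 ≤ ε * pl k u := by positivity
      linarith
  have hconv : ∀ w > 0, LInt a w := by
    intro w hw
    obtain ⟨L, hL0, hL⟩ := key 1 one_pos
    refine LInt.of_bound ha (((pl_LInt k hw).const_mul (|ρ| + 1)).add
      ((ex_LInt (show (-1 : ℝ) < w by linarith)).const_mul L)) fun u hu => ?_
    have h1 := hL u hu
    have e3 := pk_nonneg k hu.le
    have e5 := ell_nonneg hu.le
    have e6 : 0 ≤ pl k u := mul_nonneg e3 (by linarith)
    have h2 : |a u| ≤ |a u - ρ * pl k u| + |ρ * pl k u| := by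
      have := abs_add_le (a u - ρ * pl k u) (ρ * pl k u)
      rwa [sub_add_cancel] at this
    rw [abs_mul, abs_of_nonneg e6] at h2
    linarith
  refine ⟨hconv, ?_⟩
  -- squeeze
  have hpl : Tendsto (fun w : ℝ => w ^ (k + 1) * lap (pl k) w / (-Real.log w)) (𝓝[>] 0) (𝓝 1) := by
    refine log_div_tendsto (C := Real.exp 1 + k + |ck k|) ?_
    filter_upwards [Ioo_mem_nhdsGT (show (0 : ℝ) < 1 by norm_num)] with w hw
    have e1 := pl_lap_le k hw.1 hw.2.le
    have e2 := le_pl_lap k hw.1
    rw [one_mul, abs_le]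
    constructor
    · have := le_abs_self (ck k)
      have := Real.exp_pos 1
      have : (0 : ℝ) ≤ k := by positivity
      linarith
    · have := abs_nonneg (ck k)
      linarith
  have hb : ∀ ε : ℝ, 0 < ε → ∀ᶠ w : ℝ in 𝓝[>] 0,
      |w ^ (k + 1) * lap a w / (-Real.log w) - ρ * (w ^ (k + 1) * lap (pl k) w / (-Real.log w))| ≤
        ε * (w ^ (k + 1) * lap (pl k) w / (-Real.log w)) + ε := by
    intro ε hε
    obtain ⟨L, hL0, hL⟩ := key ε hε
    have h1 : ∀ᶠ w : ℝ in 𝓝[>] 0, L / (-Real.log w) < ε :=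
      (neglog_atTop.const_div_atTop L).eventually (gt_mem_nhds hε)
    filter_upwards [h1, Ioo_mem_nhdsGT (show (0 : ℝ) < 1 by norm_num)] with w h2 h3
    have hw0 := h3.1
    have hlog : 0 < -Real.log w := by
      have := Real.log_neg h3.1 h3.2
      linarith
    have hwk : 0 < w ^ (k + 1) := pow_pos hw0 _
    have hwk1 : w ^ (k + 1) ≤ 1 := pow_le_one₀ hw0.le h3.2.le
    have e1 : |lap a w - ρ * lap (pl k) w| ≤ ε * lap (pl k) w + L * (1 / (w - -1)) := by
      have hI := (hconv w hw0).sub ((pl_LInt k hw0).const_mul ρ)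
      have hJ := ((pl_LInt k hw0).const_mul ε).add
        ((ex_LInt (show (-1 : ℝ) < w by linarith)).const_mul L)
      have l1 := lap_mono hI hJ (fun u hu => (abs_le.mp (hL u hu)).2)
      have l2 := lap_mono hJ.neg hI (fun u hu => (abs_le.mp (hL u hu)).1)
      have l3 : lap (fun u => -(ε * pl k u + L * ex (-1) u)) w =
          -(ε * lap (pl k) w + L * (1 / (w - -1))) := by
        have := lap_const_mul (f := fun u => ε * pl k u + L * ex (-1) u) (w := w) (-1)
        simp only [neg_mul, one_mul] at this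
        rw [this, lap_add ((pl_LInt k hw0).const_mul _)
          ((ex_LInt (show (-1 : ℝ) < w by linarith)).const_mul _), lap_const_mul, lap_const_mul,
          ex_lap (show (-1 : ℝ) < w by linarith)]
      rw [lap_sub (hconv w hw0) ((pl_LInt k hw0).const_mul ρ), lap_const_mul] at l1 l2
      rw [lap_add ((pl_LInt k hw0).const_mul _)
          ((ex_LInt (show (-1 : ℝ) < w by linarith)).const_mul _), lap_const_mul, lap_const_mul,
          ex_lap (show (-1 : ℝ) < w by linarith)] at l1
      rw [l3] at l2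
      exact abs_le.mpr ⟨l2, l1⟩
    have e3 : 0 ≤ 1 / (w - -1) ∧ 1 / (w - -1) ≤ 1 := by
      constructor
      · apply div_nonneg zero_le_one; linarith
      · rw [div_le_one (by linarith)]; linarith
    have e4 : w ^ (k + 1) * lap a w / (-Real.log w) -
        ρ * (w ^ (k + 1) * lap (pl k) w / (-Real.log w)) =
        w ^ (k + 1) * (lap a w - ρ * lap (pl k) w) / (-Real.log w) := by ring
    rw [e4, abs_div, abs_mul, abs_of_pos hwk, abs_of_pos hlog]
    have e5 : w ^ (k + 1) * |lap a w - ρ * lap (pl k) w| ≤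
        ε * (w ^ (k + 1) * lap (pl k) w) + L := by
      have h5 := mul_le_mul_of_nonneg_left e1 hwk.le
      have h6 : w ^ (k + 1) * (L * (1 / (w - -1))) ≤ L := by
        calc w ^ (k + 1) * (L * (1 / (w - -1))) ≤ 1 * (L * 1) := by
              have := e3.1
              have := e3.2
              gcongr
          _ = L := by ring
      linarith
    have e6 := div_le_div_of_nonneg_right e5 hlog.le
    refine e6.trans ?_
    rw [add_div, mul_div_assoc]
    linarith
  rw [Metric.tendsto_nhds]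
  intro ε hε
  have h1 := hb (ε / 8) (by positivity)
  have h2 : ∀ᶠ w : ℝ in 𝓝[>] 0, |w ^ (k + 1) * lap (pl k) w / (-Real.log w) - 1| <
      min 1 (ε / (4 * (|ρ| + 1))) := by
    have := (Metric.tendsto_nhds.mp hpl) (min 1 (ε / (4 * (|ρ| + 1)))) (by positivity)
    exact this
  filter_upwards [h1, h2] with w h3 h4
  rw [Real.dist_eq]
  set X := w ^ (k + 1) * lap a w / (-Real.log w) with hX
  set Y := w ^ (k + 1) * lap (pl k) w / (-Real.log w) with hY
  have h5 := lt_of_lt_of_le h4 (min_le_left _ _)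
  have h6 := lt_of_lt_of_le h4 (min_le_right _ _)
  have h7 : |ρ| * |Y - 1| ≤ ε / 4 := by
    have : |ρ| * |Y - 1| ≤ (|ρ| + 1) * (ε / (4 * (|ρ| + 1))) :=
      mul_le_mul (by linarith) h6.le (abs_nonneg _) (by positivity)
    refine this.trans (le_of_eq ?_)
    field_simp
  have h8 : |X - ρ| ≤ |X - ρ * Y| + |ρ * Y - ρ| := by
    have := abs_add_le (X - ρ * Y) (ρ * Y - ρ)
    rwa [sub_add_sub_cancel] at this
  have h9 : |ρ * Y - ρ| = |ρ| * |Y - 1| := by
    rw [← abs_mul]; congr 1; ring
  have h10 := (abs_lt.mp h5).2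
  have h11 : ε / 8 * Y + ε / 8 ≤ 3 * ε / 8 := by nlinarith
  linarith

end Pool.Agent.W263.EP
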