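import Pool.Agent.W263.EP.MeansSys

/-! Riesz means with bad factors, unconditional inequalities, meromorphic functions. -/

set_option autoImplicit false

namespace Pool.Agent.W263.EP

open MeasureTheory Filter Topology Set Classical
open Pool.Agent.W263.BSD
open Pool.Agent.H341R2 (NormSys)

section Data

variable {a : ℝ → ℝ} {Φ G : ℂ → ℂ} {c0 : ℝ} {k : ℕ}

/-- an eventual upper bound by `K pk log` bounds the order -/
theorem DataU.le_of_upper (D : DataU (k + 1) a Φ G c0)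
    (hGb : ∃ C : ℝ, ∀ᶠ w : ℝ in 𝓝[>] 0, |(G w).re| ≤ C) {ρ : ℝ} (hb : WO Φ ρ) {K : ℝ}
    (h : ∀ᶠ u in atTop, a u ≤ K * (pk k u * Real.log u)) : ρ ≤ K := by
  have hconv : ∀ w > 0, LInt a w := by
    refine D.conv_of_upper fun ε hε => ?_
    filter_upwards [h, pk_log_le k K hε] with u h1 h2 using h1.trans h2
  have hlim := (D.wo_iff hGb hconv).mp hb
  obtain ⟨U, hU⟩ := eventually_atTop.mp h
  set V : ℝ := max U 2 with hV
  have hV2 : 2 ≤ V := le_max_right _ _
  obtain ⟨B, hB⟩ := D.loc V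
  set B' : ℝ := |B| + |K| * (pk k V * ell V) with hB'
  have hpkV : 0 ≤ pk k V := pk_nonneg k (by linarith)
  have helV : 0 ≤ ell V := by linarith [ell_nonneg (show 0 ≤ V by linarith)]
  have hB'0 : 0 ≤ B' := by positivity
  set L : ℝ := B' * Real.exp V with hL
  have hL0 : 0 ≤ L := by positivity
  set κ : ℝ → ℝ := fun u => (K * pl k u + |K| * pk k u) + L * ex (-1) u with hκ
  have hκi : ∀ w > 0, LInt κ w := fun w hw =>
    (((pl_LInt k hw).const_mul _).add ((pk_LInt k hw).const_mul _)).add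
      ((ex_LInt (show (-1 : ℝ) < w by linarith)).const_mul _)
  have hle : ∀ u, 0 < u → a u ≤ κ u := by
    intro u hu
    rw [hκ]
    simp only [ex, pl]
    have hpk := pk_nonneg k hu.le
    have hel : 0 ≤ ell u := by linarith [ell_nonneg hu.le]
    rcases le_or_gt V u with h2 | h2
    · have h3 := hU u ((le_max_left _ _).trans h2)
      have h5 : 0 ≤ L * Real.exp (-1 * u) := by positivity
      have h6 : |ell u - Real.log u| ≤ 1 := by
        rw [abs_le]
        have e1 := log_le_ell hu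
        have e2 := ell_le (show 2 ≤ u by linarith)
        constructor <;> linarith
      have h7 : K * (pk k u * Real.log u) - K * (pk k u * ell u) ≤ |K| * pk k u := by
        have e1 : K * (pk k u * Real.log u) - K * (pk k u * ell u) =
            -(K * (ell u - Real.log u)) * pk k u := by ring
        rw [e1]
        refine mul_le_mul_of_nonneg_right ?_ hpk
        have e2 : |K * (ell u - Real.log u)| ≤ |K| * 1 := by
          rw [abs_mul]
          exact mul_le_mul_of_nonneg_left h6 (abs_nonneg _)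
        have e3 := neg_abs_le (K * (ell u - Real.log u))
        linarith
      linarith
    · have h3 := (abs_le.mp (hB u hu h2.le)).2
      have h4 : B' ≤ L * Real.exp (-1 * u) := by
        rw [hL, mul_assoc, ← Real.exp_add]
        have : 1 ≤ Real.exp (V + -1 * u) := Real.one_le_exp (by linarith)
        nlinarith
      have h5 := le_abs_self B
      have h6 : |K * (pk k u * ell u)| ≤ |K| * (pk k V * ell V) := by
        rw [abs_mul, abs_of_nonneg (mul_nonneg hpk hel)]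
        refine mul_le_mul_of_nonneg_left ?_ (abs_nonneg _)
        have e1 : pk k u ≤ pk k V := by unfold pk; gcongr
        exact mul_le_mul e1 (ell_mono hu.le h2.le) hel hpkV
      have h7 := (abs_le.mp h6).1
      have h8 : 0 ≤ |K| * pk k u := by positivity
      linarith
  have hpl : Tendsto (fun w : ℝ => w ^ (k + 1) * lap (pl k) w / (-Real.log w)) (𝓝[>] 0) (𝓝 1) := by
    refine log_div_tendsto (C := Real.exp 1 + k + |ck k|) ?_
    filter_upwards [Ioo_mem_nhdsGT (show (0 : ℝ) < 1 by norm_num)] with w hw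
    have e1 := pl_lap_le k hw.1 hw.2.le
    have e2 := le_pl_lap k hw.1
    rw [one_mul, abs_le]
    constructor
    · have := le_abs_self (ck k)
      have := Real.exp_pos 1
      have : (0 : ℝ) ≤ k := by positivity
      linarith
    · have := abs_nonneg (ck k)
      linarith
  have hR : Tendsto (fun w : ℝ => K * (w ^ (k + 1) * lap (pl k) w / (-Real.log w)) +
      (|K| + L) / (-Real.log w)) (𝓝[>] 0) (𝓝 (K * 1 + 0)) :=
    (hpl.const_mul K).add (neglog_atTop.const_div_atTop _)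
  rw [mul_one, add_zero] at hR
  refine le_of_tendsto_of_tendsto hlim hR ?_
  filter_upwards [Ioo_mem_nhdsGT (show (0 : ℝ) < 1 by norm_num)] with w h3
  have hw0 := h3.1
  have hlog : 0 < -Real.log w := by
    have := Real.log_neg h3.1 h3.2
    linarith
  have hwk : 0 < w ^ (k + 1) := pow_pos hw0 _
  have hwk1 : w ^ (k + 1) ≤ 1 := pow_le_one₀ hw0.le h3.2.le
  have h1 := lap_mono (hconv w hw0) (hκi w hw0) hle
  rw [hκ, lap_add (((pl_LInt k hw0).const_mul _).add ((pk_LInt k hw0).const_mul _))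
      ((ex_LInt (show (-1 : ℝ) < w by linarith)).const_mul _),
    lap_add ((pl_LInt k hw0).const_mul _) ((pk_LInt k hw0).const_mul _), lap_const_mul,
    lap_const_mul, lap_const_mul, ex_lap (show (-1 : ℝ) < w by linarith), pk_lap k hw0] at h1
  have e3 : 0 ≤ 1 / (w - -1) ∧ 1 / (w - -1) ≤ 1 := by
    constructor
    · apply div_nonneg zero_le_one; linarith
    · rw [div_le_one (by linarith)]; linarith
  have h6 : w ^ (k + 1) * (L * (1 / (w - -1))) ≤ L := by
    calc w ^ (k + 1) * (L * (1 / (w - -1))) ≤ 1 * (L * 1) := by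
          have := e3.1
          have := e3.2
          gcongr
      _ = L := by ring
  have h5 := mul_le_mul_of_nonneg_left h1 hwk.le
  have h7 : w ^ (k + 1) * (K * lap (pl k) w + |K| * (1 / w ^ (k + 1)) + L * (1 / (w - -1))) =
      K * (w ^ (k + 1) * lap (pl k) w) + |K| + w ^ (k + 1) * (L * (1 / (w - -1))) := by
    field_simp
  rw [h7] at h5
  have h8 : w ^ (k + 1) * lap a w ≤ K * (w ^ (k + 1) * lap (pl k) w) + (|K| + L) := by linarith
  have h9 := div_le_div_of_nonneg_right h8 hlog.le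
  refine h9.trans (le_of_eq ?_)
  rw [add_div]
  ring

/-- an eventual lower bound by `K pk log` bounds the order, without positive zeros -/
theorem DataU.ge_of_lower (D : DataU (k + 1) a Φ G c0)
    (hGb : ∃ C : ℝ, ∀ᶠ w : ℝ in 𝓝[>] 0, |(G w).re| ≤ C) {ρ : ℝ} (hb : WO Φ ρ)
    (hne : ∀ w : ℝ, 0 < w → Φ w ≠ 0) {K : ℝ}
    (h : ∀ᶠ u in atTop, K * (pk k u * Real.log u) ≤ a u) : K ≤ ρ := by
  have hGb' : ∃ C : ℝ, ∀ᶠ w : ℝ in 𝓝[>] 0, |(-G w).re| ≤ C := by
    obtain ⟨C, hC⟩ := hGb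
    refine ⟨C, hC.mono fun w hw => ?_⟩
    rw [Complex.neg_re, abs_neg]
    exact hw
  have h1 := (D.neg hne).le_of_upper hGb' hb.inv (K := -K) (by
    filter_upwards [h] with u hu
    linarith)
  linarith

end Data

section Mero

/-- the weak order of a meromorphic function -/
theorem wOrd_of_mero {F : ℂ → ℂ} {c : ℝ} {n : ℤ} (hF : MeromorphicAt F c)
    (hn : meromorphicOrderAt F c = n) : WOrd c F n := by
  obtain ⟨g, hg, hg0, he⟩ := (meromorphicOrderAt_eq_int_iff hF).mp hn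
  have h1 : ∀ᶠ s : ℝ in 𝓝[>] c, F s = ((s : ℂ) - c) ^ n • g s := (cast_tendsto c).eventually he
  have h2 : ContinuousAt (fun s : ℝ => g s) c :=
    ContinuousAt.comp (f := fun s : ℝ => (s : ℂ)) hg.continuousAt
      Complex.continuous_ofReal.continuousAt
  have hgc : ‖g c‖ ≠ 0 := norm_ne_zero_iff.mpr hg0
  have h3 : Tendsto (fun s : ℝ => Real.log ‖g s‖) (𝓝[>] c) (𝓝 (Real.log ‖g c‖)) :=
    (tendsto_nhdsWithin_of_tendsto_nhds h2.norm.tendsto).log hgc
  have h4 : Tendsto (fun s : ℝ => Real.log (s - c)) (𝓝[>] c) atBot :=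
    Real.tendsto_log_nhdsGT_zero.comp (shift_nhds' c)
  have h5 : Tendsto (fun s : ℝ => (n : ℝ) + Real.log ‖g s‖ / Real.log (s - c)) (𝓝[>] c)
      (𝓝 (n + 0)) := (h3.div_atBot h4).const_add _
  rw [add_zero] at h5
  refine h5.congr' ?_
  filter_upwards [h1, self_mem_nhdsWithin,
    (tendsto_nhdsWithin_of_tendsto_nhds h2.norm.tendsto).eventually_ne hgc,
    h4.eventually (eventually_lt_atBot 0)] with s h6 h7 h8 h9
  have hs : 0 < s - c := sub_pos.mpr h7
  rw [h6, smul_eq_mul, norm_mul, norm_zpow, ← Complex.ofReal_sub, Complex.norm_real,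
    Real.norm_of_nonneg hs.le, Real.log_mul (zpow_pos hs n).ne' h8, Real.log_zpow, add_div,
    mul_div_cancel_right₀ _ h9.ne]

theorem WOrd.mul {F H : ℂ → ℂ} {c : ℝ} {ρ : ℝ} (hF : WOrd c F ρ) (hc : ContinuousAt H c)
    (h0 : H c ≠ 0) : WOrd c (fun s => F s * H s) ρ := by
  have h2 : ContinuousAt (fun s : ℝ => H s) c :=
    ContinuousAt.comp (f := fun s : ℝ => (s : ℂ)) hc Complex.continuous_ofReal.continuousAt
  have hgc : ‖H c‖ ≠ 0 := norm_ne_zero_iff.mpr h0
  have h3 : Tendsto (fun s : ℝ => |Real.log ‖H s‖|) (𝓝[>] c) (𝓝 |Real.log ‖H c‖|) :=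
    ((tendsto_nhdsWithin_of_tendsto_nhds h2.norm.tendsto).log hgc).abs
  have h4 : Tendsto (fun s : ℝ => -Real.log (s - c)) (𝓝[>] c) atTop :=
    neglog_atTop.comp (shift_nhds' c)
  have h5 := h3.div_atTop h4
  have h6 : Tendsto (fun s : ℝ => Real.log ‖F s * H s‖ / Real.log (s - c) -
      Real.log ‖F s‖ / Real.log (s - c)) (𝓝[>] c) (𝓝 0) := by
    rw [tendsto_zero_iff_abs_tendsto_zero]
    refine squeeze_zero' (Eventually.of_forall fun s => abs_nonneg _) ?_ h5
    filter_upwards [h4.eventually (eventually_gt_atTop 0),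
      (tendsto_nhdsWithin_of_tendsto_nhds h2.norm.tendsto).eventually_ne hgc] with s h7 h8
    simp only [Function.comp]
    rw [← sub_div, abs_div, abs_of_neg (show Real.log (s - c) < 0 by linarith)]
    refine div_le_div_of_nonneg_right ?_ h7.le
    rcases eq_or_ne (F s) 0 with h9 | h9
    · rw [h9, zero_mul, sub_self, abs_zero]
      exact abs_nonneg _
    · rw [norm_mul, Real.log_mul (norm_ne_zero_iff.mpr h9) h8, add_sub_cancel_left]
  have h7 := h6.add hF
  rw [zero_add] at h7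
  exact h7.congr fun s => by ring

end Mero

section Gen

variable {S : NormSys} {Bs : Finset S.X} {B : S.X → Polynomial ℂ} {tr : S.X → ℕ → ℝ} {ω : ℝ}
  {D : ℝ} {F : ℂ → ℂ} {ρ : ℝ}

/-- **Riesz means and the weak order,** with arbitrary bad factors. -/
theorem means_tfaeB (E : TData S (tn S (Bs : Set S.X) tr ω) D)
    (hB : ∀ x ∈ Bs, ∀ s : ℂ, (ω + 1) / 2 ≤ s.re → (B x).eval (((S.N x : ℕ) : ℂ) ^ (-s)) ≠ 0)
    (ρ : ℝ) :
    List.TFAE [
      ∃ k : ℕ, Tendsto (fun x : ℝ => RK S (Bs : Set S.X) tr ω k x / Real.log (Real.log x)) atTop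
        (𝓝 ρ),
      (∃ F : ℂ → ℂ, IsContB S Bs B tr ω F ∧ WOrd ((ω + 1) / 2) F ρ) ∧
        ∃ (k : ℕ) (K : ℝ), ∀ᶠ x : ℝ in atTop,
          RK S (Bs : Set S.X) tr ω k x ≤ K * Real.log (Real.log x),
      (∃ F : ℂ → ℂ, IsContB S Bs B tr ω F ∧ WOrd ((ω + 1) / 2) F ρ ∧
        ∀ s : ℝ, (ω + 1) / 2 < s → F s ≠ 0) ∧
        ∃ (k : ℕ) (K : ℝ), ∀ᶠ x : ℝ in atTop,
          -(K * Real.log (Real.log x)) ≤ RK S (Bs : Set S.X) tr ω k x,
      (∃ F : ℂ → ℂ, IsFullB S Bs B tr ω F ∧ WOrd ((ω + 1) / 2) F ρ) ∧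
        ∃ (k : ℕ) (K : ℝ), ∀ᶠ x : ℝ in atTop,
          |RK S (Bs : Set S.X) tr ω k x| ≤ K * Real.log (Real.log x)] := by
  have hT := means_tfae E ρ
  have hBc : BB S Bs B (((ω + 1) / 2 : ℝ) : ℂ) ≠ 0 := BB_ne hB (by rw [Complex.ofReal_re])
  have hcont : ContinuousAt (BB S Bs B) (((ω + 1) / 2 : ℝ) : ℂ) := BB_diff.continuous.continuousAt
  tfae_have 1 → 4 := by
    intro h
    obtain ⟨⟨F, hF, hO⟩, hK⟩ := (hT.out 0 3).mp h
    refine ⟨⟨_, hF.isFullB E hB, ?_⟩, hK⟩
    exact hO.mul (hcont.inv₀ hBc) (inv_ne_zero hBc)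
  tfae_have 4 → 2 := by
    rintro ⟨⟨F, hF, hO⟩, k, K, hK⟩
    exact ⟨⟨F, hF.isContB, hO⟩, k, K, hK.mono fun x hx => (abs_le.mp hx).2⟩
  tfae_have 4 → 3 := by
    rintro ⟨⟨F, hF, hO⟩, k, K, hK⟩
    exact ⟨⟨F, hF.isContB, hO, fun s hs => hF.2.1 s (by simpa using hs)⟩, k, K,
      hK.mono fun x hx => (abs_le.mp hx).1⟩
  tfae_have 2 → 1 := by
    rintro ⟨⟨F, hF, hO⟩, hK⟩
    have key := hT.out 0 1
    exact key.mpr ⟨⟨_, hF.isCont E hB, hO.mul hcont hBc⟩, hK⟩
  tfae_have 3 → 1 := by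
    rintro ⟨⟨F, hF, hO, hne⟩, hK⟩
    have key := hT.out 0 2
    refine key.mpr ⟨⟨_, hF.isCont E hB, hO.mul hcont hBc, fun s hs => ?_⟩, hK⟩
    exact mul_ne_zero (hne s hs) (BB_ne hB (by simp only [Complex.ofReal_re]; linarith))
  tfae_finish

/-- the order lies below the upper growth exponent of all Riesz means -/
theorem means_upper (E : TData S (tn S (Bs : Set S.X) tr ω) D)
    (hB : ∀ x ∈ Bs, ∀ s : ℂ, (ω + 1) / 2 ≤ s.re → (B x).eval (((S.N x : ℕ) : ℂ) ^ (-s)) ≠ 0)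
    (hF : IsContB S Bs B tr ω F) (hO : WOrd ((ω + 1) / 2) F ρ) (k : ℕ) {σ : ℝ} (hσ : σ < ρ) :
    ∃ᶠ x : ℝ in atTop, σ * Real.log (Real.log x) < RK S (Bs : Set S.X) tr ω k x := by
  intro hcon
  have h1 : ∀ᶠ x : ℝ in atTop, RK S (Bs : Set S.X) tr ω k x ≤ σ * Real.log (Real.log x) :=
    hcon.mono fun x hx => not_lt.mp hx
  have hBc : BB S Bs B (((ω + 1) / 2 : ℝ) : ℂ) ≠ 0 := BB_ne hB (by rw [Complex.ofReal_re])
  have hcont : ContinuousAt (BB S Bs B) (((ω + 1) / 2 : ℝ) : ℂ) := BB_diff.continuous.continuousAt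
  have h2 := (((hF.isCont E hB).dataU E).ria k).le_of_upper E.GG_bound (hO.mul hcont hBc).shift
    (RK_upper h1)
  linarith

/-- the order lies above the lower growth exponent of all Riesz means, without real zeros -/
theorem means_lower (E : TData S (tn S (Bs : Set S.X) tr ω) D)
    (hB : ∀ x ∈ Bs, ∀ s : ℂ, (ω + 1) / 2 ≤ s.re → (B x).eval (((S.N x : ℕ) : ℂ) ^ (-s)) ≠ 0)
    (hF : IsContB S Bs B tr ω F) (hO : WOrd ((ω + 1) / 2) F ρ)
    (hne : ∀ s : ℝ, (ω + 1) / 2 < s → F s ≠ 0) (k : ℕ) {σ : ℝ} (hσ : ρ < σ) :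
    ∃ᶠ x : ℝ in atTop, RK S (Bs : Set S.X) tr ω k x < σ * Real.log (Real.log x) := by
  intro hcon
  have h1 : ∀ᶠ x : ℝ in atTop, -((-σ) * Real.log (Real.log x)) ≤ RK S (Bs : Set S.X) tr ω k x :=
    hcon.mono fun x hx => by linarith [not_lt.mp hx]
  have hBc : BB S Bs B (((ω + 1) / 2 : ℝ) : ℂ) ≠ 0 := BB_ne hB (by rw [Complex.ofReal_re])
  have hcont : ContinuousAt (BB S Bs B) (((ω + 1) / 2 : ℝ) : ℂ) := BB_diff.continuous.continuousAt
  have h3 := RK_lower h1
  have h2 := (((hF.isCont E hB).dataU E).ria k).ge_of_lower E.GG_bound (hO.mul hcont hBc).shift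
    (Phi_ne (F := fun s => F s * BB S Bs B s) fun s hs => mul_ne_zero (hne s hs)
      (BB_ne hB (by simp only [Complex.ofReal_re]; linarith))) (K := σ)
    (h3.mono fun u hu => by linarith)
  linarith

end Gen

end Pool.Agent.W263.EP
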