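import Pool.Agent.W263.EP.Means

/-! Riesz means of the logarithms of the local factors. -/

set_option autoImplicit false

namespace Pool.Agent.W263.EP

open MeasureTheory Filter Topology Set Classical
open Pool.Agent.W263.BSD
open Pool.Agent.H341R2 (NormSys)

theorem int_pow {L u : ℝ} (hL : 0 < L) (hLu : L ≤ u) (k : ℕ) :
    IntegrableOn (fun v => (Ici L).indicator (fun v => (v - L) ^ k / (k.factorial : ℝ)) v)
      (Ioc 0 u) ∧
    ∫ v in Ioc 0 u, (Ici L).indicator (fun v => (v - L) ^ k / (k.factorial : ℝ)) v =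
      (u - L) ^ (k + 1) / ((k + 1).factorial : ℝ) := by
  have hc : Continuous fun v : ℝ => (v - L) ^ k / (k.factorial : ℝ) := by fun_prop
  constructor
  · exact (hc.integrableOn_Ioc).indicator measurableSet_Ici
  · have e1 : Ioc 0 u ∩ Ici L = Icc L u := by
      ext x
      simp only [mem_inter_iff, mem_Ioc, mem_Ici, mem_Icc]
      constructor
      · rintro ⟨⟨_, h2⟩, h3⟩; exact ⟨h3, h2⟩
      · rintro ⟨h1, h2⟩; exact ⟨⟨by linarith, h2⟩, h1⟩
    rw [setIntegral_indicator measurableSet_Ici, e1, integral_Icc_eq_integral_Ioc,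
      ← intervalIntegral.integral_of_le hLu,
      intervalIntegral.integral_comp_sub_right (fun t => t ^ k / (k.factorial : ℝ)) L, sub_self,
      intervalIntegral.integral_div, integral_pow]
    rw [Nat.factorial_succ]
    have : (k.factorial : ℝ) ≠ 0 := by positivity
    push_cast
    field_simp
    ring

section Sums

variable {S : NormSys} {t : S.X → ℕ → ℝ}

theorem mem_fin {u : ℝ} {x : S.X} :
    x ∈ (fin_norm S (Real.exp u)).toFinset ↔ Real.log (S.N x) ≤ u := by
  rw [Set.Finite.mem_toFinset, mem_ofPred_eq, Real.log_le_iff_le_exp (S.N_pos x)]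

theorem logN_pos (x : S.X) : 0 < Real.log (S.N x) :=
  Real.log_pos (by linarith [N_real_two x])

theorem aa_sum (u : ℝ) : aa S t u = ∑ x ∈ (fin_norm S (Real.exp u)).toFinset, cc S t x := by
  unfold aa
  rw [stp_fib S.N (S.summable (-2) (by norm_num)) S.two_le]
  refine Finset.sum_congr ?_ fun _ _ => rfl
  ext x
  rw [Set.Finite.mem_toFinset, Set.Finite.mem_toFinset, mem_ofPred_eq, mem_ofPred_eq,
    Nat.le_floor_iff (Real.exp_pos u).le]

theorem ria_sum (k : ℕ) (u : ℝ) : ria (aa S t) k u =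
    ∑ x ∈ (fin_norm S (Real.exp u)).toFinset,
      cc S t x * ((u - Real.log (S.N x)) ^ k / (k.factorial : ℝ)) := by
  induction k generalizing u with
  | zero =>
    show aa S t u = _
    rw [aa_sum]
    simp
  | succ k ih =>
    show intU (ria (aa S t) k) u = _
    unfold intU
    have h1 : ∀ v ∈ Ioc 0 u, ria (aa S t) k v = ∑ x ∈ (fin_norm S (Real.exp u)).toFinset,
        cc S t x * (Ici (Real.log (S.N x))).indicator
          (fun v => (v - Real.log (S.N x)) ^ k / (k.factorial : ℝ)) v := by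
      intro v hv
      rw [ih]
      have h2 : (fin_norm S (Real.exp v)).toFinset =
          (fin_norm S (Real.exp u)).toFinset.filter fun x => Real.log (S.N x) ≤ v := by
        ext x
        rw [Finset.mem_filter, mem_fin, mem_fin]
        constructor
        · intro h; exact ⟨h.trans hv.2, h⟩
        · intro h; exact h.2
      rw [h2, Finset.sum_filter]
      refine Finset.sum_congr rfl fun x _ => ?_
      simp only [indicator, mem_Ici]
      split_ifs <;> simp
    rw [setIntegral_congr_fun measurableSet_Ioc h1, integral_finsetSum]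
    · refine Finset.sum_congr rfl fun x hx => ?_
      rw [integral_const_mul, (int_pow (logN_pos x) (mem_fin.mp hx) k).2]
    · intro x hx
      exact (int_pow (logN_pos x) (mem_fin.mp hx) k).1.const_mul _

end Sums

section Gen

variable (S : NormSys) (bad : Set S.X) (tr : S.X → ℕ → ℝ) (ω : ℝ)

/-- Riesz means of the logarithms of the local factors at the centre -/
noncomputable def RK (k : ℕ) (y : ℝ) : ℝ := ∑ᶠ x ∈ {x : S.X | x ∉ bad ∧ (S.N x : ℝ) ≤ y},
  (1 - Real.log (S.N x) / Real.log y) ^ k * Real.log (ff0 S tr ω x)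

variable {S bad tr ω} {D : ℝ} {F : ℂ → ℂ}

theorem ria_RK (k : ℕ) {u : ℝ} (hu : 0 < u) :
    ria (aa S (tn S bad tr ω)) k u = pk k u * RK S bad tr ω k (Real.exp u) := by
  unfold RK
  rw [ria_sum, finsum_mem_eq_finite_toFinset_sum _ (fin_good S bad _), Finset.mul_sum, Real.log_exp]
  symm
  refine Finset.sum_subset_zero_on_sdiff ?_ ?_ ?_
  · intro x hx
    rw [Set.Finite.mem_toFinset] at hx ⊢
    exact hx.2
  · intro x hx
    rw [Finset.mem_sdiff, Set.Finite.mem_toFinset, Set.Finite.mem_toFinset] at hx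
    have h2 : x ∈ bad := by
      by_contra h
      exact hx.2 ⟨h, hx.1⟩
    rw [cc_bad h2, zero_mul]
  · intro x hx
    rw [Set.Finite.mem_toFinset] at hx
    rw [← cc_good hx.1, Real.log_exp]
    unfold pk
    have h3 : 1 - Real.log (S.N x) / u = (u - Real.log (S.N x)) / u := by
      field_simp
    rw [h3, div_pow]
    field_simp

/-- the continuation to the half plane by Riesz means -/
noncomputable def FCk (S : NormSys) (bad : Set S.X) (tr : S.X → ℕ → ℝ) (ω : ℝ) (k : ℕ) (s : ℂ) : ℂ :=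
  cont (k + 1) (ria (aa S (tn S bad tr ω)) k) (GG S (tn S bad tr ω)) (s - (ω + 1) / 2)

theorem cont_ria (E : TData S (tn S bad tr ω) D) (k : ℕ) {z : ℂ} (hz : 1 / 2 < z.re) :
    cont (k + 1) (ria (aa S (tn S bad tr ω)) k) (GG S (tn S bad tr ω)) z =
      cont 1 (aa S (tn S bad tr ω)) (GG S (tn S bad tr ω)) z := by
  have hI : ∀ w > (1 / 2 : ℝ), LInt (ria (aa S (tn S bad tr ω)) k) w := fun w hw =>
    (ria_lap TData.aa_meas (by linarith) (E.aa_LInt hw) k).1
  have h1 : AnalyticOnNhd ℂ (cont (k + 1) (ria (aa S (tn S bad tr ω)) k) (GG S (tn S bad tr ω)))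
      {z : ℂ | 1 / 2 < z.re} := by
    refine DifferentiableOn.analyticOnNhd (fun z hz => ?_) (isOpen_half _)
    have hz' : 1 / 2 < z.re := hz
    refine DifferentiableAt.differentiableWithinAt ?_
    unfold cont
    refine DifferentiableAt.cexp ?_
    exact (E.GG_diff (by linarith)).sub ((differentiableAt_id.pow (k + 1)).mul
      (lapC_differentiableAt (ria_meas TData.aa_meas k) hI hz'))
  have h2 : AnalyticOnNhd ℂ (cont 1 (aa S (tn S bad tr ω)) (GG S (tn S bad tr ω)))
      {z : ℂ | 1 / 2 < z.re} := by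
    refine DifferentiableOn.analyticOnNhd (fun z hz => ?_) (isOpen_half _)
    have hz' : 1 / 2 < z.re := hz
    refine DifferentiableAt.differentiableWithinAt ?_
    unfold cont
    refine DifferentiableAt.cexp ?_
    exact (E.GG_diff (by linarith)).sub ((differentiableAt_id.pow 1).mul
      (lapC_differentiableAt TData.aa_meas (fun w hw => E.aa_LInt hw) hz'))
  have h3 := h1.eqOn_of_preconnected_of_frequently_eq h2 (preconn_half _)
    (show ((1 : ℝ) : ℂ) ∈ {z : ℂ | 1 / 2 < z.re} by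
      show (1 : ℝ) / 2 < ((1 : ℝ) : ℂ).re
      rw [Complex.ofReal_re]; norm_num) ?_
  · exact h3 hz
  · refine (cast_tendsto 1).frequently (Eventually.frequently ?_)
    filter_upwards [self_mem_nhdsWithin] with w hw
    have hw1 : (1 : ℝ) < w := hw
    obtain ⟨_, h5⟩ := ria_lap (TData.aa_meas (S := S) (t := tn S bad tr ω)) (show 0 < w by linarith)
      (E.aa_LInt (show 1 / 2 < w by linarith)) k
    unfold cont
    rw [lapC_ofReal, lapC_ofReal, ← h5]
    congr 2
    push_cast
    ring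

theorem re_shift (s : ℂ) : (s - ((ω : ℂ) + 1) / 2).re = s.re - (ω + 1) / 2 := by
  rw [Complex.sub_re]
  congr 1
  have : ((ω : ℂ) + 1) / 2 = (((ω + 1) / 2 : ℝ) : ℂ) := by push_cast; ring
  rw [this, Complex.ofReal_re]

theorem FCk_eq (E : TData S (tn S bad tr ω) D) (k : ℕ) {s : ℂ} (hs : (ω + 2) / 2 < s.re) :
    FCk S bad tr ω k s = LF S bad tr s := by
  have hre : 1 / 2 < (s - ((ω : ℂ) + 1) / 2).re := by rw [re_shift]; linarith
  rw [← FC_eq E hs]
  unfold FCk FC
  exact cont_ria E k hre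

theorem FCk_isFull (E : TData S (tn S bad tr ω) D) (k : ℕ)
    (hconv : ∀ w > 0, LInt (ria (aa S (tn S bad tr ω)) k) w) :
    IsFull S bad tr ω (FCk S bad tr ω k) := by
  refine ⟨fun s hs => ?_, fun s _ => cont_ne_zero _, fun _ hs => FCk_eq E k hs⟩
  have hs' : (ω + 1) / 2 < s.re := hs
  have hre : 0 < (s - ((ω : ℂ) + 1) / 2).re := by rw [re_shift]; linarith
  refine DifferentiableAt.differentiableWithinAt ?_
  unfold FCk
  refine DifferentiableAt.comp
    (g := cont (k + 1) (ria (aa S (tn S bad tr ω)) k) (GG S (tn S bad tr ω))) s ?_ (by fun_prop)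
  unfold cont
  refine DifferentiableAt.cexp ?_
  exact (E.GG_diff hre).sub ((differentiableAt_id.pow (k + 1)).mul
    (lapC_differentiableAt (ria_meas TData.aa_meas k) hconv hre))

/-- `log |F(s)| / log (s - c) → ρ` as `s → c⁺` -/
def WOrd (c : ℝ) (F : ℂ → ℂ) (ρ : ℝ) : Prop :=
  Tendsto (fun s : ℝ => Real.log ‖F s‖ / Real.log (s - c)) (𝓝[>] c) (𝓝 ρ)

theorem WOrd.shift {ρ : ℝ} (h : WOrd ((ω + 1) / 2) F ρ) :
    WO (fun w => F (((ω : ℂ) + 1) / 2 + w)) ρ := by
  have h1 := h.comp (shift_nhds ((ω + 1) / 2))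
  refine h1.congr fun w => ?_
  simp only [Function.comp, centre_cast, add_sub_cancel_left]

theorem WOrd.unshift {ρ : ℝ} (h : WO (fun w => F (((ω : ℂ) + 1) / 2 + w)) ρ) :
    WOrd ((ω + 1) / 2) F ρ := by
  have h1 := h.comp (shift_nhds' ((ω + 1) / 2))
  refine h1.congr fun s => ?_
  simp only [Function.comp]
  congr 4
  push_cast
  ring

theorem RK_iff {k : ℕ} {ρ : ℝ} :
    Tendsto (fun x : ℝ => RK S bad tr ω k x / Real.log (Real.log x)) atTop (𝓝 ρ) ↔
      Tendsto (fun u : ℝ => ria (aa S (tn S bad tr ω)) k u / (pk k u * Real.log u)) atTop (𝓝 ρ) := by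
  have key : ∀ᶠ u : ℝ in atTop, RK S bad tr ω k (Real.exp u) / Real.log (Real.log (Real.exp u)) =
      ria (aa S (tn S bad tr ω)) k u / (pk k u * Real.log u) := by
    filter_upwards [eventually_gt_atTop 0] with u hu
    have h1 : pk k u ≠ 0 := by unfold pk; positivity
    rw [ria_RK k hu, Real.log_exp, mul_div_mul_left _ _ h1]
  constructor
  · intro h
    exact (h.comp Real.tendsto_exp_atTop).congr' key
  · intro h
    have h1 := (h.congr' (key.mono fun u hu => hu.symm)).comp Real.tendsto_log_atTop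
    refine h1.congr' ?_
    filter_upwards [eventually_gt_atTop 0] with x hx
    simp only [Function.comp, Real.exp_log hx]

theorem RK_upper {k : ℕ} {K : ℝ}
    (h : ∀ᶠ x : ℝ in atTop, RK S bad tr ω k x ≤ K * Real.log (Real.log x)) :
    ∀ᶠ u : ℝ in atTop, ria (aa S (tn S bad tr ω)) k u ≤ K * (pk k u * Real.log u) := by
  filter_upwards [Real.tendsto_exp_atTop.eventually h, eventually_gt_atTop 0] with u h1 hu
  rw [Real.log_exp] at h1
  rw [ria_RK k hu]
  have := mul_le_mul_of_nonneg_left h1 (pk_nonneg k hu.le)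
  linarith

theorem RK_lower {k : ℕ} {K : ℝ}
    (h : ∀ᶠ x : ℝ in atTop, -(K * Real.log (Real.log x)) ≤ RK S bad tr ω k x) :
    ∀ᶠ u : ℝ in atTop, -(K * (pk k u * Real.log u)) ≤ ria (aa S (tn S bad tr ω)) k u := by
  filter_upwards [Real.tendsto_exp_atTop.eventually h, eventually_gt_atTop 0] with u h1 hu
  rw [Real.log_exp] at h1
  rw [ria_RK k hu]
  have := mul_le_mul_of_nonneg_left h1 (pk_nonneg k hu.le)
  linarith

/-- **Riesz means and the weak order.** -/
theorem means_tfae (E : TData S (tn S bad tr ω) D) (ρ : ℝ) :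
    List.TFAE [
      ∃ k : ℕ, Tendsto (fun x : ℝ => RK S bad tr ω k x / Real.log (Real.log x)) atTop (𝓝 ρ),
      (∃ F : ℂ → ℂ, IsCont S bad tr ω F ∧ WOrd ((ω + 1) / 2) F ρ) ∧
        ∃ (k : ℕ) (K : ℝ), ∀ᶠ x : ℝ in atTop, RK S bad tr ω k x ≤ K * Real.log (Real.log x),
      (∃ F : ℂ → ℂ, IsCont S bad tr ω F ∧ WOrd ((ω + 1) / 2) F ρ ∧
        ∀ s : ℝ, (ω + 1) / 2 < s → F s ≠ 0) ∧
        ∃ (k : ℕ) (K : ℝ), ∀ᶠ x : ℝ in atTop, -(K * Real.log (Real.log x)) ≤ RK S bad tr ω k x,
      (∃ F : ℂ → ℂ, IsFull S bad tr ω F ∧ WOrd ((ω + 1) / 2) F ρ) ∧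
        ∃ (k : ℕ) (K : ℝ), ∀ᶠ x : ℝ in atTop, |RK S bad tr ω k x| ≤ K * Real.log (Real.log x)] := by
  have hGb := E.GG_bound
  tfae_have 1 → 4 := by
    rintro ⟨k, h⟩
    have h1 := RK_iff.mp h
    have hloc : ∀ U : ℝ, ∃ B : ℝ, ∀ u, 0 < u → u ≤ U → |ria (aa S (tn S bad tr ω)) k u| ≤ B := by
      have key : ∀ j : ℕ, ∀ U : ℝ, ∃ B : ℝ, ∀ u, 0 < u → u ≤ U →
          |ria (aa S (tn S bad tr ω)) j u| ≤ B := by
        intro j
        induction j with
        | zero =>
          intro U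
          obtain ⟨B, _, hB⟩ := loc_sys S (w := 1) zero_le_one (E.cc_summable (by norm_num)) U
          exact ⟨B, fun u _ hu => hB u hu⟩
        | succ j ih =>
          intro U
          obtain ⟨B, hB⟩ := ih U
          refine ⟨|B| * |U|, fun u hu huU => ?_⟩
          have h1 := intU_abs (fun u h1 h2 => (hB u h1 h2).trans (le_abs_self B)) hu huU
          exact h1.trans (mul_le_mul_of_nonneg_left (huU.trans (le_abs_self U)) (abs_nonneg B))
      exact key k
    obtain ⟨hconv, h2⟩ := abel_weak (ria_meas TData.aa_meas k) hloc h1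
    have hF := FCk_isFull E k hconv
    refine ⟨⟨FCk S bad tr ω k, hF, ?_⟩, k, |ρ| + 1, ?_⟩
    · exact WOrd.unshift (((((hF.isCont.dataU E).ria k).wo_iff hGb hconv).mpr h2))
    · have h3 := (Metric.tendsto_nhds.mp h) 1 one_pos
      filter_upwards [h3, eventually_gt_atTop (Real.exp (Real.exp 1))] with x h4 h5
      rw [Real.dist_eq] at h4
      have hx1 : Real.exp 1 < Real.log x := by
        rw [Real.lt_log_iff_exp_lt ((Real.exp_pos _).trans h5)]; exact h5
      have hl : 1 < Real.log (Real.log x) := by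
        rw [Real.lt_log_iff_exp_lt ((Real.exp_pos _).trans hx1)]; exact hx1
      have h6 : |RK S bad tr ω k x / Real.log (Real.log x)| ≤ |ρ| + 1 := by
        have := abs_add_le (RK S bad tr ω k x / Real.log (Real.log x) - ρ) ρ
        rw [sub_add_cancel] at this
        linarith
      rw [abs_div, abs_of_pos (show 0 < Real.log (Real.log x) by linarith),
        div_le_iff₀ (by linarith)] at h6
      exact h6
  tfae_have 4 → 2 := by
    rintro ⟨⟨F, hF, hO⟩, k, K, hK⟩
    exact ⟨⟨F, hF.isCont, hO⟩, k, K, hK.mono fun x hx => (abs_le.mp hx).2⟩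
  tfae_have 4 → 3 := by
    rintro ⟨⟨F, hF, hO⟩, k, K, hK⟩
    exact ⟨⟨F, hF.isCont, hO, fun s hs => hF.2.1 s (by simpa using hs)⟩, k, K,
      hK.mono fun x hx => (abs_le.mp hx).1⟩
  tfae_have 2 → 1 := by
    rintro ⟨⟨F, hF, hO⟩, k, K, hK⟩
    refine ⟨k + 1, RK_iff.mpr ?_⟩
    exact (((hF.dataU E).ria k).mean_weak hGb hO.shift (RK_upper hK)).2
  tfae_have 3 → 1 := by
    rintro ⟨⟨F, hF, hO, hne⟩, k, K, hK⟩
    refine ⟨k + 1, RK_iff.mpr ?_⟩
    exact (((hF.dataU E).ria k).mean_weak_lower hGb hO.shift (Phi_ne hne) (RK_lower hK)).2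
  tfae_finish

end Gen

end Pool.Agent.W263.EP
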