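import Pool.Agent.W263.EP.Bad

/-! The exact order on the real side and the order of vanishing. -/

set_option autoImplicit false

namespace Pool.Agent.W263.EP

open MeasureTheory Filter Topology Set Classical
open Pool.Agent.W263.BSD

variable {F : ℂ → ℂ} {r : ℕ} {c : ℝ}

theorem cast_tendsto (c : ℝ) : Tendsto (fun s : ℝ => (s : ℂ)) (𝓝[>] c) (𝓝[≠] (c : ℂ)) := by
  rw [tendsto_nhdsWithin_iff]
  constructor
  · exact tendsto_nhdsWithin_of_tendsto_nhds (Complex.continuous_ofReal.tendsto c)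
  · filter_upwards [self_mem_nhdsWithin] with s hs
    have : c < s := hs
    show (s : ℂ) ≠ (c : ℂ)
    exact_mod_cast this.ne'

/-- the limit of `F(s)/(s-c)^r` -/
theorem order_limit (h : AnalyticAt ℂ F c) (hr : analyticOrderAt F c = r) :
    ∃ Λ : ℂ, Λ ≠ 0 ∧ Tendsto (fun s : ℝ => F s / ((s : ℂ) - c) ^ r) (𝓝[>] c) (𝓝 Λ) := by
  obtain ⟨g, hg, hg0, he⟩ := (h.analyticOrderAt_eq_natCast).mp hr
  refine ⟨g c, hg0, ?_⟩
  have h1 : Tendsto (fun s : ℝ => g s) (𝓝[>] c) (𝓝 (g c)) :=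
    hg.continuousAt.tendsto.comp ((cast_tendsto c).mono_right nhdsWithin_le_nhds)
  refine h1.congr' ?_
  filter_upwards [((cast_tendsto c).mono_right nhdsWithin_le_nhds).eventually he,
    self_mem_nhdsWithin] with s h2 h3
  have hs : c < s := h3
  have hne : ((s : ℂ) - c) ^ r ≠ 0 := by
    apply pow_ne_zero
    rw [sub_ne_zero]
    exact_mod_cast hs.ne'
  rw [h2, smul_eq_mul, mul_div_assoc, mul_comm, div_mul_cancel₀ _ hne]

theorem norm_div_pow {s : ℝ} (hs : c < s) (r : ℕ) :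
    ‖F s / ((s : ℂ) - c) ^ r‖ = ‖F s‖ / (s - c) ^ r := by
  rw [norm_div, norm_pow, ← Complex.ofReal_sub, Complex.norm_real,
    Real.norm_of_nonneg (by linarith)]

theorem ordLike_of_limit {Λ : ℂ} (hΛ : Λ ≠ 0)
    (h : Tendsto (fun s : ℝ => F s / ((s : ℂ) - c) ^ r) (𝓝[>] c) (𝓝 Λ)) : OrdLike c F r := by
  have hn : 0 < ‖Λ‖ := norm_pos_iff.mpr hΛ
  have h1 := h.norm
  refine ⟨‖Λ‖ / 2, 2 * ‖Λ‖, by positivity, ?_⟩
  filter_upwards [h1.eventually (lt_mem_nhds (show ‖Λ‖ / 2 < ‖Λ‖ by linarith)),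
    h1.eventually (gt_mem_nhds (show ‖Λ‖ < 2 * ‖Λ‖ by linarith)), self_mem_nhdsWithin]
    with s h2 h3 h4
  have hs : c < s := h4
  have hsr : 0 < (s - c) ^ r := pow_pos (by linarith) r
  rw [norm_div_pow hs] at h2 h3
  rw [lt_div_iff₀ hsr] at h2
  rw [div_lt_iff₀ hsr] at h3
  exact ⟨h2.le, h3.le⟩

theorem OrdLike.unique {n : ℕ} (h : OrdLike c F r) (h' : OrdLike c F n) : r = n := by
  have key : ∀ {r n : ℕ}, OrdLike c F r → OrdLike c F n → ¬ n < r := by
    rintro r n ⟨α, β, hα, h⟩ ⟨α', β', hα', h'⟩ hlt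
    -- `α' (s-c)^n ≤ ‖F‖ ≤ β (s-c)^r`
    obtain ⟨j, hj⟩ := Nat.exists_eq_add_of_lt hlt
    have h1 : Tendsto (fun s : ℝ => β * (s - c) ^ (j + 1)) (𝓝[>] c) (𝓝 (β * (c - c) ^ (j + 1))) := by
      have : Continuous fun s : ℝ => β * (s - c) ^ (j + 1) := by fun_prop
      exact tendsto_nhdsWithin_of_tendsto_nhds (this.tendsto c)
    rw [sub_self, zero_pow (by omega), mul_zero] at h1
    have h2 := h1.eventually (gt_mem_nhds hα')
    obtain ⟨s, h3, h4, h5, h6⟩ := (h2.and (h.and (h'.and self_mem_nhdsWithin))).exists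
    have hs : c < s := h6
    have hsn : 0 < (s - c) ^ n := pow_pos (by linarith) n
    have h7 : β * (s - c) ^ r = (β * (s - c) ^ (j + 1)) * (s - c) ^ n := by
      rw [hj]; ring
    have h8 := h5.1.trans h4.2
    rw [h7] at h8
    have := mul_lt_mul_of_pos_right h3 hsn
    linarith
  exact le_antisymm (not_lt.mp (key h h')) (not_lt.mp (key h' h))

theorem ordLike_iff (h : AnalyticAt ℂ F c) : OrdLike c F r ↔ analyticOrderAt F c = r := by
  constructor
  · intro hO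
    have hne : analyticOrderAt F c ≠ ⊤ := by
      intro htop
      rw [analyticOrderAt_eq_top] at htop
      obtain ⟨α, β, hα, h1⟩ := hO
      obtain ⟨s, h2, h3, h4⟩ := (((cast_tendsto c).mono_right nhdsWithin_le_nhds).eventually
        htop |>.and (h1.and self_mem_nhdsWithin)).exists
      have hs : c < s := h4
      have hsr : 0 < (s - c) ^ r := pow_pos (by linarith) r
      rw [h2, norm_zero] at h3
      have := mul_pos hα hsr
      linarith [h3.1]
    obtain ⟨n, hn⟩ := ENat.ne_top_iff_exists.mp hne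
    obtain ⟨Λ, hΛ, h1⟩ := order_limit h hn.symm
    rw [← hn, hO.unique (ordLike_of_limit hΛ h1)]
  · intro hr
    obtain ⟨Λ, hΛ, h1⟩ := order_limit h hr
    exact ordLike_of_limit hΛ h1

end Pool.Agent.W263.EP
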