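import Pool.Agent.W263.EP.Core

/-! Exact order of magnitude, growth exponents and mean growth exponents. -/

set_option autoImplicit false

namespace Pool.Agent.W263.EP

open MeasureTheory Filter Topology Set Classical
open Pool.Agent.W263.BSD

variable {a : ℝ → ℝ} {Φ G : ℂ → ℂ} {c0 : ℝ} {r : ℕ} {c : ℝ}

/-- `‖Φ w‖` is of the exact order `w ^ r` -/
def LogB (Φ : ℂ → ℂ) (r : ℕ) : Prop :=
  ∃ C : ℝ, ∀ᶠ w : ℝ in 𝓝[>] 0, |Real.log (‖Φ w‖ / w ^ r)| ≤ C

theorem log_lim (hc0 : 0 < c) (hc : Tendsto (fun w : ℝ => ‖Φ w‖ / w ^ r) (𝓝[>] 0) (𝓝 c)) :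
    LogB Φ r := by
  refine ⟨|Real.log c| + 1, ?_⟩
  have h1 : Tendsto (fun w : ℝ => Real.log (‖Φ w‖ / w ^ r)) (𝓝[>] 0) (𝓝 (Real.log c)) :=
    hc.log hc0.ne'
  have := h1.abs.eventually (gt_mem_nhds (show |Real.log c| < |Real.log c| + 1 by linarith))
  filter_upwards [this] with w hw using hw.le

/-- the Laplace transform of `a` near `0` -/
theorem DataU.abel_near (D : DataU 1 a Φ G c0)
    (hGb : ∃ C : ℝ, ∀ᶠ w : ℝ in 𝓝[>] 0, |(G w).re| ≤ C) (hb : LogB Φ r)
    (hconv : ∀ w > 0, LInt a w) :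
    ∃ C : ℝ, ∀ᶠ w : ℝ in 𝓝[>] 0, |w * lap (fun u => a u - r * ell u) w| ≤ C := by
  obtain ⟨C, hC⟩ := hGb
  obtain ⟨C2, h2⟩ := hb
  refine ⟨(C + C2) + r * (Real.exp 1 + |ck 0|), ?_⟩
  filter_upwards [hC, h2, self_mem_nhdsWithin, Ioo_mem_nhdsGT (show (0 : ℝ) < 1 by norm_num)]
    with w h3 h4 h5 h6
  have hw : (0 : ℝ) < w := h5
  rw [D.real_eq le_rfl hconv hw, Complex.norm_real, Real.norm_of_nonneg (Real.exp_pos _).le,
    Real.log_div (Real.exp_pos _).ne' (pow_pos hw _).ne', Real.log_exp, Real.log_pow, pow_one] at h4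
  have hell : LInt ell w := ell_LInt hw
  have e2 := pl_lap_le 0 hw h6.2.le
  have e3 := le_pl_lap 0 hw
  rw [pl_zero] at e2 e3
  norm_num at e2 e3
  rw [lap_sub (hconv w hw) (hell.const_mul _), lap_const_mul]
  have e1 : w * (lap a w - r * lap ell w) =
      ((G w).re - ((G w).re - w * lap a w - r * Real.log w)) -
      r * (w * lap ell w - -Real.log w) := by ring
  rw [e1]
  refine (abs_sub _ _).trans (add_le_add ((abs_sub _ _).trans (add_le_add h3 h4)) ?_)
  rw [abs_mul, abs_of_nonneg (show (0 : ℝ) ≤ r by positivity)]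
  refine mul_le_mul_of_nonneg_left ?_ (by positivity)
  rw [abs_le]
  have := le_abs_self (ck 0)
  have := Real.exp_pos 1
  have := abs_nonneg (ck 0)
  constructor <;> linarith

theorem DataU.locr {m : ℕ} (D : DataU m a Φ G c0) (U : ℝ) : ∃ B : ℝ, ∀ u, 0 < u → u ≤ U →
    |a u - r * ell u| ≤ B := by
  obtain ⟨B, hB⟩ := D.loc U
  refine ⟨B + r * ell U, fun u hu huU => ?_⟩
  have e4 : (0 : ℝ) ≤ r * ell u := mul_nonneg (by positivity) (by linarith [ell_nonneg hu.le])
  have e5 : (r : ℝ) * ell u ≤ r * ell U :=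
    mul_le_mul_of_nonneg_left (ell_mono hu.le huU) (by positivity)
  refine (abs_sub _ _).trans ?_
  rw [abs_of_nonneg e4]
  have := hB u hu huU
  linarith

/-- **Upper doubling implies the exact order.** -/
theorem DataU.order_of_upper (D : DataU 1 a Φ G c0)
    (hGb : ∃ C : ℝ, ∀ᶠ w : ℝ in 𝓝[>] 0, |(G w).re| ≤ C) (hb : LogB Φ r) {K u0 : ℝ}
    (hK : 0 ≤ K) (hu0 : 1 ≤ u0) (h : ∀ u v, u0 ≤ u → u ≤ v → v ≤ 2 * u → a v ≤ a u + K) :
    (∀ w > 0, LInt a w) ∧ ∃ M : ℝ, ∀ u, 0 < u → |a u - r * ell u| ≤ M := by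
  have hu0' : 0 < u0 := by linarith
  have hs := slow_of_doubling hK hu0' h
  have hconv : ∀ w > 0, LInt a w := by
    refine D.conv_of_upper fun ε hε => ?_
    filter_upwards [sqrt_sub_exp (a u0) (3 * K * (1 / √u0)) hε, eventually_ge_atTop u0] with u h1 h2
    refine le_trans (hs u0 u le_rfl h2) (le_trans (le_of_eq ?_) h1)
    rw [Real.sqrt_div' _ hu0'.le]
    ring
  refine ⟨hconv, ?_⟩
  have hfi : ∀ w > 0, LInt (fun u => a u - r * ell u) w := fun w hw =>
    (hconv w hw).sub ((ell_LInt hw).const_mul _)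
  have hfm : Measurable (fun u => a u - r * ell u) := D.meas.sub (ell_meas.const_mul _)
  obtain ⟨B, hB⟩ := abel_all hfm hfi (D.abel_near hGb hb hconv)
  refine bounded_of_slow hfi hB hu0 (L := 3 * K) (by positivity) ?_ D.locr
  refine slow_of_doubling hK hu0' fun u v h1 h2 h3 => ?_
  have e1 := h u v h1 h2 h3
  have e2 : (r : ℝ) * ell u ≤ r * ell v :=
    mul_le_mul_of_nonneg_left (ell_mono (by linarith) h2) (by positivity)
  linarith

/-- **Lower doubling implies the exact order,** if there are no positive zeros. -/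
theorem DataU.order_of_lower (D : DataU 1 a Φ G c0)
    (hGb : ∃ C : ℝ, ∀ᶠ w : ℝ in 𝓝[>] 0, |(G w).re| ≤ C) (hb : LogB Φ r)
    (hne : ∀ w : ℝ, 0 < w → Φ w ≠ 0) {K u0 : ℝ}
    (hK : 0 ≤ K) (hu0 : 1 ≤ u0) (h : ∀ u v, u0 ≤ u → u ≤ v → v ≤ 2 * u → a u - K ≤ a v) :
    (∀ w > 0, LInt a w) ∧ ∃ M : ℝ, ∀ u, 0 < u → |a u - r * ell u| ≤ M := by
  have hu0' : 0 < u0 := by linarith
  have hs := slow_of_doubling (f := fun u => -a u) hK hu0' (fun u v h1 h2 h3 => by
    have := h u v h1 h2 h3
    linarith)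
  have hconv : ∀ w > 0, LInt a w := by
    refine D.conv_of_lower hne fun ε hε => ?_
    filter_upwards [sqrt_sub_exp (-a u0) (3 * K * (1 / √u0)) hε, eventually_ge_atTop u0] with u h1 h2
    have e1 := hs u0 u le_rfl h2
    rw [Real.sqrt_div' _ hu0'.le] at e1
    have e2 : 3 * K * (√u / √u0) = 3 * K * (1 / √u0) * √u := by ring
    rw [e2] at e1
    linarith
  refine ⟨hconv, ?_⟩
  have hfi : ∀ w > 0, LInt (fun u => a u - r * ell u) w := fun w hw =>
    (hconv w hw).sub ((ell_LInt hw).const_mul _)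
  have hfi' : ∀ w > 0, LInt (fun u => -(a u - r * ell u)) w := fun w hw => (hfi w hw).neg
  have hfm : Measurable (fun u => a u - r * ell u) := D.meas.sub (ell_meas.const_mul _)
  obtain ⟨B, hB⟩ := abel_all hfm hfi (D.abel_near hGb hb hconv)
  have hB' : ∀ w : ℝ, 0 < w → w ≤ 1 → |w * lap (fun u => -(a u - r * ell u)) w| ≤ B := by
    intro w h1 h2
    have e1 : lap (fun u => -(a u - r * ell u)) w = -lap (fun u => a u - r * ell u) w := by
      have := lap_const_mul (f := fun u => a u - r * ell u) (w := w) (-1)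
      simp only [neg_mul, one_mul] at this
      exact this
    rw [e1, mul_neg, abs_neg]
    exact hB w h1 h2
  have hlog2 : 0 ≤ Real.log 2 := Real.log_nonneg (by norm_num)
  have hK' : 0 ≤ K + r * Real.log 2 := by positivity
  obtain ⟨M, hM⟩ := bounded_of_slow hfi' hB' hu0 (L := 3 * (K + r * Real.log 2)) (by positivity)
    (by
      refine slow_of_doubling hK' hu0' fun u v h1 h2 h3 => ?_
      have e1 := h u v h1 h2 h3
      have e2 : (r : ℝ) * ell v ≤ r * (ell u + Real.log 2) :=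
        mul_le_mul_of_nonneg_left (ell_double (by linarith) h3 (by linarith)) (by positivity)
      linarith) (by
      intro U
      obtain ⟨B, hB⟩ := D.locr (r := r) U
      refine ⟨B, fun u hu huU => ?_⟩
      rw [abs_neg]
      exact hB u hu huU)
  refine ⟨M, fun u hu => ?_⟩
  have := hM u hu
  rwa [abs_neg] at this

variable {k : ℕ}

/-- **Tauberian theorem**: an upper bound for `a` forces the mean value of `a`. -/
theorem DataU.mean (D : DataU (k + 1) a Φ G c0)
    (hGb : ∃ C : ℝ, ∀ᶠ w : ℝ in 𝓝[>] 0, |(G w).re| ≤ C) (hb : LogB Φ r) {K : ℝ}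
    (h : ∀ᶠ u in atTop, a u ≤ K * (pk k u * Real.log u)) :
    (∀ w > 0, LInt a w) ∧
    Tendsto (fun U : ℝ => (∫ u in Ioc 0 U, a u) / (U ^ (k + 1) / (k + 1).factorial * Real.log U))
      atTop (𝓝 r) := by
  have hconv : ∀ w > 0, LInt a w := by
    refine D.conv_of_upper fun ε hε => ?_
    filter_upwards [h, pk_log_le k K hε] with u h1 h2 using h1.trans h2
  refine ⟨hconv, ?_⟩
  obtain ⟨C, hC⟩ := hGb
  obtain ⟨C2, hC2⟩ := hb
  obtain ⟨U, hU⟩ := eventually_atTop.mp h
  set V : ℝ := max U 1 with hV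
  have hV1 : 1 ≤ V := le_max_right _ _
  obtain ⟨B, hB⟩ := D.loc V
  set L : ℝ := |B| * Real.exp V with hL
  have hL0 : 0 ≤ L := by positivity
  set κ : ℝ → ℝ := fun u => |K| * pl k u + L * ex (-1) u with hκ
  have hκm : Measurable κ := ((pl_meas k).const_mul _).add ((ex_meas (-1)).const_mul _)
  have hκi : ∀ w > 0, LInt κ w := fun w hw =>
    ((pl_LInt k hw).const_mul _).add ((ex_LInt (show (-1 : ℝ) < w by linarith)).const_mul _)
  have hκ0 : ∀ u, 0 < u → 0 ≤ κ u := by
    intro u hu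
    rw [hκ]
    simp only [ex, pl]
    have h1 := pk_nonneg k hu.le
    have h2 := ell_nonneg hu.le
    have h3 : 0 ≤ ell u := by linarith
    positivity
  have hle : ∀ u, 0 < u → a u ≤ κ u := by
    intro u hu
    rw [hκ]
    simp only [ex, pl]
    have hpk := pk_nonneg k hu.le
    have hel : 0 ≤ ell u := by linarith [ell_nonneg hu.le]
    rcases le_or_gt V u with h2 | h2
    · have h3 := hU u ((le_max_left _ _).trans h2)
      have h5 : 0 ≤ L * Real.exp (-1 * u) := by positivity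
      have h6 : 0 ≤ pk k u * Real.log u := mul_nonneg hpk (Real.log_nonneg (by linarith))
      have h7 : K * (pk k u * Real.log u) ≤ |K| * (pk k u * ell u) :=
        mul_le_mul (le_abs_self K) (mul_le_mul_of_nonneg_left (log_le_ell hu) hpk) h6 (abs_nonneg _)
      linarith
    · have h3 := (abs_le.mp (hB u hu h2.le)).2
      have h4 : |B| ≤ L * Real.exp (-1 * u) := by
        rw [hL, mul_assoc, ← Real.exp_add]
        have : 1 ≤ Real.exp (V + -1 * u) := Real.one_le_exp (by linarith)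
        have h5 := abs_nonneg B
        nlinarith
      have h5 := le_abs_self B
      have h6 : 0 ≤ |K| * (pk k u * ell u) := by positivity
      linarith
  -- Laplace transform of `κ`
  have hκlap : ∀ᶠ w : ℝ in 𝓝[>] 0, |w ^ (k + 1) * lap κ w - |K| * (-Real.log w)| ≤
      |K| * (Real.exp 1 + k + |ck k|) + L := by
    filter_upwards [Ioo_mem_nhdsGT (show (0 : ℝ) < 1 by norm_num)] with w hw
    have hw0 := hw.1
    have hwk : 0 < w ^ (k + 1) := pow_pos hw0 _
    have hwk1 : w ^ (k + 1) ≤ 1 := pow_le_one₀ hw0.le hw.2.le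
    rw [hκ, lap_add ((pl_LInt k hw0).const_mul _)
      ((ex_LInt (show (-1 : ℝ) < w by linarith)).const_mul _), lap_const_mul, lap_const_mul,
      ex_lap (show (-1 : ℝ) < w by linarith)]
    have e1 := pl_lap_le k hw0 hw.2.le
    have e2 := le_pl_lap k hw0
    have e3 : 0 ≤ 1 / (w - -1) ∧ 1 / (w - -1) ≤ 1 := by
      constructor
      · apply div_nonneg zero_le_one; linarith
      · rw [div_le_one (by linarith)]; linarith
    have e4 : 0 ≤ w ^ (k + 1) * (L * (1 / (w - -1))) ∧ w ^ (k + 1) * (L * (1 / (w - -1))) ≤ L := by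
      constructor
      · exact mul_nonneg hwk.le (mul_nonneg hL0 e3.1)
      · calc w ^ (k + 1) * (L * (1 / (w - -1))) ≤ 1 * (L * 1) := by
              have := e3.1
              have := e3.2
              gcongr
          _ = L := by ring
    have e5 : w ^ (k + 1) * (|K| * lap (pl k) w + L * (1 / (w - -1))) - |K| * (-Real.log w) =
        |K| * (w ^ (k + 1) * lap (pl k) w - -Real.log w) +
          w ^ (k + 1) * (L * (1 / (w - -1))) := by ring
    rw [e5]
    have e6 : |w ^ (k + 1) * lap (pl k) w - -Real.log w| ≤ Real.exp 1 + k + |ck k| := by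
      rw [abs_le]
      constructor
      · have := le_abs_self (ck k)
        have := Real.exp_pos 1
        have : (0 : ℝ) ≤ k := by positivity
        linarith
      · have := abs_nonneg (ck k)
        linarith
    refine (abs_add_le _ _).trans (add_le_add ?_ ?_)
    · rw [abs_mul, abs_abs]
      exact mul_le_mul_of_nonneg_left e6 (abs_nonneg _)
    · rw [abs_of_nonneg e4.1]; exact e4.2
  -- Laplace transform of `a`
  have halap : ∀ᶠ w : ℝ in 𝓝[>] 0, |w ^ (k + 1) * lap a w - r * (-Real.log w)| ≤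
      C + C2 := by
    filter_upwards [hC, hC2, self_mem_nhdsWithin] with w h3 h4 h5
    have hw : (0 : ℝ) < w := h5
    rw [D.real_eq le_rfl hconv hw, Complex.norm_real, Real.norm_of_nonneg (Real.exp_pos _).le,
      Real.log_div (Real.exp_pos _).ne' (pow_pos hw _).ne', Real.log_exp, Real.log_pow] at h4
    have e1 : w ^ (k + 1) * lap a w - r * (-Real.log w) =
        (G w).re - ((G w).re - w ^ (k + 1) * lap a w - r * Real.log w) := by ring
    rw [e1]
    exact (abs_sub _ _).trans (add_le_add h3 h4)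
  -- apply Karamata
  have hb0 : ∀ u, 0 < u → 0 ≤ κ u - a u := fun u hu => by have := hle u hu; linarith
  have hbi : ∀ w > 0, LInt (fun u => κ u - a u) w := fun w hw => (hκi w hw).sub (hconv w hw)
  have hbm : Measurable fun u => κ u - a u := hκm.sub D.meas
  have hk1 := karamata k hκm hκ0 hκi (log_div_tendsto hκlap)
  have hk2 : Tendsto (fun U : ℝ => (∫ u in Ioc 0 U, (κ u - a u)) /
      (U ^ (k + 1) / (k + 1).factorial * Real.log U)) atTop (𝓝 (|K| - r)) := by
    refine karamata k hbm hb0 hbi (log_div_tendsto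
      (C := (|K| * (Real.exp 1 + k + |ck k|) + L) + (C + C2)) ?_)
    filter_upwards [hκlap, halap, self_mem_nhdsWithin] with w h1 h2 h3
    have hw : (0 : ℝ) < w := h3
    rw [lap_sub (hκi w hw) (hconv w hw)]
    have e1 : w ^ (k + 1) * (lap κ w - lap a w) - (|K| - r) * (-Real.log w) =
        (w ^ (k + 1) * lap κ w - |K| * (-Real.log w)) -
        (w ^ (k + 1) * lap a w - r * (-Real.log w)) := by ring
    rw [e1]
    exact (abs_sub _ _).trans (add_le_add h1 h2)
  have hk3 := hk1.sub hk2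
  rw [sub_sub_cancel] at hk3
  refine hk3.congr fun U => ?_
  rw [← sub_div, ← integral_sub (b_integrable hκm hκi U) (b_integrable hbm hbi U)]
  congr 2
  funext u
  ring

end Pool.Agent.W263.EP
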