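import Pool.Agent.W263.EP.ThmLead
import Pool.Agent.H341R2.NF.SysK

/-! Short windows: primes of `ℚ` and of number fields. -/

set_option autoImplicit false

namespace Pool.Agent.W263.EP

open Filter Topology Set Classical NumberField IsDedekindDomain
open Pool.Agent.W263.BSD hiding sc ff
open Pool.Agent.H341R2 (NormSys sysK)
open Pool.Agent.H921R2.TatePole (nm two_le_nm below deg nm_eq card_above)

/-- the primes as a system of norms -/
noncomputable def sysQ : NormSys where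
  X := Nat.Primes
  N := fun p => (p : ℕ)
  two_le := fun p => p.2.two_le
  summable := fun _ hr => Pool.Agent.H341R2.summable_prime_rpow hr
  log_bdd := Pool.Agent.H341R2.lam_bounded

/-- sums of `1/p` over windows -/
theorem primes_window {ε : ℝ} (hε : 0 < ε) : ∃ u0 : ℝ, 2 ≤ u0 ∧ ∀ u v : ℝ, u0 ≤ u → u ≤ v →
    ∀ A : Finset Nat.Primes, (∀ p ∈ A, u < Real.log (p : ℕ) ∧ Real.log (p : ℕ) ≤ v) →
      ∑ p ∈ A, (((p : ℕ) : ℝ)) ^ (-1 : ℝ) ≤ Real.log (v / u) + ε := by
  obtain ⟨u0, h2, h⟩ := prime_inc hε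
  refine ⟨u0, h2, fun u v hu huv A hA => ?_⟩
  refine le_trans ?_ (h u v hu huv)
  have h1 : ∑ p ∈ A, (((p : ℕ) : ℝ)) ^ (-1 : ℝ) =
      ∑ n ∈ A.image (fun p : Nat.Primes => (p : ℕ)), (1 : ℝ) / n := by
    rw [Finset.sum_image (g := fun p : Nat.Primes => (p : ℕ))
      (fun p _ q _ (hpq : (p : ℕ) = (q : ℕ)) => Nat.Primes.coe_nat_injective hpq)]
    refine Finset.sum_congr rfl fun p _ => ?_
    rw [Real.rpow_neg_one, one_div]
  rw [h1]
  refine Finset.sum_le_sum_of_subset_of_nonneg ?_ fun n _ _ => by positivity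
  intro n hn
  rw [Finset.mem_image] at hn
  obtain ⟨p, hp, rfl⟩ := hn
  obtain ⟨h3, h4⟩ := hA p hp
  have hp0 : (0 : ℝ) < (p : ℕ) := by exact_mod_cast p.2.pos
  rw [Finset.mem_filter, Finset.mem_Ioc]
  refine ⟨⟨?_, ?_⟩, p.2⟩
  · rw [Nat.floor_lt (Real.exp_pos u).le]
    rwa [Real.lt_log_iff_exp_lt hp0] at h3
  · rw [Nat.le_floor_iff (Real.exp_pos v).le]
    rwa [Real.log_le_iff_le_exp hp0] at h4

theorem log_ratio_le {u v δ : ℝ} (hδ : 0 < δ) (hu : 0 < u) (huv : u ≤ v) (h : v ≤ (1 + δ) * u) :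
    Real.log (v / u) ≤ δ := by
  have h1 : v / u ≤ 1 + δ := by rwa [div_le_iff₀ hu]
  have h2 : 0 < v / u := div_pos (by linarith) hu
  have h3 := Real.log_le_log h2 h1
  have h4 := Real.log_le_sub_one_of_pos (show 0 < 1 + δ by linarith)
  linarith

theorem slow_sysQ : SlowSys sysQ := by
  intro ε hε
  obtain ⟨u0, h2, h⟩ := primes_window (half_pos hε)
  refine ⟨ε / 2, by positivity, u0, fun u v hu huv hv A hA => ?_⟩
  have h1 := h u v hu huv A hA
  have h3 := log_ratio_le (half_pos hε) (by linarith : 0 < u) huv hv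
  refine le_trans h1 ?_
  linarith

variable {K : Type} [Field K] [NumberField K]

theorem sum_below_le (g : Nat.Primes → ℝ) (hg : ∀ p, 0 ≤ g p)
    (A : Finset (HeightOneSpectrum (𝓞 K))) :
    ∑ v ∈ A, g (below v) ≤ Module.finrank ℚ K * ∑ p ∈ A.image below, g p := by
  rw [Finset.sum_comp g below, Finset.mul_sum]
  refine Finset.sum_le_sum fun p _ => ?_
  rw [nsmul_eq_mul]
  refine mul_le_mul_of_nonneg_right ?_ (hg p)
  exact_mod_cast card_above p _ (fun v hv => (Finset.mem_filter.mp hv).2)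

theorem slow_sysK (K : Type) [Field K] [NumberField K] : SlowSys (sysK K) := by
  intro ε hε
  set n : ℝ := (Module.finrank ℚ K : ℝ) with hn
  have hn0 : 0 < n := by
    rw [hn]
    exact_mod_cast Module.finrank_pos (R := ℚ) (M := K)
  have hε4 : 0 < ε / (4 * n) := by positivity
  obtain ⟨u0, h2, h⟩ := primes_window hε4
  -- tail constant
  set T : ℝ := n * ∑' p : Nat.Primes, (((p : ℕ) : ℝ)) ^ (-(3 / 2) : ℝ) with hT
  have hs32 : Summable fun p : Nat.Primes => (((p : ℕ) : ℝ)) ^ (-(3 / 2) : ℝ) :=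
    Pool.Agent.H341R2.summable_prime_rpow (by norm_num)
  have hT0 : 0 ≤ T := mul_nonneg hn0.le (tsum_nonneg fun p => by positivity)
  have hlim : Tendsto (fun u : ℝ => T * Real.exp (-(u / 4))) atTop (𝓝 (T * 0)) := by
    refine Tendsto.const_mul T ?_
    refine Real.tendsto_exp_neg_atTop_nhds_zero.comp ?_
    exact tendsto_id.atTop_div_const (by norm_num)
  rw [mul_zero] at hlim
  obtain ⟨u1, hu1⟩ := eventually_atTop.mp (hlim.eventually (gt_mem_nhds (half_pos hε)))
  refine ⟨ε / (4 * n), hε4, max u0 u1, fun u v hu huv hv A hA => ?_⟩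
  have hu0 : u0 ≤ u := (le_max_left _ _).trans hu
  have hupos : 0 < u := by linarith
  -- split by degree
  rw [← Finset.sum_filter_add_sum_filter_not A (fun v => deg v = 1)]
  have hnm : ∀ v : HeightOneSpectrum (𝓞 K), (sysK K).N v = nm v := fun v => rfl
  have hb0 : ∀ v : HeightOneSpectrum (𝓞 K), (1 : ℝ) < ((below v : ℕ) : ℝ) := fun v => by
    exact_mod_cast (below v).2.one_lt
  have e1 : ∑ x ∈ A.filter (fun v => deg v = 1), ((sysK K).N x : ℝ) ^ (-1 : ℝ) ≤ ε / 2 := by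
    have e2 : ∑ x ∈ A.filter (fun v => deg v = 1), ((sysK K).N x : ℝ) ^ (-1 : ℝ) =
        ∑ x ∈ A.filter (fun v => deg v = 1), (((below x : ℕ) : ℝ)) ^ (-1 : ℝ) := by
      refine Finset.sum_congr rfl fun v hv => ?_
      have h3 := (Finset.mem_filter.mp hv).2
      rw [hnm, (nm_eq v).1, h3, pow_one]
    rw [e2]
    refine (sum_below_le (fun p => (((p : ℕ) : ℝ)) ^ (-1 : ℝ)) (fun p => by positivity) _).trans ?_
    have e3 := h u v hu0 huv ((A.filter (fun v => deg v = 1)).image below) (fun p hp => by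
      rw [Finset.mem_image] at hp
      obtain ⟨x, hx, rfl⟩ := hp
      rw [Finset.mem_filter] at hx
      have h4 := hA x hx.1
      rw [hnm, (nm_eq x).1, hx.2, pow_one] at h4
      exact h4)
    have e4 := log_ratio_le hε4 hupos huv hv
    have e5 : n * (ε / (4 * n) + ε / (4 * n)) = ε / 2 := by field_simp; norm_num
    rw [← e5]
    exact mul_le_mul_of_nonneg_left (by linarith) hn0.le
  have e6 : ∑ x ∈ A.filter (fun v => ¬ deg v = 1), ((sysK K).N x : ℝ) ^ (-1 : ℝ) ≤ ε / 2 := by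
    have e7 : ∀ x ∈ A.filter (fun v => ¬ deg v = 1), ((sysK K).N x : ℝ) ^ (-1 : ℝ) ≤
        (((below x : ℕ) : ℝ)) ^ (-(3 / 2) : ℝ) * Real.exp (-(u / 4)) := by
      intro x hx
      rw [Finset.mem_filter] at hx
      have h3 := (nm_eq x).1
      have h4 := (nm_eq x).2.1
      have hdeg : 2 ≤ deg x := by have := hx.2; omega
      have h5 := (hA x hx.1).1
      have hN0 : (0 : ℝ) < (sysK K).N x := (sysK K).N_pos x
      have h6 : ((sysK K).N x : ℝ) ^ (-1 : ℝ) =
          ((sysK K).N x : ℝ) ^ (-(3 / 4) : ℝ) * ((sysK K).N x : ℝ) ^ (-(1 / 4) : ℝ) := by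
        rw [← Real.rpow_add hN0]; norm_num
      rw [h6]
      refine mul_le_mul ?_ ?_ (by positivity) (by positivity)
      · rw [hnm, h3]
        push_cast
        rw [← Real.rpow_natCast, ← Real.rpow_mul (by linarith [hb0 x])]
        refine Real.rpow_le_rpow_of_exponent_le (hb0 x).le ?_
        have : (2 : ℝ) ≤ deg x := by exact_mod_cast hdeg
        linarith
      · rw [Real.rpow_def_of_pos hN0]
        refine Real.exp_le_exp.mpr ?_
        linarith
    refine (Finset.sum_le_sum e7).trans ?_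
    rw [← Finset.sum_mul]
    have e8 := sum_below_le (K := K) (fun p => (((p : ℕ) : ℝ)) ^ (-(3 / 2) : ℝ))
      (fun p => by positivity) (A.filter (fun v => ¬ deg v = 1))
    have e9 : ∑ p ∈ (A.filter (fun v => ¬ deg v = 1)).image below,
        (((p : ℕ) : ℝ)) ^ (-(3 / 2) : ℝ) ≤ ∑' p : Nat.Primes, (((p : ℕ) : ℝ)) ^ (-(3 / 2) : ℝ) :=
      hs32.sum_le_tsum _ fun p _ => by positivity
    have e10 : ∑ x ∈ A.filter (fun v => ¬ deg v = 1), (((below x : ℕ) : ℝ)) ^ (-(3 / 2) : ℝ) ≤ T :=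
      e8.trans (mul_le_mul_of_nonneg_left e9 hn0.le)
    have e11 := hu1 u ((le_max_right _ _).trans hu)
    calc _ ≤ T * Real.exp (-(u / 4)) := mul_le_mul_of_nonneg_right e10 (Real.exp_pos _).le
      _ ≤ ε / 2 := e11.le
  have e12 : ε / 2 + ε / 2 = ε := by ring
  rw [← e12]
  exact add_le_add e1 e6

end Pool.Agent.W263.EP
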