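import Pool.Agent.W263.EP.Fib

/-! Euler products over norm systems given by traces, near the centre. -/

set_option autoImplicit false

namespace Pool.Agent.W263.EP

open MeasureTheory Filter Topology Set Classical
open Pool.Agent.W263.BSD
open Pool.Agent.H341R2 (NormSys)

/-- `N ^ (-1/2)` -/
noncomputable def hh (S : NormSys) (x : S.X) : ℝ := (S.N x : ℝ) ^ (-(1 / 2) : ℝ)

/-- The traces `t x m` of the powers of Frobenius, normalised at the centre. -/
structure TData (S : NormSys) (t : S.X → ℕ → ℝ) (D : ℝ) : Prop where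
  nonneg : 0 ≤ D
  bound : ∀ x m, |t x (m + 1)| ≤ D * hh S x ^ (m + 1)

variable {S : NormSys} {t : S.X → ℕ → ℝ} {D : ℝ}

theorem hh_pos (x : S.X) : 0 < hh S x := Real.rpow_pos_of_pos (S.N_pos x) _

theorem N_real_two (x : S.X) : (2 : ℝ) ≤ S.N x := by exact_mod_cast S.two_le x

theorem hh_le (x : S.X) : hh S x ≤ 3 / 4 := by
  unfold hh
  have h1 : (S.N x : ℝ) ^ (-(1 / 2) : ℝ) ≤ (2 : ℝ) ^ (-(1 / 2) : ℝ) :=
    Real.rpow_le_rpow_of_nonpos (by norm_num) (N_real_two x) (by norm_num)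
  refine h1.trans ?_
  rw [Real.rpow_neg (by norm_num), ← Real.sqrt_eq_rpow, inv_le_comm₀ (by positivity) (by norm_num)]
  rw [show ((3 : ℝ) / 4)⁻¹ = 4 / 3 by norm_num]
  apply Real.le_sqrt_of_sq_le
  norm_num

theorem hh_sq (x : S.X) : hh S x ^ 2 = (S.N x : ℝ) ^ (-1 : ℝ) := by
  unfold hh
  rw [← Real.rpow_natCast, ← Real.rpow_mul (S.N_pos x).le]
  norm_num

/-- `N ^ (-w)` -/
noncomputable def xx (S : NormSys) (x : S.X) (w : ℂ) : ℂ := ((S.N x : ℕ) : ℂ) ^ (-w)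

theorem norm_xx (x : S.X) (w : ℂ) : ‖xx S x w‖ = (S.N x : ℝ) ^ (-w.re) := S.norm_cpow x w

theorem norm_xx_le (x : S.X) {w : ℂ} {δ : ℝ} (h : δ ≤ w.re) : ‖xx S x w‖ ≤ (S.N x : ℝ) ^ (-δ) := by
  rw [norm_xx]
  exact Real.rpow_le_rpow_of_exponent_le (by linarith [N_real_two x]) (by linarith)

theorem norm_xx_le_one (x : S.X) {w : ℂ} (h : 0 ≤ w.re) : ‖xx S x w‖ ≤ 1 := by
  have := norm_xx_le (S := S) x h
  rwa [neg_zero, Real.rpow_zero] at this

theorem xx_real (x : S.X) (w : ℝ) : xx S x w = (((S.N x : ℝ) ^ (-w) : ℝ) : ℂ) := by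
  unfold xx
  rw [Complex.ofReal_cpow (S.N_pos x).le]
  push_cast
  rfl

theorem xx_diff (x : S.X) : Differentiable ℂ (xx S x) := by
  unfold xx
  exact Differentiable.const_cpow (by fun_prop) (Or.inl (S.N_ne x))

theorem xx_zero (x : S.X) : xx S x 0 = 1 := by unfold xx; simp

theorem xx_tendsto (x : S.X) : Tendsto (fun w : ℝ => xx S x w) (𝓝[>] 0) (𝓝 1) := by
  have h1 : Continuous (fun w : ℝ => xx S x w) :=
    (xx_diff x).continuous.comp Complex.continuous_ofReal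
  have h2 := h1.tendsto 0
  rw [Complex.ofReal_zero, xx_zero] at h2
  exact tendsto_nhdsWithin_of_tendsto_nhds h2

/-- terms of `G` -/
noncomputable def gt (S : NormSys) (t : S.X → ℕ → ℝ) (p : S.X × ℕ) (w : ℂ) : ℂ :=
  -((t p.1 (p.2 + 1) : ℂ) / (p.2 + 1)) * (xx S p.1 w - xx S p.1 w ^ (p.2 + 1))

/-- the correction `G` -/
noncomputable def GG (S : NormSys) (t : S.X → ℕ → ℝ) (w : ℂ) : ℂ := ∑' p : S.X × ℕ, gt S t p w

/-- the logarithm of the Euler product -/
noncomputable def LL (S : NormSys) (t : S.X → ℕ → ℝ) (w : ℂ) : ℂ :=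
  ∑' p : S.X × ℕ, (t p.1 (p.2 + 1) : ℂ) / (p.2 + 1) * xx S p.1 w ^ (p.2 + 1)

/-- the logarithm of the inverse Euler factor at the centre -/
noncomputable def cc (S : NormSys) (t : S.X → ℕ → ℝ) (x : S.X) : ℝ :=
  ∑' m : ℕ, -(t x (m + 1) / (m + 1))

theorem TData.coeff_le (E : TData S t D) (x : S.X) (m : ℕ) :
    |t x (m + 1) / (m + 1)| ≤ D * hh S x ^ (m + 1) := by
  have h1 : (0 : ℝ) < m + 1 := by positivity
  rw [abs_div, abs_of_pos h1]
  have h2 : 0 ≤ D * hh S x ^ (m + 1) := mul_nonneg E.nonneg (pow_nonneg (hh_pos x).le _)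
  calc |t x (m + 1)| / (m + 1) ≤ (D * hh S x ^ (m + 1)) / (m + 1) :=
        div_le_div_of_nonneg_right (E.bound x m) h1.le
    _ ≤ D * hh S x ^ (m + 1) := div_le_self h2 (by
        have : (0 : ℝ) ≤ m := by positivity
        linarith)

theorem TData.coeff_norm (E : TData S t D) (x : S.X) (m : ℕ) :
    ‖(t x (m + 1) : ℂ) / (m + 1)‖ ≤ D * hh S x ^ (m + 1) := by
  have h := E.coeff_le x m
  have e : (t x (m + 1) : ℂ) / (m + 1) = ((t x (m + 1) / (m + 1) : ℝ) : ℂ) := by push_cast; rfl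
  rw [e, Complex.norm_real, Real.norm_eq_abs]
  exact h

theorem geo_summable (j : ℕ) : Summable fun m : ℕ => (3 / 4 : ℝ) ^ (m - j) := by
  rw [← summable_nat_add_iff j]
  simp only [Nat.add_sub_cancel]
  exact summable_geometric_of_lt_one (by norm_num) (by norm_num)

theorem prod_summable (S : NormSys) {ρ : ℝ} (hρ : ρ < -1) (C : ℝ) (j : ℕ) :
    Summable fun p : S.X × ℕ => C * ((S.N p.1 : ℝ) ^ ρ * (3 / 4 : ℝ) ^ (p.2 - j)) := by
  refine Summable.mul_left C ?_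
  refine Summable.mul_of_nonneg (f := fun x : S.X => (S.N x : ℝ) ^ ρ)
    (g := fun m : ℕ => (3 / 4 : ℝ) ^ (m - j)) (S.summable ρ hρ) (geo_summable j) ?_ ?_
  · intro x; positivity
  · intro m; positivity

theorem TData.gt_zero (x : S.X) (w : ℂ) : gt S t (x, 0) w = 0 := by
  unfold gt; simp

theorem TData.gt_abs (E : TData S t D) (p : S.X × ℕ) {w : ℂ} {δ : ℝ} (hδ : 0 ≤ δ) (hw : δ ≤ w.re) :
    ‖gt S t p w‖ ≤ D * hh S p.1 ^ (p.2 + 1) * (2 * (S.N p.1 : ℝ) ^ (-δ)) := by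
  unfold gt
  rw [norm_mul, norm_neg]
  refine mul_le_mul (E.coeff_norm p.1 p.2) ?_ (norm_nonneg _)
    (mul_nonneg E.nonneg (pow_nonneg (hh_pos _).le _))
  have h1 := norm_xx_le (S := S) p.1 hw
  have h2 := norm_xx_le_one (S := S) p.1 (hδ.trans hw)
  have h3 : ‖xx S p.1 w ^ (p.2 + 1)‖ ≤ ‖xx S p.1 w‖ := by
    rw [norm_pow, pow_succ]
    calc ‖xx S p.1 w‖ ^ p.2 * ‖xx S p.1 w‖ ≤ 1 * ‖xx S p.1 w‖ :=
          mul_le_mul_of_nonneg_right (pow_le_one₀ (norm_nonneg _) h2) (norm_nonneg _)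
      _ = _ := one_mul _
  refine (norm_sub_le _ _).trans ?_
  linarith

theorem pow_hh_le (x : S.X) {j m : ℕ} (h : j ≤ m) :
    hh S x ^ (m + 1) ≤ hh S x ^ (j + 1) * (3 / 4 : ℝ) ^ (m - j) := by
  have e : m + 1 = (j + 1) + (m - j) := by omega
  rw [e, pow_add]
  exact mul_le_mul_of_nonneg_left (pow_le_pow_left₀ (hh_pos x).le (hh_le x) _)
    (pow_nonneg (hh_pos x).le _)

/-- bound for the terms of `G` -/
theorem TData.gt_le (E : TData S t D) (p : S.X × ℕ) {w : ℂ} {δ : ℝ} (hδ : 0 ≤ δ) (hw : δ ≤ w.re) :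
    ‖gt S t p w‖ ≤ (2 * D) * ((S.N p.1 : ℝ) ^ (-1 - δ) * (3 / 4 : ℝ) ^ (p.2 - 1)) := by
  have hD := E.nonneg
  obtain ⟨x, m⟩ := p
  rcases Nat.eq_zero_or_pos m with rfl | hm
  · rw [TData.gt_zero, norm_zero]; positivity
  · refine (E.gt_abs (x, m) hδ hw).trans ?_
    have h1 := pow_hh_le (S := S) x (show 1 ≤ m from hm)
    simp only []
    rw [show (-1 - δ : ℝ) = -1 + -δ by ring, Real.rpow_add (S.N_pos x), ← hh_sq]
    norm_num at h1
    calc D * hh S x ^ (m + 1) * (2 * (S.N x : ℝ) ^ (-δ)) ≤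
        D * (hh S x ^ 2 * (3 / 4 : ℝ) ^ (m - 1)) * (2 * (S.N x : ℝ) ^ (-δ)) := by gcongr
      _ = _ := by ring

theorem TData.gt_summable (E : TData S t D) {w : ℂ} (hw : 0 < w.re) :
    Summable fun p => gt S t p w :=
  Summable.of_norm_bounded (prod_summable S (show -1 - w.re < -1 by linarith) (2 * D) 1)
    fun p => E.gt_le p hw.le le_rfl

theorem TData.gt_diff (p : S.X × ℕ) : Differentiable ℂ (gt S t p) := by
  unfold gt
  exact ((xx_diff p.1).sub ((xx_diff p.1).pow _)).const_mul _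

theorem TData.GG_diff (E : TData S t D) {z : ℂ} (hz : 0 < z.re) : DifferentiableAt ℂ (GG S t) z := by
  have h1 : DifferentiableOn ℂ (GG S t) {w : ℂ | z.re / 2 < w.re} :=
    Complex.differentiableOn_tsum_of_summable_norm
      (prod_summable S (show -1 - z.re / 2 < -1 by linarith) (2 * D) 1)
      (fun p => (TData.gt_diff p).differentiableOn) (isOpen_half _)
      fun p w hw => E.gt_le p (by linarith) (le_of_lt hw)
  exact h1.differentiableAt ((isOpen_half _).mem_nhds (show z.re / 2 < z.re by linarith))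

theorem gt_real (p : S.X × ℕ) (w : ℝ) : gt S t p w =
    ((-(t p.1 (p.2 + 1) / (p.2 + 1)) *
      ((S.N p.1 : ℝ) ^ (-w) - ((S.N p.1 : ℝ) ^ (-w)) ^ (p.2 + 1)) : ℝ) : ℂ) := by
  unfold gt
  rw [xx_real]
  push_cast
  ring

theorem GG_im (w : ℝ) : (GG S t w).im = 0 := by
  unfold GG
  simp only [gt_real]
  rw [← Complex.ofReal_tsum, Complex.ofReal_im]

/-! bound of `G` near `0` -/

theorem lam_diff (S : NormSys) : ∃ C : ℝ, ∀ᶠ w : ℝ in 𝓝[>] 0, S.lam w - S.lam (2 * w) ≤ C := by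
  obtain ⟨C, hC⟩ := S.lam_bounded
  have h2 : Tendsto (fun w : ℝ => 2 * w) (𝓝[>] 0) (𝓝[>] 0) := by
    rw [tendsto_nhdsWithin_iff]
    constructor
    · have : Tendsto (fun w : ℝ => 2 * w) (𝓝 0) (𝓝 (2 * 0)) := tendsto_id.const_mul _
      rw [mul_zero] at this
      exact tendsto_nhdsWithin_of_tendsto_nhds this
    · filter_upwards [self_mem_nhdsWithin] with w hw
      have : (0 : ℝ) < w := hw
      show (0 : ℝ) < 2 * w
      positivity
  refine ⟨2 * C + Real.log 2, ?_⟩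
  filter_upwards [hC, h2.eventually hC, self_mem_nhdsWithin] with w h3 h4 h5
  have hw : (0 : ℝ) < w := h5
  have h6 := (abs_le.mp h3).2
  have h7 := (abs_le.mp h4).1
  rw [Real.log_mul (by norm_num) hw.ne'] at h7
  linarith

theorem TData.GG_bound (E : TData S t D) :
    ∃ C : ℝ, ∀ᶠ w : ℝ in 𝓝[>] 0, |(GG S t w).re| ≤ C := by
  have hD := E.nonneg
  obtain ⟨C, hC⟩ := lam_diff S
  -- terms with `m ≥ 2`
  set b2 : S.X × ℕ → ℝ := fun p => (2 * D) * ((S.N p.1 : ℝ) ^ (-(3 / 2) : ℝ) * (3 / 4 : ℝ) ^ (p.2 - 2))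
    with hb2
  have hb2s : Summable b2 := prod_summable S (by norm_num) (2 * D) 2
  refine ⟨D * C + ∑' p, b2 p, ?_⟩
  filter_upwards [hC, self_mem_nhdsWithin] with w h1 h2
  have hw : (0 : ℝ) < w := h2
  have hlamw : Summable fun x : S.X => (S.N x : ℝ) ^ (-(1 + w)) := S.summable _ (by linarith)
  have hlam2 : Summable fun x : S.X => (S.N x : ℝ) ^ (-(1 + 2 * w)) := S.summable _ (by linarith)
  have hdiff := hlamw.sub hlam2
  have hdnn : ∀ x : S.X, 0 ≤ (S.N x : ℝ) ^ (-(1 + w)) - (S.N x : ℝ) ^ (-(1 + 2 * w)) := fun x => by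
    have := Real.rpow_le_rpow_of_exponent_le (x := (S.N x : ℝ)) (by linarith [N_real_two x])
      (show -(1 + 2 * w) ≤ -(1 + w) by linarith)
    linarith
  -- the function supported on `m = 1`
  set b1 : S.X × ℕ → ℝ := fun p => (D * ((S.N p.1 : ℝ) ^ (-(1 + w)) - (S.N p.1 : ℝ) ^ (-(1 + 2 * w)))) *
    (if p.2 = 1 then 1 else 0) with hb1
  have hind : HasSum (fun m : ℕ => (if m = 1 then (1 : ℝ) else 0)) 1 := hasSum_ite_eq 1 1
  have hb1s : HasSum b1 ((D * (S.lam w - S.lam (2 * w))) * 1) := by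
    have e1 : HasSum (fun x : S.X => D * ((S.N x : ℝ) ^ (-(1 + w)) - (S.N x : ℝ) ^ (-(1 + 2 * w))))
        (D * (S.lam w - S.lam (2 * w))) := (hlamw.hasSum.sub hlam2.hasSum).mul_left D
    have hs : Summable fun p : S.X × ℕ =>
        (D * ((S.N p.1 : ℝ) ^ (-(1 + w)) - (S.N p.1 : ℝ) ^ (-(1 + 2 * w)))) *
        (if p.2 = 1 then (1 : ℝ) else 0) := by
      refine Summable.mul_of_nonneg
        (f := fun x : S.X => D * ((S.N x : ℝ) ^ (-(1 + w)) - (S.N x : ℝ) ^ (-(1 + 2 * w))))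
        (g := fun m : ℕ => (if m = 1 then (1 : ℝ) else 0)) e1.summable hind.summable ?_ ?_
      · intro x; exact mul_nonneg hD (hdnn x)
      · intro m; positivity
    exact e1.mul hind hs
  rw [mul_one] at hb1s
  have hle : ∀ p, ‖gt S t p w‖ ≤ b1 p + b2 p := by
    rintro ⟨x, m⟩
    have hb20 : 0 ≤ b2 (x, m) := by rw [hb2]; positivity
    have hb10 : 0 ≤ b1 (x, m) := by
      rw [hb1]
      exact mul_nonneg (mul_nonneg hD (hdnn x)) (by positivity)
    match m with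
    | 0 => rw [TData.gt_zero, norm_zero]; linarith
    | 1 =>
      have e1 : ‖gt S t (x, 1) w‖ ≤ b1 (x, 1) := by
        rw [hb1, gt_real, Complex.norm_real, Real.norm_eq_abs, abs_mul, abs_neg]
        simp only [if_true, mul_one]
        have e2 := E.coeff_le x 1
        rw [show 1 + 1 = 2 by norm_num, hh_sq] at e2
        have e3 : 0 ≤ (S.N x : ℝ) ^ (-w) - ((S.N x : ℝ) ^ (-w)) ^ 2 := by
          have h4 : (S.N x : ℝ) ^ (-w) ≤ 1 := by
            have := Real.rpow_le_rpow_of_exponent_le (x := (S.N x : ℝ)) (by linarith [N_real_two x])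
              (show -w ≤ 0 by linarith)
            rwa [Real.rpow_zero] at this
          have h5 : 0 ≤ (S.N x : ℝ) ^ (-w) := by positivity
          nlinarith
        rw [abs_of_nonneg e3]
        have e4 : (S.N x : ℝ) ^ (-(1 + w)) - (S.N x : ℝ) ^ (-(1 + 2 * w)) =
            (S.N x : ℝ) ^ (-1 : ℝ) * ((S.N x : ℝ) ^ (-w) - ((S.N x : ℝ) ^ (-w)) ^ 2) := by
          have e5 : ((S.N x : ℝ) ^ (-w)) ^ 2 = (S.N x : ℝ) ^ (-(2 * w)) := by
            rw [← Real.rpow_natCast, ← Real.rpow_mul (S.N_pos x).le]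
            congr 1; push_cast; ring
          rw [e5, mul_sub, ← Real.rpow_add (S.N_pos x), ← Real.rpow_add (S.N_pos x)]
          congr 2 <;> ring
        rw [e4, ← mul_assoc]
        exact mul_le_mul_of_nonneg_right e2 e3
      linarith
    | (m + 2) =>
      have e1 : ‖gt S t (x, m + 2) w‖ ≤ b2 (x, m + 2) := by
        refine (E.gt_abs (x, m + 2) le_rfl (by simpa using hw.le)).trans ?_
        rw [neg_zero, Real.rpow_zero, mul_one]
        have e2 := pow_hh_le (S := S) x (show 2 ≤ m + 2 by omega)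
        have e3 : hh S x ^ (2 + 1) = (S.N x : ℝ) ^ (-(3 / 2) : ℝ) := by
          unfold hh
          rw [← Real.rpow_natCast, ← Real.rpow_mul (S.N_pos x).le]
          norm_num
        rw [e3] at e2
        rw [hb2]
        simp only []
        calc D * hh S x ^ (m + 2 + 1) * 2 ≤
            D * ((S.N x : ℝ) ^ (-(3 / 2) : ℝ) * (3 / 4 : ℝ) ^ (m + 2 - 2)) * 2 := by gcongr
          _ = _ := by ring
      linarith
  have h3 : ‖GG S t w‖ ≤ D * (S.lam w - S.lam (2 * w)) + ∑' p, b2 p := by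
    unfold GG
    exact tsum_of_norm_bounded (hb1s.add hb2s.hasSum) hle
  calc |(GG S t w).re| ≤ ‖GG S t w‖ := Complex.abs_re_le_norm _
    _ ≤ _ := h3
    _ ≤ _ := by
      have := mul_le_mul_of_nonneg_left h1 hD
      linarith

end Pool.Agent.W263.EP
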