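import Pool.Agent.W263.EP.Sys

/-! Euler products over norm systems: the Laplace transform identity. -/

set_option autoImplicit false

namespace Pool.Agent.W263.EP

open MeasureTheory Filter Topology Set Classical
open Pool.Agent.W263.BSD
open Pool.Agent.H341R2 (NormSys)

variable {S : NormSys} {t : S.X → ℕ → ℝ} {D : ℝ}

theorem geo_hasSum : HasSum (fun m : ℕ => (3 / 4 : ℝ) ^ m) 4 := by
  have := hasSum_geometric_of_lt_one (r := (3 / 4 : ℝ)) (by norm_num) (by norm_num)
  norm_num at this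
  exact this

theorem TData.coeff_le' (E : TData S t D) (x : S.X) (m : ℕ) :
    |t x (m + 1) / (m + 1)| ≤ D * hh S x * (3 / 4 : ℝ) ^ m := by
  refine (E.coeff_le x m).trans ?_
  have h1 := pow_hh_le (S := S) x (show 0 ≤ m by omega)
  simp only [zero_add, pow_one, Nat.sub_zero] at h1
  rw [mul_assoc]
  exact mul_le_mul_of_nonneg_left h1 E.nonneg

theorem TData.cc_hasSum (E : TData S t D) (x : S.X) :
    HasSum (fun m : ℕ => -(t x (m + 1) / (m + 1))) (cc S t x) := by
  refine Summable.hasSum ?_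
  refine Summable.of_norm_bounded (geo_hasSum.summable.mul_left (D * hh S x)) fun m => ?_
  rw [norm_neg, Real.norm_eq_abs]
  exact E.coeff_le' x m

theorem TData.cc_le (E : TData S t D) (x : S.X) : |cc S t x| ≤ 4 * D * hh S x := by
  have h := tsum_of_norm_bounded (f := fun m : ℕ => -(t x (m + 1) / (m + 1)))
    (geo_hasSum.mul_left (D * hh S x)) (fun m => by
      rw [norm_neg, Real.norm_eq_abs]
      exact E.coeff_le' x m)
  rw [Real.norm_eq_abs] at h
  calc |cc S t x| ≤ D * hh S x * 4 := h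
    _ = _ := by ring

theorem hh_mul (x : S.X) (w : ℝ) : hh S x * (S.N x : ℝ) ^ (-w) = (S.N x : ℝ) ^ (-(1 / 2) - w) := by
  unfold hh
  rw [← Real.rpow_add (S.N_pos x)]
  congr 1

theorem TData.cc_summable (E : TData S t D) {w : ℝ} (hw : 1 / 2 < w) :
    Summable fun x : S.X => |cc S t x| * (S.N x : ℝ) ^ (-w) := by
  refine Summable.of_nonneg_of_le (fun x => by positivity) (fun x => ?_)
    ((S.summable (-(1 / 2) - w) (by linarith)).mul_left (4 * D))
  rw [← hh_mul, ← mul_assoc]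
  exact mul_le_mul_of_nonneg_right (E.cc_le x) (by positivity)

/-- `∑_{N ≤ e^u} c` -/
noncomputable def aa (S : NormSys) (t : S.X → ℕ → ℝ) : ℝ → ℝ := stp (fib S.N (cc S t))

theorem fib_summable (S : NormSys) {c : S.X → ℝ} {w : ℝ}
    (h : Summable fun x : S.X => |c x| * (S.N x : ℝ) ^ (-w)) :
    Summable fun n : ℕ => |fib S.N c n| * (n : ℝ) ^ (-w) := by
  have h1 := (fib_hasSum S.N h).summable
  refine Summable.of_nonneg_of_le (fun n => by positivity) (fun n => ?_) h1
  rw [fib_mul S.N (fun x => |c x|) (fun n => (n : ℝ) ^ (-w)) n]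
  refine mul_le_mul_of_nonneg_right (fib_abs_le S.N (fun n => ?_) n) (by positivity)
  have : Finite {x // S.N x = n} :=
    (fibre_finite S.N (S.summable (-2) (by norm_num)) S.two_le n).to_subtype
  exact Summable.of_finite

theorem fib_hasSum' (S : NormSys) {c : S.X → ℝ} {w : ℝ}
    (h : Summable fun x : S.X => |c x| * (S.N x : ℝ) ^ (-w)) :
    HasSum (fun n : ℕ => fib S.N c n * (n : ℝ) ^ (-w)) (∑' x : S.X, c x * (S.N x : ℝ) ^ (-w)) := by
  have h0 : Summable fun x : S.X => c x * (S.N x : ℝ) ^ (-w) := by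
    refine Summable.of_norm_bounded h fun x => ?_
    rw [norm_mul, Real.norm_eq_abs, Real.norm_of_nonneg (by positivity)]
  have h1 := fib_hasSum S.N h0
  refine h1.congr_fun fun n => ?_
  exact (fib_mul S.N c (fun n => (n : ℝ) ^ (-w)) n).symm

/-- the Laplace transform of a step sum over the system -/
theorem lap_sys (S : NormSys) {c : S.X → ℝ} {c0 : ℝ} (hc0 : 0 ≤ c0)
    (h : ∀ w : ℝ, c0 < w → Summable fun x : S.X => |c x| * (S.N x : ℝ) ^ (-w)) {w : ℝ}
    (hw : c0 < w) :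
    w * lap (stp (fib S.N c)) w = ∑' x : S.X, c x * (S.N x : ℝ) ^ (-w) :=
  (stp_hasSum' (fib_zero S.N S.two_le c) hc0 (fun w hw => fib_summable S (h w hw)) hw).unique
    (fib_hasSum' S (h w hw))

theorem LInt_sys (S : NormSys) {c : S.X → ℝ} {c0 : ℝ} (hc0 : 0 ≤ c0)
    (h : ∀ w : ℝ, c0 < w → Summable fun x : S.X => |c x| * (S.N x : ℝ) ^ (-w)) {w : ℝ}
    (hw : c0 < w) : LInt (stp (fib S.N c)) w :=
  stp_LInt' (fib_zero S.N S.two_le c) hc0 (fun w hw => fib_summable S (h w hw)) hw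

theorem loc_sys (S : NormSys) {c : S.X → ℝ} {w : ℝ} (hw : 0 ≤ w)
    (h : Summable fun x : S.X => |c x| * (S.N x : ℝ) ^ (-w)) (U : ℝ) :
    ∃ B : ℝ, 0 ≤ B ∧ ∀ u : ℝ, u ≤ U → |stp (fib S.N c) u| ≤ B := by
  refine ⟨(∑' n : ℕ, |fib S.N c n| * (n : ℝ) ^ (-w)) * Real.exp (w * U), ?_, fun u hu => ?_⟩
  · exact mul_nonneg (tsum_nonneg fun n => by positivity) (Real.exp_pos _).le
  · refine (stp_abs (fib_zero S.N S.two_le c) (fib_summable S h) hw u).trans ?_
    refine mul_le_mul_of_nonneg_left (Real.exp_le_exp.mpr ?_) (tsum_nonneg fun n => by positivity)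
    exact mul_le_mul_of_nonneg_left hu hw

/-- bound for the terms of `LL` -/
theorem TData.LL_le (E : TData S t D) (p : S.X × ℕ) {w : ℂ} {δ : ℝ} (hδ : 0 ≤ δ) (hw : δ ≤ w.re) :
    ‖(t p.1 (p.2 + 1) : ℂ) / (p.2 + 1) * xx S p.1 w ^ (p.2 + 1)‖ ≤
      D * ((S.N p.1 : ℝ) ^ (-(1 / 2) - δ) * (3 / 4 : ℝ) ^ (p.2 - 0)) := by
  have hD := E.nonneg
  obtain ⟨x, m⟩ := p
  simp only [Nat.sub_zero]
  have e : (t x (m + 1) : ℂ) / (m + 1) = ((t x (m + 1) / (m + 1) : ℝ) : ℂ) := by push_cast; rfl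
  rw [norm_mul, e, Complex.norm_real, Real.norm_eq_abs, ← hh_mul]
  have h2 := norm_xx_le_one (S := S) x (hδ.trans hw)
  have h3 : ‖xx S x w ^ (m + 1)‖ ≤ (S.N x : ℝ) ^ (-δ) := by
    rw [norm_pow, pow_succ]
    calc ‖xx S x w‖ ^ m * ‖xx S x w‖ ≤ 1 * (S.N x : ℝ) ^ (-δ) :=
          mul_le_mul (pow_le_one₀ (norm_nonneg _) h2) (norm_xx_le (S := S) x hw)
            (norm_nonneg _) zero_le_one
      _ = _ := one_mul _
  calc |t x (m + 1) / (m + 1)| * ‖xx S x w ^ (m + 1)‖ ≤
        (D * hh S x * (3 / 4 : ℝ) ^ m) * (S.N x : ℝ) ^ (-δ) :=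
        mul_le_mul (E.coeff_le' x m) h3 (norm_nonneg _) (by
          have := (hh_pos (S := S) x).le
          positivity)
    _ = _ := by ring

theorem TData.LL_summable (E : TData S t D) {w : ℂ} (hw : 1 / 2 < w.re) :
    Summable fun p : S.X × ℕ => (t p.1 (p.2 + 1) : ℂ) / (p.2 + 1) * xx S p.1 w ^ (p.2 + 1) :=
  Summable.of_norm_bounded (prod_summable S (show -(1 / 2) - w.re < -1 by linarith) D 0)
    fun p => E.LL_le p (by linarith) le_rfl

theorem TData.LL_diff (E : TData S t D) {z : ℂ} (hz : 1 / 2 < z.re) :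
    DifferentiableAt ℂ (LL S t) z := by
  have h1 : DifferentiableOn ℂ (LL S t) {w : ℂ | (z.re + 1 / 2) / 2 < w.re} :=
    Complex.differentiableOn_tsum_of_summable_norm
      (prod_summable S (show -(1 / 2) - (z.re + 1 / 2) / 2 < -1 by linarith) D 0)
      (fun p => (((xx_diff p.1).pow _).const_mul _).differentiableOn) (isOpen_half _)
      fun p w hw => E.LL_le p (by linarith) (le_of_lt hw)
  exact h1.differentiableAt ((isOpen_half _).mem_nhds (show (z.re + 1 / 2) / 2 < z.re by linarith))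

/-- **the basic identity** -/
theorem TData.LL_eq (E : TData S t D) {w : ℝ} (hw : 1 / 2 < w) :
    LL S t w = GG S t w - w * lapC (aa S t) w := by
  have hD := E.nonneg
  have h1 := (E.gt_summable (w := w) (by simpa using (by linarith : 0 < w))).hasSum
  have h2 := (E.LL_summable (w := w) (by simpa using hw)).hasSum
  -- the double sum
  have h3 : Summable fun p : S.X × ℕ => -(t p.1 (p.2 + 1) / (p.2 + 1)) * (S.N p.1 : ℝ) ^ (-w) := by
    refine Summable.of_norm_bounded (prod_summable S (show -(1 / 2) - w < -1 by linarith) D 0)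
      fun p => ?_
    rw [norm_mul, norm_neg, Real.norm_eq_abs, Real.norm_of_nonneg (by positivity), ← hh_mul]
    have e1 := E.coeff_le' p.1 p.2
    calc _ ≤ (D * hh S p.1 * (3 / 4 : ℝ) ^ p.2) * (S.N p.1 : ℝ) ^ (-w) :=
          mul_le_mul_of_nonneg_right e1 (by positivity)
      _ = _ := by rw [Nat.sub_zero]; ring
  have h4 : ∑' p : S.X × ℕ, -(t p.1 (p.2 + 1) / (p.2 + 1)) * (S.N p.1 : ℝ) ^ (-w) =
      ∑' x : S.X, cc S t x * (S.N x : ℝ) ^ (-w) := by
    rw [h3.tsum_prod]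
    refine tsum_congr fun x => ?_
    simp only []
    rw [tsum_mul_right, (E.cc_hasSum x).tsum_eq]
  have h5 := lap_sys S (c := cc S t) (c0 := 1 / 2) (by norm_num) (fun w hw => E.cc_summable hw) hw
  rw [← h4] at h5
  have h6 := Complex.hasSum_ofReal.mpr h3.hasSum
  rw [← h5] at h6
  have h7 := h1.sub h6
  have h8 : (fun p : S.X × ℕ => gt S t p w -
      ((-(t p.1 (p.2 + 1) / (p.2 + 1)) * (S.N p.1 : ℝ) ^ (-w) : ℝ) : ℂ)) =
      fun p : S.X × ℕ => (t p.1 (p.2 + 1) : ℂ) / (p.2 + 1) * xx S p.1 w ^ (p.2 + 1) := by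
    funext p
    unfold gt
    rw [xx_real]
    push_cast
    ring
  rw [h8] at h7
  have h9 := h2.unique h7
  have h10 : LL S t w = ∑' p : S.X × ℕ, (t p.1 (p.2 + 1) : ℂ) / (p.2 + 1) *
    xx S p.1 w ^ (p.2 + 1) := rfl
  rw [h10, h9, lapC_ofReal]
  push_cast
  rfl

theorem TData.aa_meas : Measurable (aa S t) := stp_meas _

theorem TData.aa_LInt (E : TData S t D) {w : ℝ} (hw : 1 / 2 < w) : LInt (aa S t) w :=
  LInt_sys S (by norm_num) (fun _ hw => E.cc_summable hw) hw

/-- the complex identity to the right of `1/2` -/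
theorem TData.cont_eq (E : TData S t D) {z : ℂ} (hz : 1 / 2 < z.re) :
    cont 1 (aa S t) (GG S t) z = Complex.exp (LL S t z) := by
  have h1 : AnalyticOnNhd ℂ (cont 1 (aa S t) (GG S t)) {z : ℂ | 1 / 2 < z.re} := by
    refine DifferentiableOn.analyticOnNhd (fun z hz => ?_) (isOpen_half _)
    have hz' : 1 / 2 < z.re := hz
    refine DifferentiableAt.differentiableWithinAt ?_
    unfold cont
    refine DifferentiableAt.cexp ?_
    exact (E.GG_diff (by linarith)).sub ((differentiableAt_id.pow 1).mul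
      (lapC_differentiableAt TData.aa_meas (fun w hw => E.aa_LInt hw) hz'))
  have h2 : AnalyticOnNhd ℂ (fun z => Complex.exp (LL S t z)) {z : ℂ | 1 / 2 < z.re} := by
    refine DifferentiableOn.analyticOnNhd (fun z hz => ?_) (isOpen_half _)
    exact ((E.LL_diff hz).cexp).differentiableWithinAt
  have h3 := h1.eqOn_of_preconnected_of_frequently_eq h2 (preconn_half _)
    (show ((1 : ℝ) : ℂ) ∈ {z : ℂ | 1 / 2 < z.re} by
      show (1 : ℝ) / 2 < ((1 : ℝ) : ℂ).re
      rw [Complex.ofReal_re]; norm_num) ?_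
  · exact h3 hz
  · have h4 : Tendsto (fun w : ℝ => (w : ℂ)) (𝓝[>] 1) (𝓝[≠] ((1 : ℝ) : ℂ)) := by
      rw [tendsto_nhdsWithin_iff]
      constructor
      · exact tendsto_nhdsWithin_of_tendsto_nhds (Complex.continuous_ofReal.tendsto 1)
      · filter_upwards [self_mem_nhdsWithin] with w hw
        have : (1 : ℝ) < w := hw
        show (w : ℂ) ≠ ((1 : ℝ) : ℂ)
        exact_mod_cast this.ne'
    refine h4.frequently (Eventually.frequently ?_)
    filter_upwards [self_mem_nhdsWithin] with w hw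
    have : (1 : ℝ) < w := hw
    unfold cont
    rw [E.LL_eq (show 1 / 2 < w by linarith), pow_one]

/-- the Euler product -/
theorem TData.hasProd (E : TData S t D) {z : ℂ} (hz : 1 / 2 < z.re) :
    HasProd (fun x : S.X => Complex.exp (∑' m : ℕ, (t x (m + 1) : ℂ) / (m + 1) *
      xx S x z ^ (m + 1))) (Complex.exp (LL S t z)) := by
  have h1 := E.LL_summable hz
  have h2 : HasSum (fun x : S.X => ∑' m : ℕ, (t x (m + 1) : ℂ) / (m + 1) * xx S x z ^ (m + 1))
      (LL S t z) := by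
    have h3 := h1.prod_factor
    exact h1.hasSum.prod_fiberwise (fun x => (h3 x).hasSum)
  exact h2.cexp

/-- the data -/
theorem TData.dataU (E : TData S t D) {Φ : ℂ → ℂ} (hΦ : ∀ w : ℝ, 0 < w → AnalyticAt ℂ Φ w)
    (heq : ∀ w : ℝ, 1 / 2 < w → Φ w = Complex.exp (LL S t w)) :
    DataU 1 (aa S t) Φ (GG S t) (1 / 2) where
  meas := TData.aa_meas
  c0_nonneg := by norm_num
  int := fun w hw => E.aa_LInt hw
  loc := fun U => by
    obtain ⟨B, _, hB⟩ := loc_sys S (w := 1) zero_le_one (E.cc_summable (by norm_num)) U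
    exact ⟨B, fun u _ hu => hB u hu⟩
  hΦ := hΦ
  hG := fun z hz => E.GG_diff hz
  hGre := fun w _ => GG_im w
  eq := fun w hw => by rw [heq w hw, E.LL_eq hw, pow_one]

end Pool.Agent.W263.EP
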