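import Pool.Agent.W263.EP.Ord
import Pool.Agent.W263.BSD.Lead7

/-! The leading coefficient and the partial products at the centre. -/

set_option autoImplicit false

namespace Pool.Agent.W263.EP

open MeasureTheory Filter Topology Set Classical
open Pool.Agent.W263.BSD hiding sc ff
open Pool.Agent.H341R2 (NormSys)

/-- short multiplicative windows have small sums of `1/N` -/
def SlowSys (S : NormSys) : Prop := ∀ ε : ℝ, 0 < ε → ∃ δ : ℝ, 0 < δ ∧ ∃ u0 : ℝ, ∀ u v : ℝ,
  u0 ≤ u → u ≤ v → v ≤ (1 + δ) * u → ∀ A : Finset S.X,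
    (∀ x ∈ A, u < Real.log (S.N x) ∧ Real.log (S.N x) ≤ v) →
    ∑ x ∈ A, (S.N x : ℝ) ^ (-1 : ℝ) ≤ ε

variable {S : NormSys} {t : S.X → ℕ → ℝ} {D : ℝ} {r : ℕ}

theorem TData.ss_inc (E : TData S t D) {u v η : ℝ} (h : u ≤ v)
    (hA : ∀ A : Finset S.X, (∀ x ∈ A, u < Real.log (S.N x) ∧ Real.log (S.N x) ≤ v) →
      ∑ x ∈ A, (S.N x : ℝ) ^ (-1 : ℝ) ≤ η) : |ss S t v - ss S t u| ≤ D * η := by
  have hD := E.nonneg
  unfold ss
  rw [stp_fib S.N (S.summable (-2) (by norm_num)) S.two_le,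
    stp_fib S.N (S.summable (-2) (by norm_num)) S.two_le]
  have hle : ⌊Real.exp u⌋₊ ≤ ⌊Real.exp v⌋₊ := Nat.floor_le_floor (Real.exp_le_exp.mpr h)
  have hmem : ∀ (v : ℝ) (x : S.X), S.N x ≤ ⌊Real.exp v⌋₊ ↔ Real.log (S.N x) ≤ v := by
    intro v x
    rw [Nat.le_floor_iff (Real.exp_pos v).le, Real.log_le_iff_le_exp (S.N_pos x)]
  set A := (le_finite S.N (S.summable (-2) (by norm_num)) S.two_le ⌊Real.exp v⌋₊).toFinset with hAd
  set B := (le_finite S.N (S.summable (-2) (by norm_num)) S.two_le ⌊Real.exp u⌋₊).toFinset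
    with hBd
  have hsub : B ⊆ A := by
    intro x hx
    rw [hBd, Set.Finite.mem_toFinset] at hx
    rw [hAd, Set.Finite.mem_toFinset]
    exact le_trans hx hle
  rw [← Finset.sum_sdiff hsub, add_sub_cancel_right]
  refine (Finset.abs_sum_le_sum_abs _ _).trans ((Finset.sum_le_sum fun x _ => E.mm_le x).trans ?_)
  rw [← Finset.mul_sum]
  refine mul_le_mul_of_nonneg_left (hA _ fun x hx => ?_) hD
  rw [Finset.mem_sdiff, hAd, hBd, Set.Finite.mem_toFinset, Set.Finite.mem_toFinset] at hx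
  exact ⟨not_le.mp fun h => hx.2 ((hmem u x).mpr h), (hmem v x).mp hx.1⟩

theorem TData.sc_slow (E : TData S t D) (hS : SlowSys S) {ε : ℝ} (hε : 0 < ε) :
    ∃ δ : ℝ, 0 < δ ∧ ∃ u0 : ℝ, ∀ u v : ℝ, u0 ≤ u → u ≤ v →
      v ≤ (1 + δ) * u → |sc S t v - sc S t u| ≤ ε := by
  have hD := E.nonneg
  have hη : 0 < ε / (2 * (D + 1)) := by positivity
  obtain ⟨δ, hδ, u0, h⟩ := hS _ hη
  refine ⟨δ, hδ, max (2 * u0) 0, fun u v h1 h2 h3 => ?_⟩
  have hu0 : 0 ≤ u := (le_max_right _ _).trans h1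
  have h1' : 2 * u0 ≤ u := (le_max_left _ _).trans h1
  have e1 : u0 ≤ u := by
    rcases le_or_gt 0 u0 with h4 | h4
    · linarith
    · linarith
  have h5 := E.ss_inc h2 (h u v e1 h2 h3)
  have h6 := E.ss_inc (show u / 2 ≤ v / 2 by linarith)
    (h (u / 2) (v / 2) (by linarith) (by linarith) (by linarith))
  have h7 : sc S t v - sc S t u = (ss S t v - ss S t u) - (ss S t (v / 2) - ss S t (u / 2)) := by
    unfold sc; ring
  rw [h7]
  refine (abs_sub _ _).trans ?_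
  have h8 : D * (ε / (2 * (D + 1))) ≤ ε / 2 := by
    rw [mul_div_assoc', div_le_div_iff₀ (by positivity) (by norm_num)]
    nlinarith
  linarith

/-- Abelian theorem for convergent functions -/
theorem abel_tendsto {f : ℝ → ℝ} (hf : Measurable f) {C : ℝ} (h : Tendsto f atTop (𝓝 C))
    (hloc : ∀ U : ℝ, ∃ B : ℝ, ∀ u, 0 < u → u ≤ U → |f u| ≤ B) :
    (∀ w > 0, LInt f w) ∧ Tendsto (fun w : ℝ => w * lap f w) (𝓝[>] 0) (𝓝 C) := by
  have hi : ∀ w > 0, LInt f w := by
    intro w hw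
    obtain ⟨U, hU⟩ := eventually_atTop.mp (h.eventually (Metric.ball_mem_nhds C one_pos))
    obtain ⟨B, hB⟩ := hloc U
    refine LInt.of_bound hf ((one_LInt hw).const_mul (|C| + 1 + |B|)) fun u hu => ?_
    rw [mul_one]
    rcases le_or_gt U u with h1 | h1
    · have h2 := hU u h1
      rw [Real.dist_eq] at h2
      have h3 : f u = (f u - C) + C := by ring
      rw [h3]
      refine (abs_add_le _ _).trans ?_
      have := abs_nonneg B
      linarith
    · have h2 := hB u hu h1.le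
      have := abs_nonneg C
      have := le_abs_self B
      linarith
  refine ⟨hi, ?_⟩
  rw [Metric.tendsto_nhds]
  intro ε hε
  obtain ⟨U, hU⟩ := eventually_atTop.mp (h.eventually (Metric.ball_mem_nhds C (half_pos hε)))
  obtain ⟨B, hB⟩ := hloc (max U 0)
  set V := max U 0 with hV
  have hV0 : 0 ≤ V := le_max_right _ _
  have h1 : Tendsto (fun w : ℝ => ε / 2 + (|B| + |C|) * (1 - Real.exp (-(w * V)))) (𝓝[>] 0)
      (𝓝 (ε / 2 + (|B| + |C|) * (1 - Real.exp (-(0 * V))))) := by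
    have h2 : Continuous fun w : ℝ => ε / 2 + (|B| + |C|) * (1 - Real.exp (-(w * V))) := by fun_prop
    exact tendsto_nhdsWithin_of_tendsto_nhds (h2.tendsto 0)
  have h3 : ε / 2 + (|B| + |C|) * (1 - Real.exp (-(0 * V))) = ε / 2 := by simp
  rw [h3] at h1
  filter_upwards [h1.eventually (gt_mem_nhds (show ε / 2 < ε by linarith)), self_mem_nhdsWithin]
    with w h4 h5
  have hw : (0 : ℝ) < w := h5
  rw [Real.dist_eq]
  refine lt_of_le_of_lt ?_ h4
  -- `|f - C| ≤ ε/2 + (|B| + |C|) st V`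
  have hg : LInt (fun u => ε / 2 * 1 + (|B| + |C|) * st V u) w :=
    ((one_LInt hw).const_mul _).add ((st_LInt V hw).const_mul _)
  have hfC : LInt (fun u => f u - C * 1) w := (hi w hw).sub ((one_LInt hw).const_mul C)
  have hle : ∀ u, 0 < u → |f u - C * 1| ≤ ε / 2 * 1 + (|B| + |C|) * st V u := by
    intro u hu
    rw [mul_one, mul_one]
    unfold st
    rcases le_or_gt u V with h6 | h6
    · rw [if_pos h6, mul_one]
      have h7 := hB u hu h6
      have h8 := le_abs_self B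
      refine (abs_sub _ _).trans ?_
      linarith
    · rw [if_neg (not_le.mpr h6), mul_zero, add_zero]
      have h7 := hU u ((le_max_left _ _).trans h6.le)
      rw [Real.dist_eq] at h7
      exact h7.le
  have h6 := lap_mono hfC hg fun u hu => (abs_le.mp (hle u hu)).2
  have h7 := lap_mono hg.neg hfC fun u hu => (abs_le.mp (hle u hu)).1
  rw [lap_neg'] at h7
  rw [lap_add ((one_LInt hw).const_mul _) ((st_LInt V hw).const_mul _), lap_const_mul,
    lap_const_mul, one_lap hw, st_lap hV0 hw] at h6 h7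
  rw [lap_sub (hi w hw) ((one_LInt hw).const_mul C), lap_const_mul, one_lap hw] at h6 h7
  have h8 := mul_le_mul_of_nonneg_left h6 hw.le
  have h9 := mul_le_mul_of_nonneg_left h7 hw.le
  have e1 : w * (lap f w - C * (1 / w)) = w * lap f w - C := by field_simp
  have e2 : w * (ε / 2 * (1 / w) + (|B| + |C|) * ((1 - Real.exp (-(w * V))) / w)) =
      ε / 2 + (|B| + |C|) * (1 - Real.exp (-(w * V))) := by field_simp
  have e3 : w * -(ε / 2 * (1 / w) + (|B| + |C|) * ((1 - Real.exp (-(w * V))) / w)) =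
      -(ε / 2 + (|B| + |C|) * (1 - Real.exp (-(w * V)))) := by rw [mul_neg, e2]
  rw [e1, e2] at h8
  rw [e1, e3] at h9
  exact abs_le.mpr ⟨h9, h8⟩

section Gen

variable {bad : Set S.X} {tr : S.X → ℕ → ℝ} {ω : ℝ} {F : ℂ → ℂ} {Λ : ℝ}

theorem ff_of_PS (E : TData S (tn S bad tr ω) D) {u : ℝ} (hu : 0 < u) :
    Real.log (PS S bad tr ω (Real.exp u) / u ^ r) =
      ff S (tn S bad tr ω) r u + r * (ell u - Real.log u) := by
  rw [Real.log_div (PS_pos _).ne' (pow_pos hu r).ne', Real.log_pow, log_PS E hu.le]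
  unfold ff
  ring

theorem PS_of_ff (E : TData S (tn S bad tr ω) D) (hΛ : 0 < Λ)
    (h : Tendsto (ff S (tn S bad tr ω) r) atTop
      (𝓝 (-Real.log Λ + r * Real.eulerMascheroniConstant))) :
    Tendsto (fun x : ℝ => PS S bad tr ω x / (Real.log x) ^ r) atTop
      (𝓝 (Real.exp (r * Real.eulerMascheroniConstant) / Λ)) := by
  have h2 := h.add (ell_sub_log.const_mul (r : ℝ))
  have e : -Real.log Λ + r * Real.eulerMascheroniConstant + (r : ℝ) * 0 =
      Real.log (Real.exp (r * Real.eulerMascheroniConstant) / Λ) := by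
    rw [Real.log_div (Real.exp_pos _).ne' hΛ.ne', Real.log_exp]; ring
  rw [e] at h2
  have h3 : Tendsto (fun u : ℝ => PS S bad tr ω (Real.exp u) / u ^ r) atTop
      (𝓝 (Real.exp (r * Real.eulerMascheroniConstant) / Λ)) := by
    have h4 := h2.rexp
    rw [Real.exp_log (by positivity)] at h4
    refine h4.congr' ?_
    filter_upwards [eventually_gt_atTop 0] with u hu
    rw [← ff_of_PS E hu, Real.exp_log]
    exact div_pos (PS_pos _) (pow_pos hu r)
  refine (h3.comp Real.tendsto_log_atTop).congr' ?_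
  filter_upwards [eventually_gt_atTop 0] with x hx
  simp only [Function.comp_apply]
  rw [Real.exp_log hx]

theorem ff_of_PS_tendsto (E : TData S (tn S bad tr ω) D) (hΛ : 0 < Λ)
    (h : Tendsto (fun x : ℝ => PS S bad tr ω x / (Real.log x) ^ r) atTop
      (𝓝 (Real.exp (r * Real.eulerMascheroniConstant) / Λ))) :
    Tendsto (ff S (tn S bad tr ω) r) atTop
      (𝓝 (-Real.log Λ + r * Real.eulerMascheroniConstant)) := by
  have h1 := (h.comp Real.tendsto_exp_atTop).log (show Real.exp (r *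
    Real.eulerMascheroniConstant) / Λ ≠ 0 by positivity)
  have h2 := h1.sub (ell_sub_log.const_mul (r : ℝ))
  rw [mul_zero, sub_zero, Real.log_div (Real.exp_pos _).ne' hΛ.ne', Real.log_exp] at h2
  have e : r * Real.eulerMascheroniConstant - Real.log Λ =
      -Real.log Λ + r * Real.eulerMascheroniConstant := by ring
  rw [e] at h2
  refine h2.congr' ?_
  filter_upwards [eventually_gt_atTop 0] with u hu
  simp only [Function.comp_apply]
  rw [Real.log_exp, ff_of_PS E hu]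
  ring

/-- the limit of `‖F‖/(s-c)^r` in terms of the shifted variable -/
theorem shift_limit {c : ℝ} {H : ℂ → ℂ} {a : ℝ}
    (h : Tendsto (fun s : ℝ => ‖H s‖ / (s - c) ^ r) (𝓝[>] c) (𝓝 a)) :
    Tendsto (fun w : ℝ => ‖H ((c + w : ℝ) : ℂ)‖ / w ^ r) (𝓝[>] 0) (𝓝 a) := by
  refine (h.comp (shift_nhds c)).congr fun w => ?_
  simp only [Function.comp_apply, add_sub_cancel_left]

theorem norm_limit {c : ℝ} {H : ℂ → ℂ} {a : ℝ} (ha : 0 < a)
    (h : Tendsto (fun s : ℝ => H s / ((s : ℂ) - c) ^ r) (𝓝[>] c) (𝓝 (a : ℂ))) :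
    Tendsto (fun s : ℝ => ‖H s‖ / (s - c) ^ r) (𝓝[>] c) (𝓝 a) := by
  have h1 := h.norm
  rw [Complex.norm_real, Real.norm_of_nonneg ha.le] at h1
  refine h1.congr' ?_
  filter_upwards [self_mem_nhdsWithin] with s hs
  exact norm_div_pow hs r

/-- the leading coefficient of the continuation -/
theorem FC_lead (E : TData S (tn S bad tr ω) D) (hΛ : 0 < Λ)
    (h : Tendsto (ff S (tn S bad tr ω) r) atTop
      (𝓝 (-Real.log Λ + r * Real.eulerMascheroniConstant))) :
    (∀ w > 0, LInt (aa S (tn S bad tr ω)) w) ∧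
    Tendsto (fun s : ℝ => FC S bad tr ω s / ((s : ℂ) - ((ω + 1) / 2 : ℝ)) ^ r)
      (𝓝[>] ((ω + 1) / 2)) (𝓝 (Λ : ℂ)) := by
  -- local bounds
  have hlocaa : ∀ U : ℝ, ∃ B : ℝ, ∀ u, 0 < u → u ≤ U → |aa S (tn S bad tr ω) u| ≤ B := by
    intro U
    obtain ⟨B, _, hB⟩ := loc_sys S (w := 1) zero_le_one (E.cc_summable (by norm_num)) U
    exact ⟨B, fun u _ hu => hB u hu⟩
  obtain ⟨M, hM⟩ := E.sc_bounded
  have hloc : ∀ U : ℝ, ∃ B : ℝ, ∀ u, 0 < u → u ≤ U → |ff S (tn S bad tr ω) r u| ≤ B := by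
    intro U
    obtain ⟨B, hB⟩ := hlocaa U
    refine ⟨B + M + r * ell U, fun u hu huU => ?_⟩
    have e1 := hB u hu huU
    have e2 := hM u hu
    have e4 : (0 : ℝ) ≤ r * ell u := mul_nonneg (by positivity) (by linarith [ell_nonneg hu.le])
    have e5 : (r : ℝ) * ell u ≤ r * ell U :=
      mul_le_mul_of_nonneg_left (ell_mono hu.le huU) (by positivity)
    unfold ff
    refine (abs_sub _ _).trans ?_
    refine (add_le_add_left (abs_sub _ _) _).trans ?_
    rw [abs_of_nonneg e4]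
    linarith
  obtain ⟨hi, hlim⟩ := abel_tendsto ff_meas h hloc
  have hconv : ∀ w > 0, LInt (aa S (tn S bad tr ω)) w := by
    intro w hw
    have h1 := ((hi w hw).add (E.sc_LInt hw)).add ((ell_LInt hw).const_mul (r : ℝ))
    have h2 : (fun u => ff S (tn S bad tr ω) r u + sc S (tn S bad tr ω) u + r * ell u) =
        aa S (tn S bad tr ω) := by
      funext u; unfold ff; ring
    rwa [h2] at h1
  refine ⟨hconv, ?_⟩
  have P := (FC_isCont E hconv).dataU E
  -- real value on the real axis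
  have hreal : ∀ w : ℝ, 0 < w → FC S bad tr ω (((ω : ℂ) + 1) / 2 + w) =
      ((Real.exp ((GG S (tn S bad tr ω) w).re - w * lap (aa S (tn S bad tr ω)) w) : ℝ) : ℂ) := by
    intro w hw
    have := P.real_eq le_rfl hconv hw
    rwa [pow_one] at this
  -- the limit of the logarithm
  have hlog : Tendsto (fun w : ℝ => (GG S (tn S bad tr ω) w).re -
      w * lap (aa S (tn S bad tr ω)) w - r * Real.log w) (𝓝[>] 0) (𝓝 (Real.log Λ)) := by
    have h2 := (E.G3.sub hlim).sub (ell_lap_limit.const_mul (r : ℝ))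
    have h3 : (0 - (-Real.log Λ + r * Real.eulerMascheroniConstant) -
        (r : ℝ) * (-Real.eulerMascheroniConstant)) = Real.log Λ := by ring
    rw [h3] at h2
    refine h2.congr' ?_
    filter_upwards [self_mem_nhdsWithin] with w hw
    have hw0 : (0 : ℝ) < w := hw
    have h5 : lap (ff S (tn S bad tr ω) r) w = lap (aa S (tn S bad tr ω)) w -
        lap (sc S (tn S bad tr ω)) w - r * lap ell w := by
      unfold ff
      rw [lap_sub ((hconv w hw0).sub (E.sc_LInt hw0)) ((ell_LInt hw0).const_mul _),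
        lap_sub (hconv w hw0) (E.sc_LInt hw0), lap_const_mul]
    have h6 : lap (sc S (tn S bad tr ω)) w = lap (ss S (tn S bad tr ω)) w -
        lap (fun u => ss S (tn S bad tr ω) (u / 2)) w := by
      unfold sc
      rw [lap_sub (E.ss_LInt hw0) (LInt_half (E.ss_LInt (by linarith)))]
    have h7 := lap_half (f := ss S (tn S bad tr ω)) (w := w)
    rw [h5, h6]
    linear_combination -h7
  have hexp := hlog.rexp
  rw [Real.exp_log hΛ] at hexp
  have h8 := (Complex.continuous_ofReal.tendsto Λ).comp hexp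
  have h9 := h8.comp (shift_nhds' ((ω + 1) / 2))
  refine h9.congr' ?_
  filter_upwards [self_mem_nhdsWithin] with s hs
  have hs' : (ω + 1) / 2 < s := hs
  have hpos : 0 < s - (ω + 1) / 2 := by linarith
  simp only [Function.comp_apply]
  have h10 := hreal (s - (ω + 1) / 2) hpos
  have h11 : ((ω : ℂ) + 1) / 2 + ((s - (ω + 1) / 2 : ℝ) : ℂ) = s := by push_cast; ring
  rw [h11] at h10
  rw [h10, ← Complex.ofReal_sub, ← Complex.ofReal_pow, ← Complex.ofReal_div]
  congr 1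
  rw [Real.exp_sub _ ((r : ℝ) * _), mul_comm (r : ℝ), Real.exp_mul, Real.exp_log hpos,
    Real.rpow_natCast]

/-- the multiplicative slow variation in terms of `u` -/
theorem slow_a
    (h : ∀ ε : ℝ, 0 < ε → ∃ δ : ℝ, 0 < δ ∧ ∀ᶠ x : ℝ in atTop, ∀ y, x ≤ y → y ≤ x ^ (1 + δ) →
      PP S bad tr ω y ≤ (1 + ε) * PP S bad tr ω x) :
    ∀ ε > 0, ∃ δ > 0, ∃ u0 : ℝ, ∀ u v, u0 ≤ u → u ≤ v → v ≤ (1 + δ) * u →
      aa S (tn S bad tr ω) v ≤ aa S (tn S bad tr ω) u + ε := by
  intro ε hε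
  obtain ⟨δ, hδ, h1⟩ := h ε hε
  obtain ⟨X, hX⟩ := eventually_atTop.mp h1
  refine ⟨δ, hδ, Real.log (max X 1), fun u v h2 h3 h4 => ?_⟩
  have h5 : X ≤ Real.exp u := by
    have e2 : 0 < max X 1 := lt_of_lt_of_le one_pos (le_max_right _ _)
    rw [Real.log_le_iff_le_exp e2] at h2
    exact (le_max_left _ _).trans h2
  have h6 := hX (Real.exp u) h5 (Real.exp v) (Real.exp_le_exp.mpr h3) (by
    rw [← Real.exp_mul]
    exact Real.exp_le_exp.mpr (by linarith))
  have h7 := Real.log_le_log (PP_pos _) h6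
  rw [Real.log_mul (by positivity) (PP_pos _).ne', log_PP, log_PP] at h7
  have h8 := Real.log_le_sub_one_of_pos (show 0 < 1 + ε by linarith)
  linarith

theorem slow_a_lower
    (h : ∀ ε : ℝ, 0 < ε → ∃ δ : ℝ, 0 < δ ∧ ∀ᶠ x : ℝ in atTop, ∀ y, x ≤ y → y ≤ x ^ (1 + δ) →
      PP S bad tr ω x ≤ (1 + ε) * PP S bad tr ω y) :
    ∀ ε > 0, ∃ δ > 0, ∃ u0 : ℝ, ∀ u v, u0 ≤ u → u ≤ v → v ≤ (1 + δ) * u →
      aa S (tn S bad tr ω) u - ε ≤ aa S (tn S bad tr ω) v := by
  intro ε hε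
  obtain ⟨δ, hδ, h1⟩ := h ε hε
  obtain ⟨X, hX⟩ := eventually_atTop.mp h1
  refine ⟨δ, hδ, Real.log (max X 1), fun u v h2 h3 h4 => ?_⟩
  have h5 : X ≤ Real.exp u := by
    have e2 : 0 < max X 1 := lt_of_lt_of_le one_pos (le_max_right _ _)
    rw [Real.log_le_iff_le_exp e2] at h2
    exact (le_max_left _ _).trans h2
  have h6 := hX (Real.exp u) h5 (Real.exp v) (Real.exp_le_exp.mpr h3) (by
    rw [← Real.exp_mul]
    exact Real.exp_le_exp.mpr (by linarith))
  have h7 := Real.log_le_log (PP_pos _) h6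
  rw [Real.log_mul (by positivity) (PP_pos _).ne', log_PP, log_PP] at h7
  have h8 := Real.log_le_sub_one_of_pos (show 0 < 1 + ε by linarith)
  linarith

/-- convergence implies two-sided slow variation -/
theorem slow_of_ff (E : TData S (tn S bad tr ω) D) (hS : SlowSys S) {C : ℝ}
    (h : Tendsto (ff S (tn S bad tr ω) r) atTop (𝓝 C)) {ε : ℝ}
    (hε : 0 < ε) : ∃ δ : ℝ, 0 < δ ∧ ∀ᶠ x : ℝ in atTop, ∀ y, x ≤ y → y ≤ x ^ (1 + δ) →
      PP S bad tr ω y ≤ (1 + ε) * PP S bad tr ω x ∧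
      PP S bad tr ω x ≤ (1 + ε) * PP S bad tr ω y := by
  set η : ℝ := Real.log (1 + ε) / 5 with hη
  have hη0 : 0 < η := by
    have := Real.log_pos (show 1 < 1 + ε by linarith)
    positivity
  obtain ⟨δ1, hδ1, u1, hs⟩ := E.sc_slow hS hη0
  have hδ2 : 0 < η / (r + 1) := by positivity
  obtain ⟨U, hU⟩ := Metric.tendsto_atTop.mp h η hη0
  refine ⟨min δ1 (η / (r + 1)), lt_min hδ1 hδ2, ?_⟩
  filter_upwards [eventually_ge_atTop (Real.exp (max 1 (max u1 U)))] with x hx y h4 h5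
  have hx0 : 0 < x := lt_of_lt_of_le (Real.exp_pos _) hx
  have hy0 : 0 < y := by linarith
  set u := Real.log x with hu
  set v := Real.log y with hv
  have hu4 : max 1 (max u1 U) ≤ u := by rw [hu, Real.le_log_iff_exp_le hx0]; exact hx
  have hu4' : 1 ≤ u := (le_max_left _ _).trans hu4
  have huv : u ≤ v := Real.log_le_log hx0 h4
  have hv2 : v ≤ (1 + min δ1 (η / (r + 1))) * u := by
    have := Real.log_le_log hy0 h5
    rwa [Real.log_rpow hx0] at this
  have hu0 : 0 < u := by linarith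
  have m1 : min δ1 (η / (r + 1)) ≤ δ1 := min_le_left _ _
  have m2 : min δ1 (η / (r + 1)) ≤ η / (r + 1) := min_le_right _ _
  have e1 := hs u v (((le_max_left _ _).trans (le_max_right _ _)).trans hu4) huv
    (hv2.trans (mul_le_mul_of_nonneg_right (by linarith) hu0.le))
  have e2 := hU u (((le_max_right _ _).trans (le_max_right _ _)).trans hu4)
  have e3 := hU v ((((le_max_right _ _).trans (le_max_right _ _)).trans hu4).trans huv)
  rw [Real.dist_eq] at e2 e3
  have e4 := ell_slow hδ2 hu0 huv (hv2.trans (mul_le_mul_of_nonneg_right (by linarith) hu0.le))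
  have e5 : (r : ℝ) * ell v ≤ r * (ell u + η / (r + 1)) := mul_le_mul_of_nonneg_left e4 (by positivity)
  have e6 : (r : ℝ) * (η / (r + 1)) ≤ η := by
    rw [mul_div_assoc', div_le_iff₀ (by positivity)]
    nlinarith
  have e7 : (r : ℝ) * ell u ≤ r * ell v := mul_le_mul_of_nonneg_left (ell_mono hu0.le huv) (by positivity)
  have e8 : |aa S (tn S bad tr ω) v - aa S (tn S bad tr ω) u| ≤ Real.log (1 + ε) := by
    have h6 : aa S (tn S bad tr ω) v - aa S (tn S bad tr ω) u =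
        (ff S (tn S bad tr ω) r v - C) - (ff S (tn S bad tr ω) r u - C) +
        (sc S (tn S bad tr ω) v - sc S (tn S bad tr ω) u) + (r * ell v - r * ell u) := by
      unfold ff; ring
    have h7 : Real.log (1 + ε) = 5 * η := by rw [hη]; ring
    rw [h6, h7]
    have a1 := abs_lt.mp e2
    have a2 := abs_lt.mp e3
    have a3 := abs_le.mp e1
    rw [abs_le]
    constructor <;> linarith
  have e9 := log_PP (S := S) (bad := bad) (tr := tr) (ω := ω) u
  have e10 := log_PP (S := S) (bad := bad) (tr := tr) (ω := ω) v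
  rw [hu, Real.exp_log hx0] at e9
  rw [hv, Real.exp_log hy0] at e10
  have e11 := abs_le.mp e8
  have h1ε : 0 < 1 + ε := by linarith
  have hp1 := PP_pos (S := S) (bad := bad) (tr := tr) (ω := ω) x
  have hp2 := PP_pos (S := S) (bad := bad) (tr := tr) (ω := ω) y
  constructor
  · rw [← Real.log_le_log_iff hp2 (mul_pos h1ε hp1),
      Real.log_mul h1ε.ne' hp1.ne', e9, e10]
    linarith
  · rw [← Real.log_le_log_iff hp1 (mul_pos h1ε hp2),
      Real.log_mul h1ε.ne' hp2.ne', e9, e10]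
    linarith

/-- **One-sided slow variation and the leading coefficient.** -/
theorem lead_tfae (E : TData S (tn S bad tr ω) D) (hS : SlowSys S) (r : ℕ) (hΛ : 0 < Λ) :
    List.TFAE [
      Tendsto (fun x : ℝ => PS S bad tr ω x / (Real.log x) ^ r) atTop
        (𝓝 (Real.exp (r * Real.eulerMascheroniConstant) / Λ)),
      (∃ F : ℂ → ℂ, IsCont S bad tr ω F ∧
        Tendsto (fun s : ℝ => F s / ((s : ℂ) - ((ω + 1) / 2 : ℝ)) ^ r)
          (𝓝[>] ((ω + 1) / 2)) (𝓝 (Λ : ℂ))) ∧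
        ∀ ε : ℝ, 0 < ε → ∃ δ : ℝ, 0 < δ ∧ ∀ᶠ x : ℝ in atTop, ∀ y, x ≤ y → y ≤ x ^ (1 + δ) →
          PP S bad tr ω y ≤ (1 + ε) * PP S bad tr ω x,
      (∃ F : ℂ → ℂ, IsCont S bad tr ω F ∧
        Tendsto (fun s : ℝ => F s / ((s : ℂ) - ((ω + 1) / 2 : ℝ)) ^ r)
          (𝓝[>] ((ω + 1) / 2)) (𝓝 (Λ : ℂ)) ∧ ∀ s : ℝ, (ω + 1) / 2 < s → F s ≠ 0) ∧
        ∀ ε : ℝ, 0 < ε → ∃ δ : ℝ, 0 < δ ∧ ∀ᶠ x : ℝ in atTop, ∀ y, x ≤ y → y ≤ x ^ (1 + δ) →
          PP S bad tr ω x ≤ (1 + ε) * PP S bad tr ω y,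
      (∃ F : ℂ → ℂ, IsFull S bad tr ω F ∧
        Tendsto (fun s : ℝ => F s / ((s : ℂ) - ((ω + 1) / 2 : ℝ)) ^ r)
          (𝓝[>] ((ω + 1) / 2)) (𝓝 (Λ : ℂ))) ∧
        ∀ ε : ℝ, 0 < ε → ∃ δ : ℝ, 0 < δ ∧ ∀ᶠ x : ℝ in atTop, ∀ y, x ≤ y → y ≤ x ^ (1 + δ) →
          PP S bad tr ω y ≤ (1 + ε) * PP S bad tr ω x ∧
          PP S bad tr ω x ≤ (1 + ε) * PP S bad tr ω y] := by
  tfae_have 1 → 4 := by
    intro h
    have h1 := ff_of_PS_tendsto E hΛ h
    obtain ⟨hconv, h2⟩ := FC_lead E hΛ h1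
    exact ⟨⟨FC S bad tr ω, FC_isFull E hconv, h2⟩, fun ε hε => slow_of_ff E hS h1 hε⟩
  tfae_have 4 → 2 := by
    rintro ⟨⟨F, hF, hO⟩, hK⟩
    refine ⟨⟨F, hF.isCont, hO⟩, fun ε hε => ?_⟩
    obtain ⟨δ, hδ, h⟩ := hK ε hε
    exact ⟨δ, hδ, h.mono fun x hx y h1 h2 => (hx y h1 h2).1⟩
  tfae_have 4 → 3 := by
    rintro ⟨⟨F, hF, hO⟩, hK⟩
    refine ⟨⟨F, hF.isCont, hO, fun s hs => hF.2.1 s (by simpa using hs)⟩, fun ε hε => ?_⟩
    obtain ⟨δ, hδ, h⟩ := hK ε hε
    exact ⟨δ, hδ, h.mono fun x hx y h1 h2 => (hx y h1 h2).2⟩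
  tfae_have 2 → 1 := by
    rintro ⟨⟨F, hF, hO⟩, hK⟩
    have h1 := shift_limit (norm_limit hΛ hO)
    simp only [centre_cast] at h1
    exact PS_of_ff E hΛ (E.lead_upper (hF.dataU E) hΛ h1 (fun ε hε => E.sc_slow hS hε)
      (slow_a hK)).2
  tfae_have 3 → 1 := by
    rintro ⟨⟨F, hF, hO, hne⟩, hK⟩
    have h1 := shift_limit (norm_limit hΛ hO)
    simp only [centre_cast] at h1
    exact PS_of_ff E hΛ (E.lead_lower (hF.dataU E) hΛ (Phi_ne hne) h1
      (fun ε hε => E.sc_slow hS hε) (slow_a_lower hK)).2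
  tfae_finish

/-- **Upper bracket.** -/
theorem bracket_up (E : TData S (tn S bad tr ω) D) (hF : IsCont S bad tr ω F) (hΛ : 0 < Λ)
    (h : Tendsto (fun s : ℝ => ‖F s‖ / (s - (ω + 1) / 2) ^ r) (𝓝[>] ((ω + 1) / 2)) (𝓝 Λ))
    {ε : ℝ} (hε : 0 < ε) : ∃ᶠ x : ℝ in atTop,
      (Real.exp (r * Real.eulerMascheroniConstant) / Λ - ε) * (Real.log x) ^ r <
        PS S bad tr ω x := by
  set T := Real.exp (r * Real.eulerMascheroniConstant) / Λ with hT
  have hT0 : 0 < T := by positivity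
  obtain ⟨η, hη, h1, _⟩ := exp_bracket hT0 hε
  have h' := shift_limit h
  simp only [centre_cast] at h'
  have h2 := E.bracket_upper (hF.dataU E) hΛ h' hη
  have h3 : ∀ᶠ u : ℝ in atTop, -η < r * (ell u - Real.log u) := by
    have := (ell_sub_log.const_mul (r : ℝ))
    rw [mul_zero] at this
    exact this.eventually (lt_mem_nhds (by linarith))
  have h4 := (h2.and_eventually (h3.and (eventually_gt_atTop 0)))
  have h5 : ∃ᶠ u : ℝ in atTop, (T - ε) * u ^ r < PS S bad tr ω (Real.exp u) := by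
    refine h4.mono fun u hu => ?_
    obtain ⟨h5, h6, h7⟩ := hu
    have h8 := ff_of_PS (r := r) E h7
    have h9 : Real.log T = -Real.log Λ + r * Real.eulerMascheroniConstant := by
      rw [hT, Real.log_div (Real.exp_pos _).ne' hΛ.ne', Real.log_exp]; ring
    have h10 : Real.log T - 2 * η < Real.log (PS S bad tr ω (Real.exp u) / u ^ r) := by
      rw [h8]; linarith
    have h11 := Real.exp_lt_exp.mpr h10
    rw [Real.exp_log (div_pos (PS_pos _) (pow_pos h7 r)), Real.exp_sub, Real.exp_log hT0,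
      lt_div_iff₀ (pow_pos h7 r)] at h11
    refine lt_of_le_of_lt (mul_le_mul_of_nonneg_right ?_ (pow_pos h7 r).le) h11
    refine h1.trans (le_of_eq ?_)
    rw [Real.exp_neg]; rfl
  refine (Real.tendsto_exp_atTop.frequently
    (p := fun x => (T - ε) * (Real.log x) ^ r < PS S bad tr ω x) ?_)
  refine h5.mono fun u hu => ?_
  rw [Real.log_exp]
  exact hu

/-- **Lower bracket,** without real zeros to the right of the centre. -/
theorem bracket_down (E : TData S (tn S bad tr ω) D) (hF : IsCont S bad tr ω F) (hΛ : 0 < Λ)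
    (h : Tendsto (fun s : ℝ => ‖F s‖ / (s - (ω + 1) / 2) ^ r) (𝓝[>] ((ω + 1) / 2)) (𝓝 Λ))
    (hne : ∀ s : ℝ, (ω + 1) / 2 < s → F s ≠ 0)
    {ε : ℝ} (hε : 0 < ε) : ∃ᶠ x : ℝ in atTop,
      PS S bad tr ω x <
        (Real.exp (r * Real.eulerMascheroniConstant) / Λ + ε) * (Real.log x) ^ r := by
  set T := Real.exp (r * Real.eulerMascheroniConstant) / Λ with hT
  have hT0 : 0 < T := by positivity
  obtain ⟨η, hη, _, h1⟩ := exp_bracket hT0 hε
  have h' := shift_limit h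
  simp only [centre_cast] at h'
  have h2 := E.bracket_lower (hF.dataU E) hΛ (Phi_ne hne) h' hη
  have h3 : ∀ᶠ u : ℝ in atTop, r * (ell u - Real.log u) < η := by
    have := (ell_sub_log.const_mul (r : ℝ))
    rw [mul_zero] at this
    exact this.eventually (gt_mem_nhds (by linarith))
  have h4 := (h2.and_eventually (h3.and (eventually_gt_atTop 0)))
  have h5 : ∃ᶠ u : ℝ in atTop, PS S bad tr ω (Real.exp u) < (T + ε) * u ^ r := by
    refine h4.mono fun u hu => ?_
    obtain ⟨h5, h6, h7⟩ := hu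
    have h8 := ff_of_PS (r := r) E h7
    have h9 : Real.log T = -Real.log Λ + r * Real.eulerMascheroniConstant := by
      rw [hT, Real.log_div (Real.exp_pos _).ne' hΛ.ne', Real.log_exp]; ring
    have h10 : Real.log (PS S bad tr ω (Real.exp u) / u ^ r) < Real.log T + 2 * η := by
      rw [h8]; linarith
    have h11 := Real.exp_lt_exp.mpr h10
    rw [Real.exp_log (div_pos (PS_pos _) (pow_pos h7 r)), Real.exp_add, Real.exp_log hT0,
      div_lt_iff₀ (pow_pos h7 r)] at h11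
    exact lt_of_lt_of_le h11 (mul_le_mul_of_nonneg_right h1 (pow_pos h7 r).le)
  refine (Real.tendsto_exp_atTop.frequently
    (p := fun x => PS S bad tr ω x < (T + ε) * (Real.log x) ^ r) ?_)
  refine h5.mono fun u hu => ?_
  rw [Real.log_exp]
  exact hu

end Gen

end Pool.Agent.W263.EP
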