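import Pool.Agent.W263.EP.Gen

/-! The exact order of magnitude of the partial products at the centre. -/

set_option autoImplicit false

namespace Pool.Agent.W263.EP

open MeasureTheory Filter Topology Set Classical
open Pool.Agent.W263.BSD
open Pool.Agent.H341R2 (NormSys)

variable {S : NormSys} {bad : Set S.X} {tr : S.X → ℕ → ℝ} {ω D : ℝ} {F : ℂ → ℂ} {r : ℕ}

/-- `|F(s)|` has the exact order `(s - c)^r` as `s → c` from the right -/
def OrdLike (c : ℝ) (F : ℂ → ℂ) (r : ℕ) : Prop :=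
  ∃ α β : ℝ, 0 < α ∧ ∀ᶠ s : ℝ in 𝓝[>] c, α * (s - c) ^ r ≤ ‖F s‖ ∧ ‖F s‖ ≤ β * (s - c) ^ r

/-- the continuation to the half plane to the right of the centre -/
def IsFull (S : NormSys) (bad : Set S.X) (tr : S.X → ℕ → ℝ) (ω : ℝ) (F : ℂ → ℂ) : Prop :=
  DifferentiableOn ℂ F {s : ℂ | (ω + 1) / 2 < s.re} ∧
    (∀ s : ℂ, (ω + 1) / 2 < s.re → F s ≠ 0) ∧
    ∀ s : ℂ, (ω + 2) / 2 < s.re → F s = LF S bad tr s

theorem IsFull.isCont (h : IsFull S bad tr ω F) : IsCont S bad tr ω F := by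
  refine ⟨fun s hs => ?_, fun s hs => h.2.2 s (by simpa using hs)⟩
  refine Complex.analyticAt_iff_eventually_differentiableAt.mpr ?_
  filter_upwards [(isOpen_half ((ω + 1) / 2)).mem_nhds
    (show (ω + 1) / 2 < (s : ℂ).re by simpa using hs)] with z hz
  exact h.1.differentiableAt ((isOpen_half _).mem_nhds hz)

theorem FC_isFull (E : TData S (tn S bad tr ω) D)
    (hconv : ∀ w > 0, LInt (aa S (tn S bad tr ω)) w) : IsFull S bad tr ω (FC S bad tr ω) :=
  ⟨FC_diff E hconv, fun s _ => FC_ne_zero s, fun _ hs => FC_eq E hs⟩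

theorem shift_nhds (c : ℝ) : Tendsto (fun w : ℝ => c + w) (𝓝[>] 0) (𝓝[>] c) := by
  rw [tendsto_nhdsWithin_iff]
  constructor
  · have : Tendsto (fun w : ℝ => c + w) (𝓝 0) (𝓝 (c + 0)) := tendsto_id.const_add c
    rw [add_zero] at this
    exact tendsto_nhdsWithin_of_tendsto_nhds this
  · filter_upwards [self_mem_nhdsWithin] with w hw
    have : (0 : ℝ) < w := hw
    show c < c + w
    linarith

theorem shift_nhds' (c : ℝ) : Tendsto (fun s : ℝ => s - c) (𝓝[>] c) (𝓝[>] 0) := by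
  rw [tendsto_nhdsWithin_iff]
  constructor
  · have : Tendsto (fun s : ℝ => s - c) (𝓝 c) (𝓝 (c - c)) := tendsto_id.sub_const c
    rw [sub_self] at this
    exact tendsto_nhdsWithin_of_tendsto_nhds this
  · filter_upwards [self_mem_nhdsWithin] with s hs
    have : c < s := hs
    show (0 : ℝ) < s - c
    linarith

theorem centre_cast (w : ℝ) : (((ω + 1) / 2 + w : ℝ) : ℂ) = ((ω : ℂ) + 1) / 2 + (w : ℂ) := by
  push_cast; ring

theorem OrdLike.logB (h : OrdLike ((ω + 1) / 2) F r) :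
    LogB (fun w => F (((ω : ℂ) + 1) / 2 + w)) r := by
  obtain ⟨α, β, hα, h⟩ := h
  refine ⟨|Real.log α| + |Real.log β|, ?_⟩
  filter_upwards [(shift_nhds ((ω + 1) / 2)).eventually h, self_mem_nhdsWithin] with w h1 h2
  have hw : (0 : ℝ) < w := h2
  have hwr := pow_pos hw r
  rw [add_sub_cancel_left, centre_cast] at h1
  obtain ⟨h3, h4⟩ := h1
  have h5 : 0 < ‖F (((ω : ℂ) + 1) / 2 + w)‖ := lt_of_lt_of_le (by positivity) h3
  have h6 : α ≤ ‖F (((ω : ℂ) + 1) / 2 + w)‖ / w ^ r := by rwa [le_div_iff₀ hwr]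
  have h7 : ‖F (((ω : ℂ) + 1) / 2 + w)‖ / w ^ r ≤ β := by rwa [div_le_iff₀ hwr]
  have h8 := Real.log_le_log hα h6
  have h9 := Real.log_le_log (div_pos h5 hwr) h7
  have e1 := neg_abs_le (Real.log α)
  have e2 := le_abs_self (Real.log β)
  have e3 := abs_nonneg (Real.log α)
  have e4 := abs_nonneg (Real.log β)
  rw [abs_le]
  constructor <;> linarith

theorem ordLike_of_logB (hne : ∀ s : ℝ, (ω + 1) / 2 < s → F s ≠ 0)
    (h : LogB (fun w => F (((ω : ℂ) + 1) / 2 + w)) r) : OrdLike ((ω + 1) / 2) F r := by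
  obtain ⟨C, hC⟩ := h
  refine ⟨Real.exp (-C), Real.exp C, Real.exp_pos _, ?_⟩
  filter_upwards [(shift_nhds' ((ω + 1) / 2)).eventually hC, self_mem_nhdsWithin] with s h1 h2
  have hs : (ω + 1) / 2 < s := h2
  have hsr : 0 < (s - (ω + 1) / 2) ^ r := pow_pos (by linarith) r
  rw [← centre_cast, add_sub_cancel] at h1
  have h3 : 0 < ‖F s‖ := norm_pos_iff.mpr (hne s hs)
  have h4 := abs_le.mp h1
  have h5 : 0 < ‖F s‖ / (s - (ω + 1) / 2) ^ r := div_pos h3 hsr
  constructor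
  · rw [← le_div_iff₀ hsr, ← Real.le_log_iff_exp_le h5]
    exact h4.1
  · rw [← div_le_iff₀ hsr, ← Real.log_le_iff_le_exp h5]
    exact h4.2

/-- `a(u) = r log u + O(1)` from the order of `P` -/
theorem a_of_order (E : TData S (tn S bad tr ω) D)
    (h : ∃ c C : ℝ, 0 < c ∧ ∀ᶠ x : ℝ in atTop, c * (Real.log x) ^ r ≤ PP S bad tr ω x ∧
      PP S bad tr ω x ≤ C * (Real.log x) ^ r) :
    ∃ M : ℝ, ∀ u, 0 < u → |aa S (tn S bad tr ω) u - r * ell u| ≤ M := by
  obtain ⟨c, C, hc, h⟩ := h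
  obtain ⟨X, hX⟩ := eventually_atTop.mp h
  set U : ℝ := max 2 (Real.log (max X 1)) with hU
  obtain ⟨B, _, hB⟩ := loc_sys S (w := 1) zero_le_one (E.cc_summable (by norm_num)) U
  have hB' : ∀ u : ℝ, u ≤ U → |aa S (tn S bad tr ω) u| ≤ B := hB
  have hU0 : 0 ≤ U := le_trans (by norm_num) (le_max_left _ _)
  have hellU := ell_nonneg hU0
  have hrU : (0 : ℝ) ≤ r * ell U := mul_nonneg (Nat.cast_nonneg r) (by linarith)
  refine ⟨max (|Real.log c| + |Real.log C| + r) (|B| + r * ell U), fun u hu => ?_⟩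
  rcases le_or_gt U u with h1 | h1
  · refine le_trans ?_ (le_max_left _ _)
    have hu2 : 2 ≤ u := (le_max_left _ _).trans h1
    have hXu : X ≤ Real.exp u := by
      have e1 : Real.log (max X 1) ≤ u := (le_max_right _ _).trans h1
      have e2 : 0 < max X 1 := lt_of_lt_of_le one_pos (le_max_right _ _)
      rw [Real.log_le_iff_le_exp e2] at e1
      exact (le_max_left _ _).trans e1
    obtain ⟨h2, h3⟩ := hX _ hXu
    rw [Real.log_exp] at h2 h3
    have hur : 0 < u ^ r := pow_pos hu r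
    have hC : 0 < C := by
      by_contra hcon
      push Not at hcon
      have := mul_nonpos_of_nonpos_of_nonneg hcon hur.le
      have := PP_pos (S := S) (bad := bad) (tr := tr) (ω := ω) (Real.exp u)
      linarith
    have h4 := Real.log_le_log (by positivity) h2
    have h5 := Real.log_le_log (PP_pos _) h3
    rw [log_PP, Real.log_mul hc.ne' hur.ne', Real.log_pow] at h4
    rw [log_PP, Real.log_mul hC.ne' hur.ne', Real.log_pow] at h5
    have h6 := mul_le_mul_of_nonneg_left (log_le_ell hu) (show (0 : ℝ) ≤ r by positivity)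
    have h7 := mul_le_mul_of_nonneg_left (ell_le hu2) (show (0 : ℝ) ≤ r by positivity)
    have e1 := neg_abs_le (Real.log c)
    have e2 := le_abs_self (Real.log C)
    have e3 := abs_nonneg (Real.log c)
    have e4 := abs_nonneg (Real.log C)
    have e5 : (0 : ℝ) ≤ r := Nat.cast_nonneg r
    rw [abs_le]
    constructor <;> linarith
  · refine le_trans ?_ (le_max_right _ _)
    have e1 := hB' u h1.le
    have e2 : (0 : ℝ) ≤ r * ell u := mul_nonneg (by positivity) (by linarith [ell_nonneg hu.le])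
    have e3 : (r : ℝ) * ell u ≤ r * ell U :=
      mul_le_mul_of_nonneg_left (ell_mono hu.le h1.le) (by positivity)
    have e4 := le_abs_self B
    refine (abs_sub _ _).trans ?_
    rw [abs_of_nonneg e2]
    linarith

theorem conv_of_a (_E : TData S (tn S bad tr ω) D) {M : ℝ}
    (h : ∀ u, 0 < u → |aa S (tn S bad tr ω) u - r * ell u| ≤ M) :
    ∀ w > 0, LInt (aa S (tn S bad tr ω)) w := by
  intro w hw
  have h1 : LInt (fun u => M * 1 + r * ell u) w :=
    ((one_LInt hw).const_mul M).add ((ell_LInt hw).const_mul _)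
  refine LInt.of_bound TData.aa_meas h1 fun u hu => ?_
  have h2 := h u hu
  have h3 : (0 : ℝ) ≤ r * ell u := mul_nonneg (by positivity) (by linarith [ell_nonneg hu.le])
  have h4 : aa S (tn S bad tr ω) u = (aa S (tn S bad tr ω) u - r * ell u) + r * ell u := by ring
  rw [h4]
  refine (abs_add_le _ _).trans ?_
  rw [abs_of_nonneg h3]
  linarith

theorem lap_bdd {f : ℝ → ℝ} {w M : ℝ} (hw : 0 < w) (hf : LInt f w) (h : ∀ u, 0 < u → |f u| ≤ M) :
    |w * lap f w| ≤ M := by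
  have h1 := lap_mono hf ((one_LInt hw).const_mul M) (fun u hu => by
    rw [mul_one]; exact (abs_le.mp (h u hu)).2)
  have h2 := lap_mono ((one_LInt hw).const_mul (-M)) hf (fun u hu => by
    rw [mul_one]; exact (abs_le.mp (h u hu)).1)
  rw [lap_const_mul, one_lap hw] at h1 h2
  have h3 := mul_le_mul_of_nonneg_left h1 hw.le
  have h4 := mul_le_mul_of_nonneg_left h2 hw.le
  have e1 : w * (M * (1 / w)) = M := by field_simp
  have e2 : w * (-M * (1 / w)) = -M := by field_simp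
  rw [e1] at h3
  rw [e2] at h4
  exact abs_le.mpr ⟨h4, h3⟩

theorem logB_FC (E : TData S (tn S bad tr ω) D) {M : ℝ}
    (h : ∀ u, 0 < u → |aa S (tn S bad tr ω) u - r * ell u| ≤ M) :
    LogB (fun w => FC S bad tr ω (((ω : ℂ) + 1) / 2 + w)) r := by
  have hconv := conv_of_a E h
  have P := (FC_isCont E hconv).dataU E
  obtain ⟨C, hC⟩ := E.GG_bound
  refine ⟨C + M + r * (Real.exp 1 + |ck 0|), ?_⟩
  filter_upwards [hC, self_mem_nhdsWithin, Ioo_mem_nhdsGT (show (0 : ℝ) < 1 by norm_num)]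
    with w h3 h5 h6
  have hw : (0 : ℝ) < w := h5
  rw [P.real_eq le_rfl hconv hw, Complex.norm_real, Real.norm_of_nonneg (Real.exp_pos _).le,
    Real.log_div (Real.exp_pos _).ne' (pow_pos hw _).ne', Real.log_exp, Real.log_pow, pow_one]
  have e1 := lap_bdd hw ((hconv w hw).sub ((ell_LInt hw).const_mul _)) h
  rw [lap_sub (hconv w hw) ((ell_LInt hw).const_mul _), lap_const_mul] at e1
  have e2 := pl_lap_le 0 hw h6.2.le
  have e3 := le_pl_lap 0 hw
  rw [pl_zero] at e2 e3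
  norm_num at e2 e3
  have e4 : |w * lap ell w - -Real.log w| ≤ Real.exp 1 + |ck 0| := by
    rw [abs_le]
    have := le_abs_self (ck 0)
    have := Real.exp_pos 1
    have := abs_nonneg (ck 0)
    constructor <;> linarith
  have e5 : (GG S (tn S bad tr ω) w).re - w * lap (aa S (tn S bad tr ω)) w - r * Real.log w =
      (GG S (tn S bad tr ω) w).re - w * (lap (aa S (tn S bad tr ω)) w - r * lap ell w) -
      r * (w * lap ell w - -Real.log w) := by ring
  rw [e5]
  refine (abs_sub _ _).trans (add_le_add ((abs_sub _ _).trans (add_le_add h3 e1)) ?_)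
  rw [abs_mul, abs_of_nonneg (show (0 : ℝ) ≤ r by positivity)]
  exact mul_le_mul_of_nonneg_left e4 (by positivity)

/-- exact order of `P` from `a` -/
theorem order_of_a {M : ℝ}
    (h : ∀ u, 0 < u → |aa S (tn S bad tr ω) u - r * ell u| ≤ M) :
    ∃ c C : ℝ, 0 < c ∧ ∀ᶠ x : ℝ in atTop, c * (Real.log x) ^ r ≤ PP S bad tr ω x ∧
      PP S bad tr ω x ≤ C * (Real.log x) ^ r := by
  refine ⟨Real.exp (-(M + r)), Real.exp (M + r), Real.exp_pos _, ?_⟩
  filter_upwards [eventually_ge_atTop (Real.exp 2)] with x hx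
  have hx0 : 0 < x := lt_of_lt_of_le (Real.exp_pos 2) hx
  set u := Real.log x with hu
  have hu2 : 2 ≤ u := by rw [hu, Real.le_log_iff_exp_le hx0]; exact hx
  have hu0 : 0 < u := by linarith
  have hxu : x = Real.exp u := by rw [hu, Real.exp_log hx0]
  have h2 := abs_le.mp (h u hu0)
  have h3' := mul_le_mul_of_nonneg_left (log_le_ell hu0) (show (0 : ℝ) ≤ r by positivity)
  have h4' := mul_le_mul_of_nonneg_left (ell_le hu2) (show (0 : ℝ) ≤ r by positivity)
  have h5 : PP S bad tr ω x = Real.exp (aa S (tn S bad tr ω) u) := by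
    rw [← log_PP, ← hxu, Real.exp_log (PP_pos x)]
  have h6 : u ^ r = Real.exp (r * Real.log u) := by
    rw [mul_comm, Real.exp_mul, Real.exp_log hu0, Real.rpow_natCast]
  rw [h5, h6, ← Real.exp_add, ← Real.exp_add, Real.exp_le_exp, Real.exp_le_exp]
  constructor <;> linarith

theorem doubling_a {K : ℝ}
    (h : ∀ᶠ x : ℝ in atTop, ∀ y, x ≤ y → y ≤ x ^ 2 → PP S bad tr ω y ≤ K * PP S bad tr ω x) :
    ∃ K' u0 : ℝ, 0 ≤ K' ∧ 1 ≤ u0 ∧ ∀ u v, u0 ≤ u → u ≤ v → v ≤ 2 * u →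
      aa S (tn S bad tr ω) v ≤ aa S (tn S bad tr ω) u + K' := by
  obtain ⟨X, hX⟩ := eventually_atTop.mp h
  set X' := max X (Real.exp 1) with hX'
  have hX0 : 0 < X' := lt_of_lt_of_le (Real.exp_pos 1) (le_max_right _ _)
  refine ⟨|Real.log K|, Real.log X', by positivity, ?_, ?_⟩
  · rw [Real.le_log_iff_exp_le hX0]; exact le_max_right _ _
  intro u v h1 h2 h3
  have h4 : X' ≤ Real.exp u := by rwa [← Real.log_le_iff_le_exp hX0]
  have h5 := hX (Real.exp u) ((le_max_left _ _).trans h4) (Real.exp v) (Real.exp_le_exp.mpr h2)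
    (by rw [← Real.exp_nat_mul]; exact Real.exp_le_exp.mpr (by push_cast; linarith))
  have hp1 := PP_pos (S := S) (bad := bad) (tr := tr) (ω := ω) (Real.exp u)
  have hp2 := PP_pos (S := S) (bad := bad) (tr := tr) (ω := ω) (Real.exp v)
  have hKpos : 0 < K := by
    by_contra hneg
    push Not at hneg
    have := mul_nonpos_of_nonpos_of_nonneg hneg hp1.le
    linarith
  have h6 := Real.log_le_log hp2 h5
  rw [Real.log_mul hKpos.ne' hp1.ne', log_PP, log_PP] at h6
  have := le_abs_self (Real.log K)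
  linarith

theorem doubling_a_lower {K : ℝ}
    (h : ∀ᶠ x : ℝ in atTop, ∀ y, x ≤ y → y ≤ x ^ 2 → PP S bad tr ω x ≤ K * PP S bad tr ω y) :
    ∃ K' u0 : ℝ, 0 ≤ K' ∧ 1 ≤ u0 ∧ ∀ u v, u0 ≤ u → u ≤ v → v ≤ 2 * u →
      aa S (tn S bad tr ω) u - K' ≤ aa S (tn S bad tr ω) v := by
  obtain ⟨X, hX⟩ := eventually_atTop.mp h
  set X' := max X (Real.exp 1) with hX'
  have hX0 : 0 < X' := lt_of_lt_of_le (Real.exp_pos 1) (le_max_right _ _)
  refine ⟨|Real.log K|, Real.log X', by positivity, ?_, ?_⟩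
  · rw [Real.le_log_iff_exp_le hX0]; exact le_max_right _ _
  intro u v h1 h2 h3
  have h4 : X' ≤ Real.exp u := by rwa [← Real.log_le_iff_le_exp hX0]
  have h5 := hX (Real.exp u) ((le_max_left _ _).trans h4) (Real.exp v) (Real.exp_le_exp.mpr h2)
    (by rw [← Real.exp_nat_mul]; exact Real.exp_le_exp.mpr (by push_cast; linarith))
  have hp1 := PP_pos (S := S) (bad := bad) (tr := tr) (ω := ω) (Real.exp u)
  have hp2 := PP_pos (S := S) (bad := bad) (tr := tr) (ω := ω) (Real.exp v)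
  have hKpos : 0 < K := by
    by_contra hneg
    push Not at hneg
    have := mul_nonpos_of_nonpos_of_nonneg hneg hp2.le
    linarith
  have h6 := Real.log_le_log hp1 h5
  rw [Real.log_mul hKpos.ne' hp2.ne', log_PP, log_PP] at h6
  have := le_abs_self (Real.log K)
  linarith

theorem Phi_ne (hne : ∀ s : ℝ, (ω + 1) / 2 < s → F s ≠ 0) (w : ℝ) (hw : 0 < w) :
    (fun w : ℂ => F (((ω : ℂ) + 1) / 2 + w)) w ≠ 0 := by
  have := hne ((ω + 1) / 2 + w) (by linarith)
  rwa [centre_cast] at this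

theorem doubling_of_order
    (h : ∃ c C : ℝ, 0 < c ∧ ∀ᶠ x : ℝ in atTop, c * (Real.log x) ^ r ≤ PP S bad tr ω x ∧
      PP S bad tr ω x ≤ C * (Real.log x) ^ r) :
    ∃ K : ℝ, ∀ᶠ x : ℝ in atTop, ∀ y, x ≤ y → y ≤ x ^ 2 →
      PP S bad tr ω y ≤ K * PP S bad tr ω x ∧ PP S bad tr ω x ≤ K * PP S bad tr ω y := by
  obtain ⟨c, C, hc, h⟩ := h
  obtain ⟨X, hX⟩ := eventually_atTop.mp h
  refine ⟨|C| * 2 ^ r / c, ?_⟩
  filter_upwards [eventually_ge_atTop (max X (Real.exp 1))] with x hx y h1 h2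
  have hx1 : Real.exp 1 ≤ x := (le_max_right _ _).trans hx
  have hx0 : 0 < x := lt_of_lt_of_le (Real.exp_pos 1) hx1
  have hl : 1 ≤ Real.log x := by rwa [Real.le_log_iff_exp_le hx0]
  have e1 := hX x ((le_max_left _ _).trans hx)
  have e2 := hX y (((le_max_left _ _).trans hx).trans h1)
  have hly : Real.log y ≤ 2 * Real.log x := by
    have := Real.log_le_log (by linarith) h2
    rwa [Real.log_pow] at this
  have hly' : Real.log x ≤ Real.log y := Real.log_le_log hx0 h1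
  have hly0 : 0 ≤ Real.log y := by linarith
  have h2r : (1 : ℝ) ≤ 2 ^ r := one_le_pow₀ (by norm_num)
  constructor
  · calc PP S bad tr ω y ≤ C * Real.log y ^ r := e2.2
      _ ≤ |C| * (2 * Real.log x) ^ r := by
          refine mul_le_mul (le_abs_self C) (pow_le_pow_left₀ hly0 hly r) (by positivity)
            (abs_nonneg _)
      _ = |C| * 2 ^ r / c * (c * Real.log x ^ r) := by rw [mul_pow]; field_simp
      _ ≤ |C| * 2 ^ r / c * PP S bad tr ω x := mul_le_mul_of_nonneg_left e1.1 (by positivity)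
  · calc PP S bad tr ω x ≤ C * Real.log x ^ r := e1.2
      _ ≤ |C| * Real.log y ^ r := by
          refine mul_le_mul (le_abs_self C) (pow_le_pow_left₀ (by linarith) hly' r) (by positivity)
            (abs_nonneg _)
      _ ≤ |C| * 2 ^ r * Real.log y ^ r := by
          have : |C| ≤ |C| * 2 ^ r := le_mul_of_one_le_right (abs_nonneg _) h2r
          exact mul_le_mul_of_nonneg_right this (by positivity)
      _ = |C| * 2 ^ r / c * (c * Real.log y ^ r) := by field_simp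
      _ ≤ |C| * 2 ^ r / c * PP S bad tr ω y := mul_le_mul_of_nonneg_left e2.1 (by positivity)

/-- **The one-sided criterion for the exact order of magnitude.** -/
theorem order_tfae (E : TData S (tn S bad tr ω) D) (r : ℕ) :
    List.TFAE [
      ∃ c C : ℝ, 0 < c ∧ ∀ᶠ x : ℝ in atTop, c * (Real.log x) ^ r ≤ PP S bad tr ω x ∧
        PP S bad tr ω x ≤ C * (Real.log x) ^ r,
      (∃ F : ℂ → ℂ, IsCont S bad tr ω F ∧ OrdLike ((ω + 1) / 2) F r) ∧
        ∃ K : ℝ, ∀ᶠ x : ℝ in atTop, ∀ y, x ≤ y → y ≤ x ^ 2 →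
          PP S bad tr ω y ≤ K * PP S bad tr ω x,
      (∃ F : ℂ → ℂ, IsCont S bad tr ω F ∧ OrdLike ((ω + 1) / 2) F r ∧
        ∀ s : ℝ, (ω + 1) / 2 < s → F s ≠ 0) ∧
        ∃ K : ℝ, ∀ᶠ x : ℝ in atTop, ∀ y, x ≤ y → y ≤ x ^ 2 →
          PP S bad tr ω x ≤ K * PP S bad tr ω y,
      (∃ F : ℂ → ℂ, IsFull S bad tr ω F ∧ OrdLike ((ω + 1) / 2) F r) ∧
        ∃ K : ℝ, ∀ᶠ x : ℝ in atTop, ∀ y, x ≤ y → y ≤ x ^ 2 →
          PP S bad tr ω y ≤ K * PP S bad tr ω x ∧ PP S bad tr ω x ≤ K * PP S bad tr ω y] := by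
  tfae_have 1 → 4 := by
    intro h
    obtain ⟨M, hM⟩ := a_of_order E h
    refine ⟨⟨FC S bad tr ω, FC_isFull E (conv_of_a E hM), ?_⟩, doubling_of_order h⟩
    exact ordLike_of_logB (fun s _ => FC_ne_zero _) (logB_FC E hM)
  tfae_have 4 → 2 := by
    rintro ⟨⟨F, hF, hO⟩, K, hK⟩
    exact ⟨⟨F, hF.isCont, hO⟩, K, hK.mono fun x hx y h1 h2 => (hx y h1 h2).1⟩
  tfae_have 4 → 3 := by
    rintro ⟨⟨F, hF, hO⟩, K, hK⟩
    exact ⟨⟨F, hF.isCont, hO, fun s hs => hF.2.1 s (by simpa using hs)⟩, K,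
      hK.mono fun x hx y h1 h2 => (hx y h1 h2).2⟩
  tfae_have 2 → 1 := by
    rintro ⟨⟨F, hF, hO⟩, K, hK⟩
    obtain ⟨K', u0, hK', hu0, h1⟩ := doubling_a hK
    obtain ⟨_, M, hM⟩ := (hF.dataU E).order_of_upper E.GG_bound hO.logB hK' hu0 h1
    exact order_of_a hM
  tfae_have 3 → 1 := by
    rintro ⟨⟨F, hF, hO, hne⟩, K, hK⟩
    obtain ⟨K', u0, hK', hu0, h1⟩ := doubling_a_lower hK
    obtain ⟨_, M, hM⟩ := (hF.dataU E).order_of_lower E.GG_bound hO.logB (Phi_ne hne) hK' hu0 h1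
    exact order_of_a hM
  tfae_finish

end Pool.Agent.W263.EP
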